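import Mathlib

set_option autoImplicit false

/-! Poisson summation along an arithmetic progression. -/

namespace Pool.Agent.K4H49.DM

open MeasureTheory Real
open scoped SchwartzMap FourierTransform

noncomputable section

/-- dilation of a Schwartz function -/
def dil (F : 𝓢(ℝ, ℂ)) {α : ℝ} (hα : α ≠ 0) : 𝓢(ℝ, ℂ) :=
  SchwartzMap.compCLMOfContinuousLinearEquiv ℂ
    (ContinuousLinearEquiv.smulLeft (Units.mk0 α hα) : ℝ ≃L[ℝ] ℝ) F

lemma dil_apply (F : 𝓢(ℝ, ℂ)) {α : ℝ} (hα : α ≠ 0) (x : ℝ) : dil F hα x = F (α * x) := rfl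

lemma dil_fourier (F : 𝓢(ℝ, ℂ)) {α : ℝ} (hα : 0 < α) (ξ : ℝ) :
    𝓕 ((dil F hα.ne' : 𝓢(ℝ, ℂ)) : ℝ → ℂ) ξ = ((α⁻¹ : ℝ) : ℂ) * 𝓕 (F : ℝ → ℂ) (ξ / α) := by
  rw [Real.fourier_real_eq_integral_exp_smul, Real.fourier_real_eq_integral_exp_smul]
  have h := MeasureTheory.Measure.integral_comp_mul_left
    (fun x : ℝ => Complex.exp (((-2 * π * x * (ξ / α) : ℝ) : ℂ) * Complex.I) • F x) α
  rw [abs_of_pos (inv_pos.2 hα)] at h
  rw [← Complex.real_smul, ← h]
  refine integral_congr_ae (Filter.Eventually.of_forall fun x => ?_)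
  show Complex.exp (((-2 * π * x * ξ : ℝ) : ℂ) * Complex.I) • dil F hα.ne' x =
    Complex.exp (((-2 * π * (α * x) * (ξ / α) : ℝ) : ℂ) * Complex.I) • F (α * x)
  rw [dil_apply]
  congr 4
  field_simp

lemma summable_int (F : 𝓢(ℝ, ℂ)) : Summable (fun n : ℤ => F n) := by
  have h := (F.isBigO_cocompact_rpow (-2)).comp_tendsto Int.tendsto_coe_cofinite
  exact summable_of_isBigO (Real.summable_abs_int_rpow one_lt_two) h

/-- the total of the nonzero frequencies -/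
def DD (F : ℝ → ℂ) (α : ℝ) : ℝ :=
  ∑' m : ℕ, (‖𝓕 F (((m + 1 : ℕ) : ℝ) / α)‖ + ‖𝓕 F (-(((m + 1 : ℕ) : ℝ) / α))‖)

lemma summable_DD (F : 𝓢(ℝ, ℂ)) {α : ℝ} (hα : 0 < α) :
    Summable (fun m : ℤ => ‖𝓕 (F : ℝ → ℂ) ((m : ℝ) / α)‖) := by
  have h := (summable_int (𝓕 (dil F hα.ne'))).norm.mul_left α
  refine h.congr fun m => ?_
  rw [SchwartzMap.fourier_coe, dil_fourier F hα, norm_mul, Complex.norm_real, Real.norm_eq_abs,
    abs_of_pos (inv_pos.2 hα), mul_inv_cancel_left₀ hα.ne']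

lemma summable_DD' (F : 𝓢(ℝ, ℂ)) {α : ℝ} (hα : 0 < α) :
    Summable (fun m : ℕ => ‖𝓕 (F : ℝ → ℂ) (((m + 1 : ℕ) : ℝ) / α)‖ +
      ‖𝓕 (F : ℝ → ℂ) (-(((m + 1 : ℕ) : ℝ) / α))‖) := by
  have h := summable_DD F hα
  refine Summable.add ?_ ?_
  · have := h.comp_injective (i := fun m : ℕ => ((m + 1 : ℕ) : ℤ)) (fun a b hab => by
      simp only [Nat.cast_inj] at hab; omega)
    refine this.congr fun m => ?_
    simp
  · have := h.comp_injective (i := fun m : ℕ => -((m + 1 : ℕ) : ℤ)) (fun a b hab => by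
      simp only [neg_inj, Nat.cast_inj] at hab; omega)
    refine this.congr fun m => ?_
    simp only [Function.comp]
    congr 2
    push_cast
    ring_nf

lemma summable_prog (F : 𝓢(ℝ, ℂ)) {α : ℝ} (hα : 0 < α) (β : ℝ) :
    Summable (fun n : ℤ => F (α * n + β)) := by
  have h := (dil F hα.ne').isBigO_cocompact_rpow (-2)
  have hc : ContinuousMap ℝ ℂ := ⟨_, (dil F hα.ne').continuous⟩
  have h2 := isBigO_norm_restrict_cocompact ⟨_, (dil F hα.ne').continuous⟩ (by norm_num : (0 : ℝ) < 2)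
    h ⟨{β / α}, isCompact_singleton⟩
  have h3 := h2.comp_tendsto Int.tendsto_coe_cofinite
  have h4 := (summable_of_isBigO (Real.summable_abs_int_rpow one_lt_two) h3)
  refine Summable.of_norm_bounded h4 fun n => ?_
  have h5 := ContinuousMap.norm_coe_le_norm
    (((⟨_, (dil F hα.ne').continuous⟩ : C(ℝ, ℂ)).comp (ContinuousMap.addRight (n : ℝ))).restrict
      ({β / α} : Set ℝ)) ⟨β / α, rfl⟩
  refine le_trans (le_of_eq ?_) h5
  show ‖F (α * n + β)‖ = ‖dil F hα.ne' (β / α + n)‖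
  rw [dil_apply]
  congr 2
  field_simp
  ring

theorem poisson_bd (F : 𝓢(ℝ, ℂ)) {α : ℝ} (hα : 0 < α) (β : ℝ) :
    ‖(α : ℂ) * ∑' n : ℤ, F (α * n + β) - ∫ x, F x‖ ≤ DD F α := by
  have h1 := SchwartzMap.tsum_eq_tsum_fourier (dil F hα.ne') (β / α)
  have e1 : ∀ n : ℤ, dil F hα.ne' (β / α + n) = F (α * n + β) := by
    intro n
    rw [dil_apply]
    congr 1
    field_simp
    ring
  have e2 : ∀ n : ℤ, 𝓕 (dil F hα.ne') (n : ℝ) = ((α⁻¹ : ℝ) : ℂ) * 𝓕 (F : ℝ → ℂ) (n / α) := by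
    intro n
    rw [SchwartzMap.fourier_coe, dil_fourier F hα]
  simp only [e1, e2] at h1
  rw [h1, ← tsum_mul_left]
  have e3 : ∀ n : ℤ, (α : ℂ) * (((α⁻¹ : ℝ) : ℂ) * 𝓕 (F : ℝ → ℂ) (n / α) *
      fourier n ((β / α : ℝ) : UnitAddCircle)) =
      𝓕 (F : ℝ → ℂ) (n / α) * fourier n ((β / α : ℝ) : UnitAddCircle) := by
    intro n
    have : (α : ℂ) ≠ 0 := by exact_mod_cast hα.ne'
    push_cast
    field_simp
  simp only [e3]
  have hn : ∀ n : ℤ, ‖𝓕 (F : ℝ → ℂ) (n / α) * fourier n ((β / α : ℝ) : UnitAddCircle)‖ =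
      ‖𝓕 (F : ℝ → ℂ) (n / α)‖ := by
    intro n
    rw [norm_mul]
    have : ‖fourier n ((β / α : ℝ) : UnitAddCircle)‖ = 1 := Circle.norm_coe _
    rw [this, mul_one]
  have hs : Summable (fun n : ℤ => 𝓕 (F : ℝ → ℂ) (n / α) *
      fourier n ((β / α : ℝ) : UnitAddCircle)) := by
    refine Summable.of_norm ((summable_DD F hα).congr fun n => (hn n).symm)
  set g : ℤ → ℂ := fun n => 𝓕 (F : ℝ → ℂ) (n / α) * fourier n ((β / α : ℝ) : UnitAddCircle) with hg
  have hint : ∫ x, F x = g 0 := by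
    simp only [hg]
    rw [Int.cast_zero, zero_div, Real.fourier_real_eq_integral_exp_smul]
    simp
  have hs1 : Summable (fun m : ℕ => g (m + 1)) :=
    hs.comp_injective (i := fun m : ℕ => ((m : ℤ) + 1)) (fun a b hab => by
      simp only [add_left_inj, Nat.cast_inj] at hab; exact hab)
  have hs2 : Summable (fun m : ℕ => g (-((m : ℤ) + 1))) :=
    hs.comp_injective (i := fun m : ℕ => -((m : ℤ) + 1)) (fun a b hab => by
      simp only [neg_inj, add_left_inj, Nat.cast_inj] at hab; exact hab)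
  have hsplit : ∑' n : ℤ, g n = ∑' m : ℕ, (g (m + 1) + g (-((m : ℤ) + 1))) + g 0 := by
    have h2 := tsum_of_nat_of_neg_add_one (f := g)
      (hs.comp_injective (i := fun m : ℕ => (m : ℤ)) Nat.cast_injective) hs2
    have h3 : ∑' m : ℕ, g (m : ℤ) = g 0 + ∑' m : ℕ, g ((m : ℤ) + 1) := by
      have := (hs.comp_injective (i := fun m : ℕ => (m : ℤ)) Nat.cast_injective)
      have h4 := this.tsum_eq_zero_add
      simp only [Function.comp, Nat.cast_zero, Nat.cast_add, Nat.cast_one] at h4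
      exact h4
    rw [h2, h3, hs1.tsum_add hs2]
    ring
  rw [hsplit, hint, add_sub_cancel_right]
  unfold DD
  have hs3 := summable_DD' F hα
  refine tsum_of_norm_bounded hs3.hasSum fun m => ?_
  refine (norm_add_le _ _).trans (le_of_eq ?_)
  simp only [hg]
  rw [hn, hn]
  have e5 : (((-((m : ℤ) + 1) : ℤ) : ℝ) / α) = -(((m + 1 : ℕ) : ℝ) / α) := by
    push_cast; ring
  have e6 : ((((m : ℤ) + 1 : ℤ) : ℝ) / α) = (((m + 1 : ℕ) : ℝ) / α) := by
    push_cast; ring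
  rw [e5, e6]

end

end Pool.Agent.K4H49.DM
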