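import Mathlib
import Pool.Agent.K4H49.DM.Poi

set_option autoImplicit false

/-! The mean square over the dilation. -/

namespace Pool.Agent.K4H49.DM

open MeasureTheory Real Set
open scoped SchwartzMap FourierTransform

noncomputable section

/-- substitution `ξ = m / α` -/
lemma sub_int (g : ℝ → ℝ) (hg : Continuous g) (h0 : ∀ x, 0 ≤ g x) (hi : Integrable g) {A m : ℝ}
    (hA : 0 < A) (hm : 0 < m) :
    ∫ α in A..(2 * A), g (m / α) ≤ 4 * A ^ 2 / m * ∫ x, g x := by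
  have hle : A ≤ 2 * A := by linarith
  have hpos : ∀ x ∈ Icc A (2 * A), 0 < x := fun x hx => lt_of_lt_of_le hA hx.1
  have hsub : ∫ α in A..(2 * A), g (m / α) * (m / α ^ 2) = ∫ ξ in (m / (2 * A))..(m / A), g ξ := by
    have h1 := intervalIntegral.integral_comp_mul_deriv' (a := A) (b := 2 * A)
      (f := fun α : ℝ => m / α) (f' := fun α : ℝ => -(m / α ^ 2)) (g := g) (fun x hx => by
        rw [uIcc_of_le hle] at hx
        have hx0 : x ≠ 0 := (hpos x hx).ne'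
        have h2 := (hasDerivAt_inv hx0).const_mul m
        simp only [← div_eq_mul_inv] at h2
        refine h2.congr_deriv ?_
        field_simp) ?_ hg.continuousOn
    · rw [intervalIntegral.integral_symm (m / A), ← h1, ← intervalIntegral.integral_neg]
      refine intervalIntegral.integral_congr fun x _ => ?_
      simp only [Function.comp]
      ring
    · refine ContinuousOn.neg (ContinuousOn.div continuousOn_const (by fun_prop) fun x hx => ?_)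
      rw [uIcc_of_le hle] at hx
      exact pow_ne_zero _ (hpos x hx).ne'
  have hc1 : ContinuousOn (fun α : ℝ => g (m / α)) (uIcc A (2 * A)) := by
    refine hg.comp_continuousOn (ContinuousOn.div continuousOn_const continuousOn_id fun x hx => ?_)
    rw [uIcc_of_le hle] at hx
    exact (hpos x hx).ne'
  have hc2 : ContinuousOn (fun α : ℝ => 4 * A ^ 2 / m * (g (m / α) * (m / α ^ 2)))
      (uIcc A (2 * A)) := by
    refine continuousOn_const.mul (hc1.mul (ContinuousOn.div continuousOn_const (by fun_prop)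
      fun x hx => ?_))
    rw [uIcc_of_le hle] at hx
    exact pow_ne_zero _ (hpos x hx).ne'
  have h1 : ∫ α in A..(2 * A), g (m / α) ≤
      ∫ α in A..(2 * A), 4 * A ^ 2 / m * (g (m / α) * (m / α ^ 2)) := by
    refine intervalIntegral.integral_mono_on hle hc1.intervalIntegrable hc2.intervalIntegrable
      fun x hx => ?_
    have hx0 := hpos x hx
    have h2 : (1 : ℝ) ≤ 4 * A ^ 2 / x ^ 2 := by
      rw [le_div_iff₀ (by positivity), one_mul]
      have := hx.2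
      nlinarith
    calc g (m / x) = g (m / x) * 1 := (mul_one _).symm
      _ ≤ g (m / x) * (4 * A ^ 2 / x ^ 2) := mul_le_mul_of_nonneg_left h2 (h0 _)
      _ = _ := by field_simp
  rw [intervalIntegral.integral_const_mul, hsub] at h1
  refine h1.trans (mul_le_mul_of_nonneg_left ?_ (by positivity))
  have hle2 : m / (2 * A) ≤ m / A := by
    apply div_le_div_of_nonneg_left hm.le hA hle
  rw [intervalIntegral.integral_of_le hle2]
  exact setIntegral_le_integral hi (Filter.Eventually.of_forall h0)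

lemma harm (M : ℕ) (hM : 1 ≤ M) : ∑ m ∈ Finset.range M, 1 / ((m : ℝ) + 1) ≤ 2 * √M := by
  induction M, hM using Nat.le_induction with
  | base => simp
  | succ n hn ih =>
    rw [Finset.sum_range_succ]
    have h1 : 1 / ((n : ℝ) + 1) ≤ 2 * (√((n : ℝ) + 1) - √n) := by
      have hn0 : (0 : ℝ) ≤ n := by positivity
      have hs : 0 < √((n : ℝ) + 1) := Real.sqrt_pos.2 (by positivity)
      have hs0 : 0 ≤ √(n : ℝ) := Real.sqrt_nonneg _
      have e : √((n : ℝ) + 1) ^ 2 = n + 1 := Real.sq_sqrt (by positivity)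
      have e' : √(n : ℝ) ^ 2 = n := Real.sq_sqrt hn0
      have hle : √(n : ℝ) ≤ √((n : ℝ) + 1) := Real.sqrt_le_sqrt (by linarith)
      have h1' : 1 ≤ √((n : ℝ) + 1) := by
        rw [Real.one_le_sqrt]; linarith
      rw [div_le_iff₀ (by positivity)]
      have h3 : (√((n : ℝ) + 1) - √n) * (√((n : ℝ) + 1) + √n) = 1 := by nlinarith
      have h4 : (√((n : ℝ) + 1) + √n) ≤ 2 * (n + 1) := by nlinarith
      have h5 : 0 ≤ √((n : ℝ) + 1) - √n := by linarith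
      nlinarith
    push_cast
    linarith

/-- the total of the low frequencies -/
def DL (F : ℝ → ℂ) (M : ℕ) (α : ℝ) : ℝ :=
  ∑ m ∈ Finset.range M, (‖𝓕 F (((m + 1 : ℕ) : ℝ) / α)‖ + ‖𝓕 F (-(((m + 1 : ℕ) : ℝ) / α))‖)

lemma DL_cont (F : 𝓢(ℝ, ℂ)) (M : ℕ) : ContinuousOn (DL F M) (Ioi 0) := by
  unfold DL
  have hc : Continuous (𝓕 (F : ℝ → ℂ)) := by
    rw [← SchwartzMap.fourier_coe]
    exact (𝓕 F).continuous
  refine continuousOn_finsetSum _ fun m _ => ?_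
  have hd : ContinuousOn (fun α : ℝ => ((m + 1 : ℕ) : ℝ) / α) (Ioi 0) :=
    ContinuousOn.div continuousOn_const continuousOn_id fun x hx => (ne_of_gt hx)
  exact (hc.comp_continuousOn hd).norm.add (hc.comp_continuousOn hd.neg).norm

theorem meansq (F : 𝓢(ℝ, ℂ)) {A : ℝ} (hA : 0 < A) (M : ℕ) (hM : 1 ≤ M) :
    ∫ α in A..(2 * A), DL F M α ^ 2 ≤ 32 * A ^ 2 * (M * √M) * ∫ x, ‖F x‖ ^ 2 := by
  have hle : A ≤ 2 * A := by linarith
  have hF : Continuous (fun ξ => ‖𝓕 (F : ℝ → ℂ) ξ‖ ^ 2) := by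
    rw [← SchwartzMap.fourier_coe]
    exact ((𝓕 F).continuous.norm).pow 2
  have hFi : Integrable (fun ξ => ‖𝓕 (F : ℝ → ℂ) ξ‖ ^ 2) := by
    rw [← SchwartzMap.fourier_coe]
    exact ((𝓕 F).memLp 2 volume).integrable_norm_pow (by norm_num)
  have hpl : ∫ ξ, ‖𝓕 (F : ℝ → ℂ) ξ‖ ^ 2 = ∫ x, ‖F x‖ ^ 2 := by
    rw [← SchwartzMap.fourier_coe]
    exact SchwartzMap.integral_norm_sq_fourier F
  have hFn : Continuous (fun ξ => ‖𝓕 (F : ℝ → ℂ) (-ξ)‖ ^ 2) := hF.comp continuous_neg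
  have hFni : Integrable (fun ξ => ‖𝓕 (F : ℝ → ℂ) (-ξ)‖ ^ 2) := hFi.comp_neg
  have hpln : ∫ ξ, ‖𝓕 (F : ℝ → ℂ) (-ξ)‖ ^ 2 = ∫ x, ‖F x‖ ^ 2 := by
    rw [← hpl]
    exact integral_neg_eq_self (fun ξ => ‖𝓕 (F : ℝ → ℂ) ξ‖ ^ 2) volume
  have hcs : ∀ α : ℝ, DL F M α ^ 2 ≤ ∑ m ∈ Finset.range M, 2 * M *
      (‖𝓕 (F : ℝ → ℂ) (((m + 1 : ℕ) : ℝ) / α)‖ ^ 2 +
        ‖𝓕 (F : ℝ → ℂ) (-(((m + 1 : ℕ) : ℝ) / α))‖ ^ 2) := by
    intro α
    unfold DL
    have h2 := sq_sum_le_card_mul_sum_sq (s := Finset.range M)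
      (f := fun m : ℕ => ‖𝓕 (F : ℝ → ℂ) (((m + 1 : ℕ) : ℝ) / α)‖ +
        ‖𝓕 (F : ℝ → ℂ) (-(((m + 1 : ℕ) : ℝ) / α))‖)
    rw [Finset.card_range] at h2
    refine h2.trans ?_
    rw [Finset.mul_sum]
    refine Finset.sum_le_sum fun m _ => ?_
    have h3 : (‖𝓕 (F : ℝ → ℂ) (((m + 1 : ℕ) : ℝ) / α)‖ +
        ‖𝓕 (F : ℝ → ℂ) (-(((m + 1 : ℕ) : ℝ) / α))‖) ^ 2 ≤
        2 * (‖𝓕 (F : ℝ → ℂ) (((m + 1 : ℕ) : ℝ) / α)‖ ^ 2 +
        ‖𝓕 (F : ℝ → ℂ) (-(((m + 1 : ℕ) : ℝ) / α))‖ ^ 2) := by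
      nlinarith [sq_nonneg (‖𝓕 (F : ℝ → ℂ) (((m + 1 : ℕ) : ℝ) / α)‖ -
        ‖𝓕 (F : ℝ → ℂ) (-(((m + 1 : ℕ) : ℝ) / α))‖)]
    have hM0 : (0 : ℝ) ≤ M := by positivity
    nlinarith
  have hIoi : uIcc A (2 * A) ⊆ Ioi 0 := by
    rw [uIcc_of_le hle]
    exact fun x hx => lt_of_lt_of_le hA hx.1
  have hterm : ∀ (m : ℕ) (g : ℝ → ℝ), Continuous g →
      ContinuousOn (fun α : ℝ => g (((m + 1 : ℕ) : ℝ) / α)) (uIcc A (2 * A)) := by
    intro m g hg
    refine hg.comp_continuousOn (ContinuousOn.div continuousOn_const continuousOn_id fun x hx => ?_)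
    exact ne_of_gt (hIoi hx)
  have hi1 : ∀ m : ℕ, IntervalIntegrable (fun α : ℝ => 2 * (M : ℝ) *
      (‖𝓕 (F : ℝ → ℂ) (((m + 1 : ℕ) : ℝ) / α)‖ ^ 2 +
        ‖𝓕 (F : ℝ → ℂ) (-(((m + 1 : ℕ) : ℝ) / α))‖ ^ 2)) volume A (2 * A) := by
    intro m
    refine ContinuousOn.intervalIntegrable ?_
    exact continuousOn_const.mul ((hterm m _ hF).add (hterm m _ hFn))
  have h2 : ∫ α in A..(2 * A), DL F M α ^ 2 ≤ ∫ α in A..(2 * A), ∑ m ∈ Finset.range M, 2 * (M : ℝ) *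
      (‖𝓕 (F : ℝ → ℂ) (((m + 1 : ℕ) : ℝ) / α)‖ ^ 2 +
        ‖𝓕 (F : ℝ → ℂ) (-(((m + 1 : ℕ) : ℝ) / α))‖ ^ 2) := by
    refine intervalIntegral.integral_mono_on hle ?_ ?_ fun x _ => hcs x
    · exact (((DL_cont F M).mono hIoi).pow 2).intervalIntegrable
    · exact (continuousOn_finsetSum _ fun m _ =>
        continuousOn_const.mul ((hterm m _ hF).add (hterm m _ hFn))).intervalIntegrable
  refine h2.trans ?_
  rw [intervalIntegral.integral_finsetSum (fun m _ => hi1 m)]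
  have h3 : ∀ m ∈ Finset.range M, ∫ α in A..(2 * A), 2 * (M : ℝ) *
      (‖𝓕 (F : ℝ → ℂ) (((m + 1 : ℕ) : ℝ) / α)‖ ^ 2 +
        ‖𝓕 (F : ℝ → ℂ) (-(((m + 1 : ℕ) : ℝ) / α))‖ ^ 2) ≤
      (16 * A ^ 2 * M * ∫ x, ‖F x‖ ^ 2) * (1 / ((m : ℝ) + 1)) := by
    intro m _
    rw [intervalIntegral.integral_const_mul, intervalIntegral.integral_add
      (hterm m _ hF).intervalIntegrable (hterm m _ hFn).intervalIntegrable]
    have hm : (0 : ℝ) < ((m + 1 : ℕ) : ℝ) := by positivity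
    have h4 := sub_int _ hF (fun x => by positivity) hFi hA hm
    have h5 := sub_int _ hFn (fun x => by positivity) hFni hA hm
    rw [hpl] at h4
    rw [hpln] at h5
    have hM0 : (0 : ℝ) ≤ 2 * M := by positivity
    calc _ ≤ 2 * (M : ℝ) * (4 * A ^ 2 / ((m + 1 : ℕ) : ℝ) * (∫ x, ‖F x‖ ^ 2) +
          4 * A ^ 2 / ((m + 1 : ℕ) : ℝ) * ∫ x, ‖F x‖ ^ 2) :=
          mul_le_mul_of_nonneg_left (add_le_add h4 h5) hM0
      _ = _ := by
        push_cast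
        field_simp
        ring
  refine (Finset.sum_le_sum h3).trans ?_
  rw [← Finset.mul_sum]
  have hI : 0 ≤ ∫ x, ‖F x‖ ^ 2 := integral_nonneg fun x => by positivity
  calc (16 * A ^ 2 * M * ∫ x, ‖F x‖ ^ 2) * ∑ m ∈ Finset.range M, 1 / ((m : ℝ) + 1) ≤
        (16 * A ^ 2 * M * ∫ x, ‖F x‖ ^ 2) * (2 * √M) :=
        mul_le_mul_of_nonneg_left (harm M hM) (by positivity)
    _ = _ := by ring

/-- Chebyshev -/
theorem bad_measure (F : 𝓢(ℝ, ℂ)) {A : ℝ} (hA : 0 < A) (M : ℕ) (hM : 1 ≤ M) {t : ℝ} (ht : 0 < t) :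
    volume {α : ℝ | α ∈ Ioc A (2 * A) ∧ t ≤ DL F M α} ≤
      ENNReal.ofReal (32 * A ^ 2 * (M * √M) * (∫ x, ‖F x‖ ^ 2) / t ^ 2) := by
  have hle : A ≤ 2 * A := by linarith
  have hIoc : Ioc A (2 * A) ⊆ Ioi (0 : ℝ) := fun x hx => lt_trans hA hx.1
  have hIcc : Icc A (2 * A) ⊆ Ioi (0 : ℝ) := fun x hx => lt_of_lt_of_le hA hx.1
  have hint : IntegrableOn (fun α => DL F M α ^ 2) (Ioc A (2 * A)) := by
    have h := (((DL_cont F M).mono hIcc).pow 2).integrableOn_Icc (μ := volume)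
    exact h.mono_set Ioc_subset_Icc_self
  have h1 := mul_meas_ge_le_integral_of_nonneg (μ := volume.restrict (Ioc A (2 * A)))
    (f := fun α => DL F M α ^ 2) (Filter.Eventually.of_forall fun α => by positivity) hint (t ^ 2)
  have hms : MeasurableSet (Ioc A (2 * A)) := measurableSet_Ioc
  have h2 : {α : ℝ | α ∈ Ioc A (2 * A) ∧ t ≤ DL F M α} ⊆
      {α : ℝ | t ^ 2 ≤ DL F M α ^ 2} ∩ Ioc A (2 * A) := by
    rintro α ⟨h3, h4⟩
    exact ⟨by
      show t ^ 2 ≤ DL F M α ^ 2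
      gcongr, h3⟩
  have h3 : volume {α : ℝ | α ∈ Ioc A (2 * A) ∧ t ≤ DL F M α} ≤
      (volume.restrict (Ioc A (2 * A))) {α : ℝ | t ^ 2 ≤ DL F M α ^ 2} := by
    rw [Measure.restrict_apply' hms]
    exact measure_mono h2
  have hms2 := meansq F hA M hM
  rw [intervalIntegral.integral_of_le hle] at hms2
  have h4 := h1.trans hms2
  have ht2 : 0 < t ^ 2 := by positivity
  have hfin : (volume.restrict (Ioc A (2 * A))) {α : ℝ | t ^ 2 ≤ DL F M α ^ 2} ≠ ⊤ := by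
    refine ne_top_of_le_ne_top ?_ (measure_mono (subset_univ _))
    rw [Measure.restrict_apply_univ, Real.volume_Ioc]
    exact ENNReal.ofReal_ne_top
  refine h3.trans ?_
  rw [← ENNReal.ofReal_toReal hfin]
  refine ENNReal.ofReal_le_ofReal ?_
  rw [le_div_iff₀ ht2, mul_comm]
  exact h4

end

end Pool.Agent.K4H49.DM
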