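import Mathlib

set_option autoImplicit false

/-!
# The sixth moment of zeta on almost all vertical arithmetic progressions: definitions
-/

namespace Pool.Agent.K4H49.DM

open Complex

noncomputable section

/-- `ζ(1/2 + i z)³ ζ(1/2 - i z)³`; for real `z` this is `|ζ(1/2 + i z)|⁶` -/
def G (z : ℂ) : ℂ := riemannZeta (1 / 2 + I * z) ^ 3 * riemannZeta (1 / 2 - I * z) ^ 3

/-- `|ζ(1/2 + i x)|⁶` -/
def f (x : ℝ) : ℝ := ‖riemannZeta (1 / 2 + I * x)‖ ^ 6

end

end Pool.Agent.K4H49.DM
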