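import Mathlib
import Pool.Agent.K4H49.DM.Defs

set_option autoImplicit false

/-! The functions `φ(x/N) G(x)` as Schwartz functions. -/

namespace Pool.Agent.K4H49.DM

open Complex MeasureTheory
open scoped SchwartzMap ContDiff

noncomputable section

lemma re1 (z : ℂ) : (1 / 2 + I * z).re = 1 / 2 - z.im := by
  simp only [add_re, mul_re, I_re, I_im, zero_mul, one_mul, zero_sub]
  norm_num
  ring

lemma re2 (z : ℂ) : (1 / 2 - I * z).re = 1 / 2 + z.im := by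
  simp only [sub_re, mul_re, I_re, I_im, zero_mul, one_mul, zero_sub]
  norm_num

lemma G_diff' {z : ℂ} (hz : |z.im| < 1 / 2) : DifferentiableAt ℂ G z := by
  have h1 : (1 / 2 + I * z) ≠ 1 := by
    intro h
    have := congrArg Complex.re h
    rw [re1, one_re] at this
    have := (abs_lt.1 hz).1
    linarith
  have h2 : (1 / 2 - I * z) ≠ 1 := by
    intro h
    have := congrArg Complex.re h
    rw [re2, one_re] at this
    have := (abs_lt.1 hz).2
    linarith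
  unfold G
  have d1 : DifferentiableAt ℂ (fun z : ℂ => riemannZeta (1 / 2 + I * z)) z :=
    (differentiableAt_riemannZeta h1).comp z (by fun_prop)
  have d2 : DifferentiableAt ℂ (fun z : ℂ => riemannZeta (1 / 2 - I * z)) z :=
    (differentiableAt_riemannZeta h2).comp z (by fun_prop)
  exact (d1.pow 3).mul (d2.pow 3)

lemma isOpen_strip : IsOpen {z : ℂ | |z.im| < 1 / 2} :=
  isOpen_lt (by fun_prop) continuous_const

lemma G_contDiff : ContDiff ℝ ∞ (fun x : ℝ => G (x : ℂ)) := by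
  have h1 : DifferentiableOn ℂ G {z : ℂ | |z.im| < 1 / 2} := fun z hz =>
    (G_diff' hz).differentiableWithinAt
  have h2 : ContDiffOn ℂ ∞ G {z : ℂ | |z.im| < 1 / 2} := h1.contDiffOn isOpen_strip
  have h3 : ContDiffOn ℝ ∞ G {z : ℂ | |z.im| < 1 / 2} := h2.restrict_scalars ℝ
  have h4 : ContDiffOn ℝ ∞ (G ∘ (fun x : ℝ => (x : ℂ))) Set.univ := by
    refine h3.comp (Complex.ofRealCLM.contDiff.contDiffOn) ?_
    intro x _
    simp
  rw [contDiffOn_univ] at h4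
  exact h4

/-- the value of `G` on the real line -/
lemma G_real (x : ℝ) : G (x : ℂ) = ((f x : ℝ) : ℂ) := by
  have h : (1 / 2 - I * (x : ℂ)) = (starRingEnd ℂ) (1 / 2 + I * (x : ℂ)) := by
    simp only [map_add, map_mul, conj_I, conj_ofReal, map_div₀, map_one, map_ofNat]
    ring
  have hc : riemannZeta ((starRingEnd ℂ) (1 / 2 + I * (x : ℂ))) =
      (starRingEnd ℂ) (riemannZeta (1 / 2 + I * (x : ℂ))) := by
    exact riemannZeta_conj _
  unfold G f
  rw [h, hc, ← mul_pow, mul_conj, normSq_eq_norm_sq]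
  push_cast
  ring

lemma f_cont : Continuous f := by
  have h : Continuous (fun x : ℝ => G (x : ℂ)) := G_contDiff.continuous
  have h2 : f = fun x : ℝ => (G (x : ℂ)).re := by
    funext x
    rw [G_real, ofReal_re]
  rw [h2]
  exact Complex.continuous_re.comp h

lemma f_nonneg (x : ℝ) : 0 ≤ f x := by unfold f; positivity

/-- admissible weights -/
structure Wgt (φ : ℝ → ℝ) (a b : ℝ) : Prop where
  a_pos : 0 < a
  smooth : ContDiff ℝ ∞ φ
  supp : ∀ x, φ x ≠ 0 → a ≤ x ∧ x ≤ b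
  nonneg : ∀ x, 0 ≤ φ x
  le_one : ∀ x, φ x ≤ 1

/-- `φ(x/N) G(x)` -/
def FN (φ : ℝ → ℝ) (N : ℝ) (x : ℝ) : ℂ := ((φ (x / N) : ℝ) : ℂ) * G (x : ℂ)

lemma FN_eq (φ : ℝ → ℝ) (N x : ℝ) : FN φ N x = ((φ (x / N) * f x : ℝ) : ℂ) := by
  unfold FN
  rw [G_real]
  push_cast
  rfl

lemma FN_supp {φ : ℝ → ℝ} {a b : ℝ} (hφ : Wgt φ a b) {N : ℝ} (hN : 0 < N) {x : ℝ} (hx : FN φ N x ≠ 0) :
    a * N ≤ x ∧ x ≤ b * N := by
  have h1 : φ (x / N) ≠ 0 := by
    intro h
    apply hx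
    unfold FN
    rw [h]
    simp
  have := hφ.supp _ h1
  rw [le_div_iff₀ hN, div_le_iff₀ hN] at this
  exact this

lemma FN_hcs {φ : ℝ → ℝ} {a b : ℝ} (hφ : Wgt φ a b) {N : ℝ} (hN : 0 < N) : HasCompactSupport (FN φ N) := by
  apply HasCompactSupport.intro (isCompact_Icc (a := a * N) (b := b * N))
  intro x hx
  by_contra h
  exact hx (FN_supp hφ hN h)

lemma FN_contDiff {φ : ℝ → ℝ} {a b : ℝ} (hφ : Wgt φ a b) (N : ℝ) : ContDiff ℝ ∞ (FN φ N) := by
  unfold FN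
  have h1 : ContDiff ℝ ∞ (fun x : ℝ => ((φ (x / N) : ℝ) : ℂ)) := by
    have h2 : ContDiff ℝ ∞ (fun x : ℝ => φ (x / N)) := hφ.smooth.comp (by fun_prop)
    exact Complex.ofRealCLM.contDiff.comp h2
  exact h1.mul G_contDiff

/-- the Schwartz function -/
def FS {φ : ℝ → ℝ} {a b : ℝ} (hφ : Wgt φ a b) {N : ℝ} (hN : 0 < N) : 𝓢(ℝ, ℂ) :=
  (FN_hcs hφ hN).toSchwartzMap (FN_contDiff hφ N)

lemma FS_coe {φ : ℝ → ℝ} {a b : ℝ} (hφ : Wgt φ a b) {N : ℝ} (hN : 0 < N) :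
    ((FS hφ hN : 𝓢(ℝ, ℂ)) : ℝ → ℂ) = FN φ N := rfl

end

end Pool.Agent.K4H49.DM
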