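import Mathlib
import Pool.Agent.K4H49.DM.Sch
import Pool.Agent.K4H49.DM.Ms

set_option autoImplicit false

/-! The measure of the exceptional dilations. -/

namespace Pool.Agent.K4H49.DM

open MeasureTheory Real Set Filter Topology
open scoped SchwartzMap FourierTransform

noncomputable section

/-- Weyl's bound -/
def WeylB : Prop := ∃ C : ℝ, 0 < C ∧ ∀ x : ℝ, 2 ≤ x → f x ≤ C * (x * Real.log x ^ 6)

/-- the local lower bound -/
def LowB : Prop := ∀ δ : ℝ, 0 < δ → ∃ c : ℝ, 0 < c ∧ ∀ᶠ T : ℝ in atTop,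
  c * (T * Real.log T ^ 9) ≤ ∫ t in T..((1 + δ) * T), f t

/-- decay of the Fourier transform -/
def DecB (φ : ℝ → ℝ) : Prop := ∃ C : ℝ, 0 < C ∧ ∀ N : ℝ, 1 ≤ N → ∀ ξ : ℝ, 1 ≤ |ξ| →
  ‖𝓕 (FN φ N) ξ‖ ≤ C * (N ^ 7 * Real.exp (-(Real.pi / 4 * |ξ|)) + (ξ ^ 2)⁻¹)

/-- the smoothed moment -/
def J (φ : ℝ → ℝ) (N : ℝ) : ℝ := ∫ x : ℝ, φ (x / N) * f x

lemma cont_w {φ : ℝ → ℝ} {a b : ℝ} (hφ : Wgt φ a b) (N : ℝ) :
    Continuous (fun x : ℝ => φ (x / N) * f x) := by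
  have : Continuous (fun x : ℝ => φ (x / N)) := hφ.smooth.continuous.comp (by fun_prop)
  exact this.mul f_cont

lemma supp_w {φ : ℝ → ℝ} {a b : ℝ} (hφ : Wgt φ a b) {N : ℝ} (hN : 0 < N) {x : ℝ}
    (hx : φ (x / N) ≠ 0) : a * N ≤ x ∧ x ≤ b * N := by
  have := hφ.supp _ hx
  rw [le_div_iff₀ hN, div_le_iff₀ hN] at this
  exact this

lemma int_w {φ : ℝ → ℝ} {a b : ℝ} (hφ : Wgt φ a b) {N : ℝ} (hN : 0 < N) :
    Integrable (fun x : ℝ => φ (x / N) * f x) := by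
  refine (cont_w hφ N).integrable_of_hasCompactSupport ?_
  apply HasCompactSupport.intro (isCompact_Icc (a := a * N) (b := b * N))
  intro x hx
  by_contra h
  exact hx (supp_w hφ hN (left_ne_zero_of_mul h))

lemma J_low (hL : LowB) {φ : ℝ → ℝ} {a b : ℝ} (hφ : Wgt φ a b) (h1 : 0 < φ 1) :
    ∃ c : ℝ, 0 < c ∧ ∀ᶠ N : ℝ in atTop, c * (N * Real.log N ^ 9) ≤ J φ N := by
  have hc : ∀ᶠ u in 𝓝 (1 : ℝ), φ 1 / 2 < φ u :=
    hφ.smooth.continuous.continuousAt.eventually_const_lt (by linarith)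
  obtain ⟨δ, hδ, hδ2⟩ := Metric.eventually_nhds_iff.1 hc
  obtain ⟨c, hc0, hc1⟩ := hL (δ / 2) (by positivity)
  refine ⟨φ 1 / 2 * c, by positivity, ?_⟩
  filter_upwards [hc1, eventually_gt_atTop 0] with N hN hN0
  have hle : N ≤ (1 + δ / 2) * N := by nlinarith
  have h2 : φ 1 / 2 * ∫ t in N..((1 + δ / 2) * N), f t ≤
      ∫ t in N..((1 + δ / 2) * N), φ (t / N) * f t := by
    rw [← intervalIntegral.integral_const_mul]
    refine intervalIntegral.integral_mono_on hle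
      ((continuous_const.mul f_cont).intervalIntegrable _ _)
      ((cont_w hφ N).intervalIntegrable _ _) fun x hx => ?_
    refine mul_le_mul_of_nonneg_right (hδ2 ?_).le (f_nonneg x)
    rw [Real.dist_eq, abs_lt]
    have h3 : 1 ≤ x / N := by rw [le_div_iff₀ hN0]; linarith [hx.1]
    have h4 : x / N ≤ 1 + δ / 2 := by rw [div_le_iff₀ hN0]; exact hx.2
    constructor <;> linarith
  have h3 : ∫ t in N..((1 + δ / 2) * N), φ (t / N) * f t ≤ J φ N := by
    rw [intervalIntegral.integral_of_le hle]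
    exact setIntegral_le_integral (int_w hφ hN0)
      (Eventually.of_forall fun x => mul_nonneg (hφ.nonneg _) (f_nonneg x))
  calc φ 1 / 2 * c * (N * Real.log N ^ 9) = φ 1 / 2 * (c * (N * Real.log N ^ 9)) := by ring
    _ ≤ φ 1 / 2 * ∫ t in N..((1 + δ / 2) * N), f t := by gcongr
    _ ≤ _ := h2.trans h3

lemma J_eq {φ : ℝ → ℝ} {a b : ℝ} (hφ : Wgt φ a b) {N : ℝ} (hN : 0 < N) :
    ∫ x, (FS hφ hN : 𝓢(ℝ, ℂ)) x = ((J φ N : ℝ) : ℂ) := by
  rw [FS_coe]
  unfold J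
  simp only [FN_eq]
  exact integral_ofReal

lemma L2_up (hW : WeylB) {φ : ℝ → ℝ} {a b : ℝ} (hφ : Wgt φ a b) (hb : 0 < b) :
    ∃ C : ℝ, 0 < C ∧ ∀ᶠ N : ℝ in atTop,
      ∫ x, ‖FN φ N x‖ ^ 2 ≤ C * (N * Real.log N ^ 6) * J φ N := by
  obtain ⟨C, hC, hf⟩ := hW
  have ha := hφ.a_pos
  refine ⟨C * b * 2 ^ 6, by positivity, ?_⟩
  filter_upwards [eventually_ge_atTop (2 / a), eventually_ge_atTop b, eventually_gt_atTop 1]
    with N h1 h2 h3
  have hN0 : 0 < N := by linarith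
  have hmul : C * b * 2 ^ 6 * (N * Real.log N ^ 6) * J φ N =
      ∫ x, (C * b * 2 ^ 6 * (N * Real.log N ^ 6)) * (φ (x / N) * f x) := by
    rw [integral_const_mul]
    rfl
  rw [hmul]
  have hsq : (fun x => ‖FN φ N x‖ ^ 2) = fun x => (φ (x / N) * f x) ^ 2 := by
    funext x
    rw [FN_eq, Complex.norm_real, Real.norm_eq_abs, sq_abs]
  have hint2 : Integrable (fun x => (φ (x / N) * f x) ^ 2) := by
    refine ((cont_w hφ N).pow 2).integrable_of_hasCompactSupport ?_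
    apply HasCompactSupport.intro (isCompact_Icc (a := a * N) (b := b * N))
    intro x hx
    by_contra h
    exact hx (supp_w hφ hN0 (left_ne_zero_of_mul ((pow_ne_zero_iff two_ne_zero).1 h)))
  rw [hsq]
  refine integral_mono hint2 ((int_w hφ hN0).const_mul _) fun x => ?_
  show (φ (x / N) * f x) ^ 2 ≤ C * b * 2 ^ 6 * (N * Real.log N ^ 6) * (φ (x / N) * f x)
  have hφ0 := hφ.nonneg (x / N)
  have hφ1 := hφ.le_one (x / N)
  have hf0 := f_nonneg x
  rcases eq_or_ne (φ (x / N)) 0 with h0 | h0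
  · rw [h0]; simp
  · obtain ⟨h4, h5⟩ := supp_w hφ hN0 h0
    have hx2 : 2 ≤ x := by
      have : 2 ≤ a * N := by rwa [div_le_iff₀' ha] at h1
      linarith
    have hlog : Real.log x ≤ 2 * Real.log N := by
      have h6 : x ≤ N ^ 2 := by nlinarith
      calc Real.log x ≤ Real.log (N ^ 2) := Real.log_le_log (by linarith) h6
        _ = 2 * Real.log N := by rw [Real.log_pow]; norm_num
    have hlx : 0 ≤ Real.log x := Real.log_nonneg (by linarith)
    have h7 : f x ≤ C * b * 2 ^ 6 * (N * Real.log N ^ 6) := by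
      calc f x ≤ C * (x * Real.log x ^ 6) := hf x hx2
        _ ≤ C * ((b * N) * (2 * Real.log N) ^ 6) := by gcongr
        _ = _ := by ring
    calc (φ (x / N) * f x) ^ 2 = (φ (x / N) * f x) * (φ (x / N) * f x) := by ring
      _ ≤ (1 * (C * b * 2 ^ 6 * (N * Real.log N ^ 6))) * (φ (x / N) * f x) := by gcongr
      _ = _ := by ring

/-- the length of the range of the frequencies -/
def MM (A N : ℝ) : ℕ := ⌈24 * A * Real.log N⌉₊ + 1

lemma tail_bd {φ : ℝ → ℝ} {a b : ℝ} (hφ : Wgt φ a b) (hD : DecB φ) {A : ℝ} (hA : 0 < A) :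
    ∃ C : ℝ, 0 < C ∧ ∀ N : ℝ, (hN : 2 ≤ N) → ∀ α ∈ Ioc A (2 * A),
      DD (FN φ N) α ≤ DL (FN φ N) (MM A N) α + C := by
  obtain ⟨C, hC, hd⟩ := hD
  set κ : ℝ := Real.pi / (8 * A) with hκ
  have hκ0 : 0 < κ := by have := Real.pi_pos; positivity
  have hs1 : Summable (fun k : ℕ => Real.exp (-(κ * ((k : ℝ) + 1)))) := by
    have h := (Real.summable_exp_nat_mul_iff (a := -κ)).2 (by linarith)
    refine (h.mul_right (Real.exp (-κ))).congr fun k => ?_
    rw [← Real.exp_add]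
    congr 1
    ring
  have hs2 : Summable (fun k : ℕ => 4 * A ^ 2 * (1 / ((k : ℝ) + 1) ^ 2)) := by
    have h := (summable_nat_add_iff 1).2 (Real.summable_one_div_nat_pow.2 one_lt_two)
    refine (h.mul_left (4 * A ^ 2)).congr fun k => ?_
    push_cast
    rfl
  have hs3 : Summable (fun k : ℕ => 2 * C * (Real.exp (-(κ * ((k : ℝ) + 1))) +
      4 * A ^ 2 * (1 / ((k : ℝ) + 1) ^ 2))) := (hs1.add hs2).mul_left _
  refine ⟨1 + ∑' k : ℕ, 2 * C * (Real.exp (-(κ * ((k : ℝ) + 1))) +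
      4 * A ^ 2 * (1 / ((k : ℝ) + 1) ^ 2)), ?_, ?_⟩
  · have : 0 ≤ ∑' k : ℕ, 2 * C * (Real.exp (-(κ * ((k : ℝ) + 1))) +
      4 * A ^ 2 * (1 / ((k : ℝ) + 1) ^ 2)) := tsum_nonneg fun k => by positivity
    linarith
  intro N hN α hα
  have hN0 : 0 < N := by linarith
  have hα0 : 0 < α := lt_trans hA hα.1
  have hsum := summable_DD' (FS hφ hN0) hα0
  rw [FS_coe] at hsum
  set M := MM A N with hM
  have hlog : 0.69 < Real.log N := by
    have := Real.log_two_gt_d9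
    have h2 : Real.log 2 ≤ Real.log N := Real.log_le_log (by norm_num) hN
    linarith
  have hMlog : 24 * A * Real.log N ≤ M := by
    rw [hM]
    unfold MM
    push_cast
    have := Nat.le_ceil (24 * A * Real.log N)
    linarith
  have hsplit := hsum.sum_add_tsum_nat_add M
  unfold DD
  rw [← hsplit]
  unfold DL
  refine add_le_add le_rfl ?_
  have hsum2 := (summable_nat_add_iff M).2 hsum
  have hb : ∀ k : ℕ, (‖𝓕 (FN φ N) (((k + M + 1 : ℕ) : ℝ) / α)‖ +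
      ‖𝓕 (FN φ N) (-(((k + M + 1 : ℕ) : ℝ) / α))‖) ≤ 2 * C * (Real.exp (-(κ * ((k : ℝ) + 1))) +
      4 * A ^ 2 * (1 / ((k : ℝ) + 1) ^ 2)) := by
    intro k
    set ξ : ℝ := ((k + M + 1 : ℕ) : ℝ) / α with hξ
    have hk0 : (0 : ℝ) ≤ k := by positivity
    have hcast : ((k + M + 1 : ℕ) : ℝ) = k + M + 1 := by push_cast; ring
    have hξ1 : ((k : ℝ) + M + 1) / (2 * A) ≤ ξ := by
      rw [hξ, hcast]
      exact div_le_div_of_nonneg_left (by positivity) hα0 hα.2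
    have hξ2 : 12 * Real.log N + (k + 1) / (2 * A) ≤ ((k : ℝ) + M + 1) / (2 * A) := by
      rw [le_div_iff₀ (by positivity), add_mul, div_mul_cancel₀ _ (by positivity)]
      nlinarith
    have hξ3 : 12 * Real.log N + (k + 1) / (2 * A) ≤ ξ := hξ2.trans hξ1
    have hpos : 0 < ((k : ℝ) + 1) / (2 * A) := by positivity
    have hξ4 : 1 ≤ ξ := by linarith
    have habs : |ξ| = ξ := abs_of_pos (by linarith)
    have hbd : N ^ 7 * Real.exp (-(Real.pi / 4 * |ξ|)) + (ξ ^ 2)⁻¹ ≤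
        Real.exp (-(κ * ((k : ℝ) + 1))) + 4 * A ^ 2 * (1 / ((k : ℝ) + 1) ^ 2) := by
      refine add_le_add ?_ ?_
      · rw [habs]
        have e1 : N ^ 7 = Real.exp (7 * Real.log N) := by
          rw [show (7 : ℝ) * Real.log N = ((7 : ℕ) : ℝ) * Real.log N by norm_num,
            Real.exp_nat_mul, Real.exp_log hN0]
        rw [e1, ← Real.exp_add]
        refine Real.exp_le_exp.2 ?_
        have hpi := Real.pi_gt_three
        have h5 : Real.pi / 4 * (12 * Real.log N + (k + 1) / (2 * A)) ≤ Real.pi / 4 * ξ :=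
          mul_le_mul_of_nonneg_left hξ3 (by positivity)
        have h6 : κ * ((k : ℝ) + 1) = Real.pi / 4 * ((k + 1) / (2 * A)) := by
          rw [hκ]; field_simp; ring
        rw [h6]
        nlinarith
      · have h7 : ((k : ℝ) + 1) / (2 * A) ≤ ξ := by linarith
        have h8 : (((k : ℝ) + 1) / (2 * A)) ^ 2 ≤ ξ ^ 2 := by gcongr
        calc (ξ ^ 2)⁻¹ ≤ ((((k : ℝ) + 1) / (2 * A)) ^ 2)⁻¹ := by gcongr
          _ = _ := by field_simp; ring
    have h1 := hd N (by linarith) ξ (by rw [habs]; exact hξ4)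
    have h2 := hd N (by linarith) (-ξ) (by rw [abs_neg, habs]; exact hξ4)
    rw [abs_neg, neg_sq] at h2
    have h3 := mul_le_mul_of_nonneg_left hbd hC.le
    linarith
  have h3 : ∑' k : ℕ, (‖𝓕 (FN φ N) (((k + M + 1 : ℕ) : ℝ) / α)‖ +
      ‖𝓕 (FN φ N) (-(((k + M + 1 : ℕ) : ℝ) / α))‖) ≤ ∑' k : ℕ, 2 * C * (Real.exp (-(κ * ((k : ℝ) + 1))) +
      4 * A ^ 2 * (1 / ((k : ℝ) + 1) ^ 2)) := hsum2.tsum_le_tsum hb hs3
  linarith

theorem bad_bound (hW : WeylB) (hL : LowB) {φ : ℝ → ℝ} {a b : ℝ} (hφ : Wgt φ a b) (hD : DecB φ)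
    (h1 : 0 < φ 1) {A ε : ℝ} (hA : 0 < A) (hε : 0 < ε) :
    ∃ C : ℝ, 0 < C ∧ ∀ᶠ N : ℝ in atTop,
      volume {α : ℝ | α ∈ Ioc A (2 * A) ∧ ε * J φ N < DD (FN φ N) α} ≤
        ENNReal.ofReal (C * (√(Real.log N) / Real.log N ^ 2)) := by
  have hb : 0 < b := by
    have := hφ.supp 1 h1.ne'
    linarith [hφ.a_pos]
  obtain ⟨c, hc, hJ⟩ := J_low hL hφ h1
  obtain ⟨C1, hC1, hL2⟩ := L2_up hW hφ hb
  obtain ⟨C2, hC2, htail⟩ := tail_bd hφ hD hA
  set K : ℝ := 24 * A + 2 with hK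
  have hK0 : 0 < K := by positivity
  refine ⟨128 * A ^ 2 * (K * √K) * C1 / (ε ^ 2 * c), by positivity, ?_⟩
  have hbig : ∀ᶠ N : ℝ in atTop, C2 ≤ ε / 2 * (c * (N * Real.log N ^ 9)) := by
    have h2 : Tendsto (fun N : ℝ => ε / 2 * (c * (N * Real.log N ^ 9))) atTop atTop := by
      refine Tendsto.const_mul_atTop (by positivity) (Tendsto.const_mul_atTop hc ?_)
      exact tendsto_id.atTop_mul_atTop₀ ((tendsto_pow_atTop (by norm_num)).comp
        Real.tendsto_log_atTop)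
    exact h2.eventually_ge_atTop C2
  filter_upwards [hJ, hL2, hbig, eventually_ge_atTop 2, Real.tendsto_log_atTop.eventually_ge_atTop 1]
    with N hJN hL2N hbN hN2 hlog1
  have hN0 : 0 < N := by linarith
  set L := Real.log N with hLdef
  have hL0 : 0 < L := by linarith
  have hJ0 : 0 < J φ N := lt_of_lt_of_le (by positivity) hJN
  set F := FS hφ hN0 with hF
  have hFc : (F : ℝ → ℂ) = FN φ N := FS_coe hφ hN0
  have hsub : {α : ℝ | α ∈ Ioc A (2 * A) ∧ ε * J φ N < DD (FN φ N) α} ⊆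
      {α : ℝ | α ∈ Ioc A (2 * A) ∧ ε / 2 * J φ N ≤ DL F (MM A N) α} := by
    rintro α ⟨hα, hα2⟩
    refine ⟨hα, ?_⟩
    rw [hFc]
    have h3 := htail N hN2 α hα
    have h4 : C2 ≤ ε / 2 * J φ N := hbN.trans (mul_le_mul_of_nonneg_left hJN (by positivity))
    linarith
  have hM1 : 1 ≤ MM A N := by unfold MM; omega
  have hbm := bad_measure F hA (MM A N) hM1 (t := ε / 2 * J φ N) (by positivity)
  refine (measure_mono hsub).trans (hbm.trans (ENNReal.ofReal_le_ofReal ?_))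
  have hMle : (MM A N : ℝ) ≤ K * L := by
    unfold MM
    push_cast
    have h5 := (Nat.ceil_lt_add_one (show 0 ≤ 24 * A * Real.log N by positivity)).le
    rw [hK]
    nlinarith
  have hMs : (MM A N : ℝ) * √(MM A N) ≤ (K * √K) * (L * √L) := by
    calc (MM A N : ℝ) * √(MM A N) ≤ (K * L) * √(K * L) := by gcongr
      _ = _ := by rw [Real.sqrt_mul hK0.le]; ring
  have hL2N' : ∫ x, ‖F x‖ ^ 2 ≤ C1 * (N * L ^ 6) * J φ N := by
    rw [hFc]
    exact hL2N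
  have hI0 : 0 ≤ ∫ x, ‖F x‖ ^ 2 := integral_nonneg fun x => by positivity
  calc 32 * A ^ 2 * ((MM A N : ℝ) * √(MM A N)) * (∫ x, ‖F x‖ ^ 2) / (ε / 2 * J φ N) ^ 2 ≤
        32 * A ^ 2 * ((K * √K) * (L * √L)) * (C1 * (N * L ^ 6) * J φ N) / (ε / 2 * J φ N) ^ 2 := by
        gcongr
    _ = 128 * A ^ 2 * (K * √K) * C1 / ε ^ 2 * (√L * (N * L ^ 7) / J φ N) := by
        field_simp
        ring
    _ ≤ 128 * A ^ 2 * (K * √K) * C1 / ε ^ 2 * (√L * (N * L ^ 7) / (c * (N * L ^ 9))) := by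
        gcongr
    _ = _ := by
        field_simp

end

end Pool.Agent.K4H49.DM
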