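import Mathlib
import Pool.Agent.K4H49.DM.Bad

set_option autoImplicit false

/-! Borel-Cantelli along powers. -/

namespace Pool.Agent.K4H49.DM

open MeasureTheory Real Set Filter Topology
open scoped SchwartzMap FourierTransform

noncomputable section

lemma sqrt_div_sq (i : ℕ) : √(i : ℝ) / (i : ℝ) ^ 2 = 1 / (i : ℝ) ^ (3 / 2 : ℝ) := by
  rcases Nat.eq_zero_or_pos i with rfl | hi
  · simp
  · have hi0 : (0 : ℝ) < i := by exact_mod_cast hi
    have h2 : (i : ℝ) ^ 2 = (i : ℝ) ^ (2 : ℝ) := by norm_num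
    rw [Real.sqrt_eq_rpow, h2, ← Real.rpow_sub hi0, one_div ((i : ℝ) ^ (3 / 2 : ℝ)),
      ← Real.rpow_neg hi0.le]
    norm_num

theorem bc (hW : WeylB) (hL : LowB) {φ : ℝ → ℝ} {a b : ℝ} (hφ : Wgt φ a b) (hD : DecB φ)
    (h1 : 0 < φ 1) {A ε r : ℝ} (hA : 0 < A) (hε : 0 < ε) (hr : 1 < r) :
    volume {α : ℝ | α ∈ Ioc A (2 * A) ∧
      ∃ᶠ i : ℕ in atTop, ε * J φ (r ^ i) < DD (FN φ (r ^ i)) α} = 0 := by
  obtain ⟨C, hC, hb⟩ := bad_bound hW hL hφ hD h1 hA hε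
  have hpow : Tendsto (fun i : ℕ => r ^ i) atTop atTop := tendsto_pow_atTop_atTop_of_one_lt hr
  obtain ⟨i0, hi0⟩ := eventually_atTop.1 (hpow.eventually hb)
  have hlr : 0 < Real.log r := Real.log_pos hr
  set p : ℕ → ℝ → Prop := fun i α => i0 ≤ i ∧ α ∈ Ioc A (2 * A) ∧
    ε * J φ (r ^ i) < DD (FN φ (r ^ i)) α with hp
  have hbd : ∀ i : ℕ, volume {α | p i α} ≤ ENNReal.ofReal
      (C * (√(Real.log r) / Real.log r ^ 2) * (√(i : ℝ) / (i : ℝ) ^ 2)) := by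
    intro i
    by_cases hi : i0 ≤ i
    · have h2 : {α | p i α} ⊆ {α : ℝ | α ∈ Ioc A (2 * A) ∧
          ε * J φ (r ^ i) < DD (FN φ (r ^ i)) α} := fun α hα => hα.2
      refine (measure_mono h2).trans ((hi0 i hi).trans (ENNReal.ofReal_le_ofReal (le_of_eq ?_)))
      rw [Real.log_pow, Real.sqrt_mul (by positivity)]
      ring
    · have h2 : {α | p i α} = ∅ := by
        ext α
        simp only [hp, mem_ofPred_eq, mem_empty_iff_false, iff_false, not_and]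
        intro h
        exact absurd h hi
      rw [h2, measure_empty]
      positivity
  have hsum : Summable (fun i : ℕ => C * (√(Real.log r) / Real.log r ^ 2) *
      (√(i : ℝ) / (i : ℝ) ^ 2)) := by
    refine Summable.mul_left _ ?_
    simp only [sqrt_div_sq]
    exact Real.summable_one_div_nat_rpow.2 (by norm_num)
  have hfin : ∑' i : ℕ, volume {α | p i α} ≠ ⊤ := by
    refine ne_top_of_le_ne_top hsum.tsum_ofReal_ne_top ?_
    exact ENNReal.tsum_le_tsum hbd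
  have h0 := measure_setOfPred_frequently_eq_zero hfin
  refine measure_mono_null ?_ h0
  rintro α ⟨h2, h3⟩
  exact (h3.and_eventually (eventually_ge_atTop i0)).mono fun i hi => ⟨hi.2, h2, hi.1⟩

/-- all dilations -/
theorem bc_all (hW : WeylB) (hL : LowB) {φ : ℝ → ℝ} {a b : ℝ} (hφ : Wgt φ a b) (hD : DecB φ)
    (h1 : 0 < φ 1) {r : ℝ} (hr : 1 < r) :
    volume {α : ℝ | 0 < α ∧ ∃ k : ℕ,
      ∃ᶠ i : ℕ in atTop, 1 / ((k : ℝ) + 1) * J φ (r ^ i) < DD (FN φ (r ^ i)) α} = 0 := by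
  have h2 : {α : ℝ | 0 < α ∧ ∃ k : ℕ,
      ∃ᶠ i : ℕ in atTop, 1 / ((k : ℝ) + 1) * J φ (r ^ i) < DD (FN φ (r ^ i)) α} ⊆
      ⋃ k : ℕ, ⋃ j : ℤ, {α : ℝ | α ∈ Ioc ((2 : ℝ) ^ j) (2 * (2 : ℝ) ^ j) ∧
      ∃ᶠ i : ℕ in atTop, 1 / ((k : ℝ) + 1) * J φ (r ^ i) < DD (FN φ (r ^ i)) α} := by
    rintro α ⟨hα, k, hk⟩
    obtain ⟨j, hj⟩ := exists_mem_Ioc_zpow hα one_lt_two
    refine mem_iUnion.2 ⟨k, mem_iUnion.2 ⟨j, ?_, hk⟩⟩
    rw [zpow_add_one₀ (by norm_num)] at hj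
    rwa [mul_comm 2]
  refine measure_mono_null h2 ?_
  rw [measure_iUnion_null_iff]
  intro k
  rw [measure_iUnion_null_iff]
  intro j
  exact bc hW hL hφ hD h1 (by positivity) (by positivity) hr

end

end Pool.Agent.K4H49.DM
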