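import Mathlib

set_option autoImplicit false

/-! The equivalence of the continuous and the discrete asymptotic formulas. -/

namespace Pool.Agent.K4H49.DM

open MeasureTheory Real Set Filter Topology

noncomputable section

/-- the normalisation -/
def V (T : ℝ) : ℝ := T * Real.log T ^ 9

lemma V_ratio {ι : Type*} {l : Filter ι} {x y : ι → ℝ} {κ : ℝ} (hκ : 0 < κ) (hx : Tendsto x l atTop)
    (hy : Tendsto (fun i => y i / x i) l (𝓝 κ)) :
    Tendsto (fun i => V (y i) / V (x i)) l (𝓝 κ) := by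
  have hlx : Tendsto (fun i => Real.log (x i)) l atTop := Real.tendsto_log_atTop.comp hx
  have h1 : Tendsto (fun i => Real.log (y i / x i) / Real.log (x i)) l (𝓝 0) :=
    (hy.log hκ.ne').div_atTop hlx
  have h2 : Tendsto (fun i => (y i / x i) * (1 + Real.log (y i / x i) / Real.log (x i)) ^ 9) l
      (𝓝 (κ * (1 + 0) ^ 9)) := hy.mul ((h1.const_add 1).pow 9)
  rw [add_zero, one_pow, mul_one] at h2
  refine h2.congr' ?_
  filter_upwards [hx.eventually_gt_atTop 1, hy.eventually (lt_mem_nhds hκ)] with i hi hi2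
  have hx0 : 0 < x i := by linarith
  have hy0 : 0 < y i := by
    by_contra h
    push Not at h
    have := div_nonpos_of_nonpos_of_nonneg h hx0.le
    linarith
  have hl : 0 < Real.log (x i) := Real.log_pos hi
  unfold V
  rw [Real.log_div hy0.ne' hx0.ne']
  field_simp
  ring

lemma squeeze_eps {ι : Type*} {l : Filter ι} {h : ι → ℝ} {c : ℝ} {U L : ℝ → ℝ}
    (hU : Tendsto U (𝓝[>] 0) (𝓝 c)) (hL : Tendsto L (𝓝[>] 0) (𝓝 c))
    (hup : ∀ ε : ℝ, 0 < ε → ε < 1 → ∃ u : ι → ℝ, Tendsto u l (𝓝 (U ε)) ∧ ∀ᶠ i in l, h i ≤ u i)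
    (hlo : ∀ ε : ℝ, 0 < ε → ε < 1 → ∃ u : ι → ℝ, Tendsto u l (𝓝 (L ε)) ∧ ∀ᶠ i in l, u i ≤ h i) :
    Tendsto h l (𝓝 c) := by
  have h01 : ∀ᶠ ε : ℝ in 𝓝[>] 0, 0 < ε ∧ ε < 1 := by
    filter_upwards [self_mem_nhdsWithin, mem_nhdsWithin_of_mem_nhds (Iio_mem_nhds one_pos)] with ε h1 h2
    exact ⟨h1, h2⟩
  refine tendsto_order.2 ⟨fun a ha => ?_, fun b hb => ?_⟩
  · obtain ⟨ε, h1, h2, h3⟩ := ((hL.eventually (lt_mem_nhds ha)).and h01).exists
    obtain ⟨u, hu1, hu2⟩ := hlo ε h2 h3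
    filter_upwards [hu1.eventually (lt_mem_nhds h1), hu2] with i h4 h5
    linarith
  · obtain ⟨ε, h1, h2, h3⟩ := ((hU.eventually (gt_mem_nhds hb)).and h01).exists
    obtain ⟨u, hu1, hu2⟩ := hup ε h2 h3
    filter_upwards [hu1.eventually (gt_mem_nhds h1), hu2] with i h4 h5
    linarith

theorem equiv_of_sandwich (Mo : ℝ → ℝ) (hm : ∀ S T : ℝ, S ≤ T → Mo S ≤ Mo T) {α : ℝ} (hα : 0 < α)
    (S : ℕ → ℝ)
    (hS : ∀ ε : ℝ, 0 < ε → ε < 1 → ∀ᶠ N : ℕ in atTop,
      (1 - ε) * Mo ((1 - ε) * (α * N)) ≤ α * S N ∧ α * S N ≤ (1 + ε) * Mo ((1 + ε) * (α * N)))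
    (c : ℝ) :
    Tendsto (fun T : ℝ => Mo T / V T) atTop (𝓝 c) ↔
      Tendsto (fun N : ℕ => S N / V N) atTop (𝓝 c) := by
  have hVpos : ∀ x : ℝ, 1 < x → 0 < V x := fun x hx => by
    have := Real.log_pos hx
    unfold V
    positivity
  have e1 : Tendsto (fun ε : ℝ => (1 + ε) ^ 2 * c) (𝓝[>] 0) (𝓝 c) := by
    have : Tendsto (fun ε : ℝ => (1 + ε) ^ 2 * c) (𝓝 0) (𝓝 ((1 + 0) ^ 2 * c)) :=
      ((continuous_const.add continuous_id).pow 2 |>.mul continuous_const).tendsto 0
    simp only [add_zero, one_pow, one_mul] at this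
    exact this.mono_left nhdsWithin_le_nhds
  have e2 : Tendsto (fun ε : ℝ => (1 - ε) ^ 2 * c) (𝓝[>] 0) (𝓝 c) := by
    have : Tendsto (fun ε : ℝ => (1 - ε) ^ 2 * c) (𝓝 0) (𝓝 ((1 - 0) ^ 2 * c)) :=
      ((continuous_const.sub continuous_id).pow 2 |>.mul continuous_const).tendsto 0
    simp only [sub_zero, one_pow, one_mul] at this
    exact this.mono_left nhdsWithin_le_nhds
  have e3 : Tendsto (fun ε : ℝ => c / (1 + ε) ^ 2) (𝓝[>] 0) (𝓝 c) := by
    have h1 : Tendsto (fun ε : ℝ => (1 + ε) ^ 2) (𝓝 0) (𝓝 ((1 + 0) ^ 2)) :=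
      ((continuous_const.add continuous_id).pow 2).tendsto 0
    have h2 := (tendsto_const_nhds (x := c)).div h1 (by norm_num)
    simp only [add_zero, one_pow, div_one] at h2
    exact h2.mono_left nhdsWithin_le_nhds
  have e4 : Tendsto (fun ε : ℝ => c / (1 - ε) ^ 2) (𝓝[>] 0) (𝓝 c) := by
    have h1 : Tendsto (fun ε : ℝ => (1 - ε) ^ 2) (𝓝 0) (𝓝 ((1 - 0) ^ 2)) :=
      ((continuous_const.sub continuous_id).pow 2).tendsto 0
    have h2 := (tendsto_const_nhds (x := c)).div h1 (by norm_num)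
    simp only [sub_zero, one_pow, div_one] at h2
    exact h2.mono_left nhdsWithin_le_nhds
  have hnat : Tendsto (fun N : ℕ => (N : ℝ)) atTop atTop := tendsto_natCast_atTop_atTop
  constructor
  · intro hg
    -- a general bound
    have key : ∀ κ : ℝ, 0 < κ → Tendsto (fun N : ℕ => κ / α * (Mo (κ * (α * N)) / V (κ * (α * N)) *
        (V (κ * (α * N)) / V N))) atTop (𝓝 (κ ^ 2 * c)) := by
      intro κ hκ
      have hκα : 0 < κ * α := by positivity
      have h1 : Tendsto (fun N : ℕ => κ * (α * (N : ℝ))) atTop atTop :=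
        Tendsto.const_mul_atTop hκ (Tendsto.const_mul_atTop hα hnat)
      have h2 : Tendsto (fun N : ℕ => (κ * (α * (N : ℝ))) / (N : ℝ)) atTop (𝓝 (κ * α)) := by
        refine tendsto_const_nhds.congr' ?_
        filter_upwards [eventually_gt_atTop 0] with N hN
        have : (N : ℝ) ≠ 0 := by exact_mod_cast hN.ne'
        field_simp
      have h3 := ((hg.comp h1).mul (V_ratio hκα hnat h2)).const_mul (κ / α)
      have e : κ / α * (c * (κ * α)) = κ ^ 2 * c := by field_simp
      rw [e] at h3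
      exact h3
    have hval : ∀ (κ : ℝ), 0 < κ → ∀ᶠ N : ℕ in atTop,
        κ / α * (Mo (κ * (α * N)) / V (κ * (α * N)) * (V (κ * (α * N)) / V N)) =
        κ * Mo (κ * (α * N)) / α / V N := by
      intro κ hκ
      have h1 : Tendsto (fun N : ℕ => κ * (α * (N : ℝ))) atTop atTop :=
        Tendsto.const_mul_atTop hκ (Tendsto.const_mul_atTop hα hnat)
      filter_upwards [h1.eventually_gt_atTop 1] with N hN
      have := (hVpos _ hN).ne'
      generalize κ * (α * (N : ℝ)) = y at this ⊢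
      field_simp
    refine squeeze_eps e1 e2 (fun ε h0 h1 => ⟨_, key (1 + ε) (by linarith), ?_⟩)
      (fun ε h0 h1 => ⟨_, key (1 - ε) (by linarith), ?_⟩)
    · filter_upwards [hS ε h0 h1, hval (1 + ε) (by linarith), eventually_gt_atTop 1] with N hN h2 h3
      rw [h2]
      have hV : 0 < V N := hVpos _ (by exact_mod_cast h3)
      apply div_le_div_of_nonneg_right _ hV.le
      rw [le_div_iff₀ hα]
      linarith [hN.2]
    · filter_upwards [hS ε h0 h1, hval (1 - ε) (by linarith), eventually_gt_atTop 1] with N hN h2 h3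
      rw [h2]
      have hV : 0 < V N := hVpos _ (by exact_mod_cast h3)
      apply div_le_div_of_nonneg_right _ hV.le
      rw [div_le_iff₀ hα]
      linarith [hN.1]
  · intro hh
    have hkey : ∀ (κ : ℝ) (y : ℝ → ℕ), 0 < κ → Tendsto y atTop atTop →
        Tendsto (fun T : ℝ => (y T : ℝ) / T) atTop (𝓝 (1 / (κ * α))) →
        Tendsto (fun T : ℝ => α / κ * (S (y T) / V (y T) * (V (y T) / V T))) atTop
          (𝓝 (c / κ ^ 2)) := by
      intro κ y hκ hy1 hy2
      have h3 := ((hh.comp hy1).mul (V_ratio (by positivity) tendsto_id hy2)).const_mul (α / κ)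
      have e : α / κ * (c * (1 / (κ * α))) = c / κ ^ 2 := by field_simp
      rw [e] at h3
      exact h3
    have hval : ∀ (κ : ℝ) (y : ℝ → ℕ), Tendsto y atTop atTop → ∀ᶠ T : ℝ in atTop,
        α / κ * (S (y T) / V (y T) * (V (y T) / V T)) = α * S (y T) / κ / V T := by
      intro κ y hy1
      filter_upwards [hy1.eventually_gt_atTop 1] with T hT
      have := (hVpos (y T) (by exact_mod_cast hT)).ne'
      field_simp
    refine squeeze_eps e4 e3 (fun ε h0 h1 => ?_) (fun ε h0 h1 => ?_)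
    · have hκ : 0 < 1 - ε := by linarith
      set y : ℝ → ℕ := fun T => ⌈1 / ((1 - ε) * α) * T⌉₊ with hy
      have hy2 : Tendsto (fun T : ℝ => (y T : ℝ) / T) atTop (𝓝 (1 / ((1 - ε) * α))) :=
        tendsto_nat_ceil_mul_div_atTop (by positivity)
      have hy1 : Tendsto y atTop atTop :=
        tendsto_nat_ceil_atTop.comp (Tendsto.const_mul_atTop (by positivity) tendsto_id)
      refine ⟨_, hkey (1 - ε) y hκ hy1 hy2, ?_⟩
      filter_upwards [hy1.eventually (hS ε h0 h1), hval (1 - ε) y hy1, eventually_gt_atTop 1]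
        with T hN h2 h3
      rw [h2]
      have hV : 0 < V T := hVpos _ h3
      apply div_le_div_of_nonneg_right _ hV.le
      rw [le_div_iff₀ hκ]
      have h4 : T ≤ (1 - ε) * (α * (y T)) := by
        have h5 := Nat.le_ceil (1 / ((1 - ε) * α) * T)
        have h6 : (1 - ε) * α * (1 / ((1 - ε) * α) * T) ≤ (1 - ε) * α * (y T : ℝ) :=
          mul_le_mul_of_nonneg_left h5 (by positivity)
        have h7 : (1 - ε) * α * (1 / ((1 - ε) * α) * T) = T := by field_simp
        linarith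
      have h5 := hm _ _ h4
      nlinarith [hN.1]
    · have hκ : 0 < 1 + ε := by linarith
      set y : ℝ → ℕ := fun T => ⌊1 / ((1 + ε) * α) * T⌋₊ with hy
      have hy2 : Tendsto (fun T : ℝ => (y T : ℝ) / T) atTop (𝓝 (1 / ((1 + ε) * α))) :=
        tendsto_nat_floor_mul_div_atTop (by positivity)
      have hy1 : Tendsto y atTop atTop :=
        tendsto_nat_floor_atTop.comp (Tendsto.const_mul_atTop (by positivity) tendsto_id)
      refine ⟨_, hkey (1 + ε) y hκ hy1 hy2, ?_⟩
      filter_upwards [hy1.eventually (hS ε h0 h1), hval (1 + ε) y hy1, eventually_gt_atTop 1]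
        with T hN h2 h3
      rw [h2]
      have hV : 0 < V T := hVpos _ h3
      apply div_le_div_of_nonneg_right _ hV.le
      rw [div_le_iff₀ hκ]
      have h4 : (1 + ε) * (α * (y T)) ≤ T := by
        have h5 := Nat.floor_le (show 0 ≤ 1 / ((1 + ε) * α) * T by positivity)
        have h6 : (1 + ε) * α * (y T : ℝ) ≤ (1 + ε) * α * (1 / ((1 + ε) * α) * T) :=
          mul_le_mul_of_nonneg_left h5 (by positivity)
        have h7 : (1 + ε) * α * (1 / ((1 + ε) * α) * T) = T := by field_simp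
        linarith
      have h5 := hm _ _ h4
      nlinarith [hN.2]

end

end Pool.Agent.K4H49.DM
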