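import Mathlib
import Pool.Agent.K4H49.DM.Defs
import Pool.Agent.H307R2.LU

/-! Bounds for `G` in the strip `|Im z| ≤ 1/4` and the decay of the Fourier transform of `G` with a
Gaussian weight (author: helper3). -/

set_option autoImplicit false

namespace Pool.Agent.K4H49.DM

open Complex MeasureTheory Filter Topology

noncomputable section

lemma zeta_strip {s : ℂ} (h1 : 1 / 4 ≤ s.re) (h2 : s.re ≤ 3 / 4) :
    ‖riemannZeta s‖ ≤ 5 + 4 * ‖s‖ := by
  have hs0 : 0 < s.re := by linarith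
  have hne : s ≠ 1 := by
    intro h
    rw [h, one_re] at h2
    norm_num at h2
  rw [Pool.Agent.H307R2.zeta_eq le_rfl hs0 hne]
  have e1 : ∑ n ∈ Finset.Icc (1 : ℕ) 1, (n : ℂ) ^ (-s) = 1 := by
    rw [Finset.Icc_self, Finset.sum_singleton, Nat.cast_one, one_cpow]
  have e2 : ((1 : ℕ) : ℂ) ^ (1 - s) = 1 := by rw [Nat.cast_one, one_cpow]
  rw [e1, e2]
  have h3 : (1 / 4 : ℝ) ≤ ‖s - 1‖ := by
    have := abs_re_le_norm (s - 1)
    rw [sub_re, one_re, abs_le'] at this
    linarith [this.2]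
  have h4 : ‖1 / (s - 1)‖ ≤ 4 := by
    rw [norm_div, norm_one, div_le_iff₀ (by linarith)]
    linarith
  have h5 : ‖Pool.Agent.H307R2.TM 1 Pool.Agent.H307R2.Ez s‖ ≤ 4 := by
    have h := Pool.Agent.H307R2.TM_norm_le (N := 1) le_rfl Pool.Agent.H307R2.Ez_norm_le hs0
    rw [Nat.cast_one, Real.one_rpow, one_mul] at h
    refine h.trans ?_
    rw [div_le_iff₀ hs0]
    linarith
  calc ‖1 + 1 / (s - 1) + s * Pool.Agent.H307R2.TM 1 Pool.Agent.H307R2.Ez s‖ ≤
      ‖(1 : ℂ)‖ + ‖1 / (s - 1)‖ + ‖s‖ * ‖Pool.Agent.H307R2.TM 1 Pool.Agent.H307R2.Ez s‖ := by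
        refine (norm_add_le _ _).trans ?_
        rw [norm_mul]
        gcongr
        exact norm_add_le _ _
    _ ≤ 1 + 4 + ‖s‖ * 4 := by
        rw [norm_one]
        gcongr
    _ = 5 + 4 * ‖s‖ := by ring

theorem G_le : ∃ C : ℝ, 0 < C ∧ ∀ z : ℂ, |z.im| ≤ 1 / 4 → ‖G z‖ ≤ C * (1 + |z.re|) ^ 6 := by
  refine ⟨9 ^ 6, by positivity, fun z hz => ?_⟩
  have hz' := abs_le.1 hz
  have key : ∀ s : ℂ, 1 / 4 ≤ s.re → s.re ≤ 3 / 4 → |s.im| = |z.re| →
      ‖riemannZeta s‖ ≤ 9 * (1 + |z.re|) := by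
    intro s h1 h2 h3
    have h4 := zeta_strip h1 h2
    have h5 : ‖s‖ ≤ |s.re| + |s.im| := norm_le_abs_re_add_abs_im s
    rw [h3, abs_of_pos (by linarith : 0 < s.re)] at h5
    have h6 := abs_nonneg z.re
    linarith
  have r1 : (1 / 2 + I * z : ℂ).re = 1 / 2 - z.im := by
    simp [sub_eq_add_neg]
  have r2 : (1 / 2 - I * z : ℂ).re = 1 / 2 + z.im := by
    simp
  have i1 : (1 / 2 + I * z : ℂ).im = z.re := by
    simp
  have i2 : (1 / 2 - I * z : ℂ).im = -z.re := by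
    simp
  have h1 := key (1 / 2 + I * z) (by rw [r1]; linarith) (by rw [r1]; linarith) (by rw [i1])
  have h2 := key (1 / 2 - I * z) (by rw [r2]; linarith) (by rw [r2]; linarith) (by rw [i2, abs_neg])
  unfold G
  rw [norm_mul, norm_pow, norm_pow]
  calc ‖riemannZeta (1 / 2 + I * z)‖ ^ 3 * ‖riemannZeta (1 / 2 - I * z)‖ ^ 3 ≤
      (9 * (1 + |z.re|)) ^ 3 * (9 * (1 + |z.re|)) ^ 3 := by gcongr
    _ = 9 ^ 6 * (1 + |z.re|) ^ 6 := by ring

theorem G_diff : ∀ z : ℂ, |z.im| < 1 / 2 → DifferentiableAt ℂ G z := by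
  intro z hz
  have hz' := abs_lt.1 hz
  have n1 : (1 / 2 + I * z : ℂ) ≠ 1 := by
    intro h
    have := congrArg Complex.re h
    simp at this
    linarith
  have n2 : (1 / 2 - I * z : ℂ) ≠ 1 := by
    intro h
    have := congrArg Complex.re h
    simp at this
    linarith
  unfold G
  have d1 : DifferentiableAt ℂ (fun z : ℂ => riemannZeta (1 / 2 + I * z)) z :=
    DifferentiableAt.comp (g := riemannZeta) (f := fun z : ℂ => 1 / 2 + I * z) z
      (differentiableAt_riemannZeta n1) (by fun_prop)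
  have d2 : DifferentiableAt ℂ (fun z : ℂ => riemannZeta (1 / 2 - I * z)) z :=
    DifferentiableAt.comp (g := riemannZeta) (f := fun z : ℂ => 1 / 2 - I * z) z
      (differentiableAt_riemannZeta n2) (by fun_prop)
  exact (d1.pow 3).mul (d2.pow 3)

lemma poly_gauss (u : ℝ) : Real.exp (-u ^ 2) * (1 + |u|) ^ 6 ≤ 600 * (1 + u ^ 2)⁻¹ := by
  have h1 : (1 + |u|) ^ 2 ≤ 2 * (1 + u ^ 2) := by
    have := sq_abs u
    nlinarith [sq_nonneg (1 - |u|)]
  have h2 : (1 + |u|) ^ 6 ≤ 8 * (1 + u ^ 2) ^ 3 := by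
    calc (1 + |u|) ^ 6 = ((1 + |u|) ^ 2) ^ 3 := by ring
      _ ≤ (2 * (1 + u ^ 2)) ^ 3 := by gcongr
      _ = _ := by ring
  have h3 : (1 + u ^ 2) ^ 4 ≤ 24 * Real.exp (1 + u ^ 2) := by
    have h := Real.pow_div_factorial_le_exp (1 + u ^ 2) (by positivity) 4
    have e : ((Nat.factorial 4 : ℕ) : ℝ) = 24 := by norm_num [Nat.factorial]
    rw [e, div_le_iff₀ (by norm_num)] at h
    linarith
  have h4 : Real.exp (1 + u ^ 2) = Real.exp 1 * Real.exp (u ^ 2) := Real.exp_add _ _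
  have h5 : Real.exp 1 ≤ 3 := by linarith [Real.exp_one_lt_d9]
  have h6 : Real.exp (-u ^ 2) * Real.exp (u ^ 2) = 1 := by
    rw [← Real.exp_add]; simp
  have hpos : 0 < 1 + u ^ 2 := by positivity
  rw [← div_eq_mul_inv, le_div_iff₀ hpos]
  have hE := Real.exp_pos (-u ^ 2)
  have hE2 := Real.exp_pos (u ^ 2)
  calc Real.exp (-u ^ 2) * (1 + |u|) ^ 6 * (1 + u ^ 2) ≤
      Real.exp (-u ^ 2) * (8 * (1 + u ^ 2) ^ 3) * (1 + u ^ 2) := by gcongr
    _ = Real.exp (-u ^ 2) * (8 * (1 + u ^ 2) ^ 4) := by ring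
    _ ≤ Real.exp (-u ^ 2) * (8 * (24 * (3 * Real.exp (u ^ 2)))) := by
        have : (1 + u ^ 2) ^ 4 ≤ 24 * (3 * Real.exp (u ^ 2)) := by
          rw [h4] at h3
          nlinarith
        gcongr
    _ = 576 * (Real.exp (-u ^ 2) * Real.exp (u ^ 2)) := by ring
    _ ≤ 600 := by rw [h6]; norm_num

/-- the majorant -/
def maj (N x : ℝ) : ℝ := (1 + (x / N) ^ 2)⁻¹

lemma maj_integrable {N : ℝ} (hN : 0 < N) : Integrable (maj N) :=
  integrable_inv_one_add_sq.comp_div hN.ne'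

lemma maj_integral {N : ℝ} (hN : 0 < N) : ∫ x, maj N x = N * Real.pi := by
  unfold maj
  have h := MeasureTheory.Measure.integral_comp_div (fun x : ℝ => (1 + x ^ 2)⁻¹) N
  rw [h, integral_univ_inv_one_add_sq, abs_of_pos hN, smul_eq_mul]

lemma maj_nonneg (N x : ℝ) : 0 ≤ maj N x := by unfold maj; positivity

lemma maj_top {N : ℝ} (hN : 0 < N) : Tendsto (maj N) atTop (𝓝 0) := by
  unfold maj
  apply Tendsto.inv_tendsto_atTop
  apply tendsto_atTop_add_const_left
  exact (tendsto_pow_atTop (by norm_num)).comp (tendsto_id.atTop_div_const hN)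

lemma maj_bot {N : ℝ} (hN : 0 < N) : Tendsto (fun x => maj N (-x)) atTop (𝓝 0) := by
  have : (fun x => maj N (-x)) = maj N := by
    ext x
    unfold maj
    congr 1
    ring
  rw [this]
  exact maj_top hN

/-- the weighted function -/
def GW (N : ℝ) (z : ℂ) : ℂ := Complex.exp (-(z / N) ^ 2) * G z

lemma GW_diff (N : ℝ) : ∀ z : ℂ, |z.im| < 1 / 2 → DifferentiableAt ℂ (GW N) z := by
  intro z hz
  unfold GW
  refine DifferentiableAt.mul ?_ (G_diff z hz)
  apply DifferentiableAt.cexp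
  apply DifferentiableAt.neg
  apply DifferentiableAt.pow
  exact differentiableAt_id.div_const _

lemma GW_le : ∃ C : ℝ, 0 < C ∧ ∀ N : ℝ, 1 ≤ N → ∀ z : ℂ, |z.im| ≤ 1 / 4 →
    ‖GW N z‖ ≤ C * N ^ 6 * maj N z.re := by
  obtain ⟨C, hC, h⟩ := G_le
  refine ⟨3 * C * 600, by positivity, fun N hN z hz => ?_⟩
  have hN0 : 0 < N := by linarith
  unfold GW
  rw [norm_mul, Complex.norm_exp]
  have e1 : (-(z / N) ^ 2 : ℂ).re = -(z.re / N) ^ 2 + (z.im / N) ^ 2 := by
    have : (z / N : ℂ) = ((z.re / N : ℝ) : ℂ) + ((z.im / N : ℝ) : ℂ) * I := by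
      conv_lhs => rw [← re_add_im z]
      push_cast
      ring
    rw [this]
    simp [pow_two]
    ring
  rw [e1, Real.exp_add]
  have h1 : Real.exp ((z.im / N) ^ 2) ≤ 3 := by
    have h2 : (z.im / N) ^ 2 ≤ 1 := by
      rw [div_pow, div_le_one (by positivity)]
      have h3 : z.im ^ 2 ≤ (1 / 4) ^ 2 := sq_le_sq' (by linarith [(abs_le.1 hz).1]) (abs_le.1 hz).2
      nlinarith
    have := Real.exp_le_exp.2 h2
    linarith [Real.exp_one_lt_d9]
  have h2 := h z hz
  have h3 := poly_gauss (z.re / N)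
  have h4 : 1 + |z.re| ≤ N * (1 + |z.re / N|) := by
    rw [abs_div, abs_of_pos hN0, mul_add, mul_div_cancel₀ _ hN0.ne']
    linarith
  have h5 : (1 + |z.re|) ^ 6 ≤ N ^ 6 * (1 + |z.re / N|) ^ 6 := by
    rw [← mul_pow]
    gcongr
  calc Real.exp (-(z.re / N) ^ 2) * Real.exp ((z.im / N) ^ 2) * ‖G z‖ ≤
      Real.exp (-(z.re / N) ^ 2) * 3 * (C * (N ^ 6 * (1 + |z.re / N|) ^ 6)) := by
        gcongr
        exact h2.trans (by gcongr)
    _ = 3 * C * N ^ 6 * (Real.exp (-(z.re / N) ^ 2) * (1 + |z.re / N|) ^ 6) := by ring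
    _ ≤ 3 * C * N ^ 6 * (600 * (1 + (z.re / N) ^ 2)⁻¹) := by gcongr
    _ = 3 * C * 600 * N ^ 6 * maj N z.re := by unfold maj; ring

/-- shifting the line of integration -/
lemma shift (Φ : ℂ → ℂ) (c : ℝ) (g : ℝ → ℝ) (hg : Integrable g) (hg1 : Tendsto g atTop (𝓝 0))
    (hg2 : Tendsto (fun x => g (-x)) atTop (𝓝 0))
    (hd : ∀ z : ℂ, |z.im| ≤ |c| → DifferentiableAt ℂ Φ z)
    (hb : ∀ z : ℂ, |z.im| ≤ |c| → ‖Φ z‖ ≤ g z.re) :
    Integrable (fun x : ℝ => Φ x) ∧ Integrable (fun x : ℝ => Φ (x + c * I)) ∧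
      ∫ x : ℝ, Φ x = ∫ x : ℝ, Φ (x + c * I) := by
  have hi : ∀ y : ℝ, |y| ≤ |c| → Integrable (fun x : ℝ => Φ (x + y * I)) := by
    intro y hy
    refine Integrable.mono' hg ?_ ?_
    · apply Continuous.aestronglyMeasurable
      rw [continuous_iff_continuousAt]
      intro x
      refine ContinuousAt.comp (g := Φ) (f := fun x : ℝ => (x : ℂ) + y * I) ?_ (by fun_prop)
      exact (hd _ (by simpa using hy)).continuousAt
    · refine Eventually.of_forall fun x => ?_
      have := hb (x + y * I) (by simpa using hy)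
      simpa using this
  have h0 : Integrable (fun x : ℝ => Φ x) := by
    have := hi 0 (by simp)
    simpa using this
  have hc : Integrable (fun x : ℝ => Φ (x + c * I)) := hi c le_rfl
  refine ⟨h0, hc, ?_⟩
  have t1 : Tendsto (fun R : ℝ => ∫ x in (-R)..R, Φ x) atTop (𝓝 (∫ x : ℝ, Φ x)) :=
    intervalIntegral_tendsto_integral h0 tendsto_neg_atTop_atBot tendsto_id
  have t2 : Tendsto (fun R : ℝ => ∫ x in (-R)..R, Φ (x + c * I)) atTop
      (𝓝 (∫ x : ℝ, Φ (x + c * I))) :=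
    intervalIntegral_tendsto_integral hc tendsto_neg_atTop_atBot tendsto_id
  have mem : ∀ y : ℝ, y ∈ Set.uIcc 0 c → |y| ≤ |c| := by
    intro y hy
    rw [Set.mem_uIcc] at hy
    rcases hy with hy | hy
    · rw [abs_of_nonneg hy.1]
      exact hy.2.trans (le_abs_self c)
    · rw [abs_of_nonpos hy.2]
      exact (neg_le_neg hy.1).trans (neg_le_abs c)
  have hv : ∀ a : ℝ, ‖∫ y in (0 : ℝ)..c, Φ (a + y * I)‖ ≤ g a * |c| := by
    intro a
    have := intervalIntegral.norm_integral_le_of_norm_le_const (a := 0) (b := c) (C := g a)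
      (f := fun y : ℝ => Φ (a + y * I)) (by
        intro y hy
        have hy' := mem y (Set.uIoc_subset_uIcc hy)
        have := hb (a + y * I) (by simpa using hy')
        simpa using this)
    simpa using this
  have t3 : Tendsto (fun R : ℝ => ∫ y in (0 : ℝ)..c, Φ (R + y * I)) atTop (𝓝 0) := by
    refine squeeze_zero_norm (fun R => hv R) ?_
    simpa using hg1.mul_const |c|
  have t4 : Tendsto (fun R : ℝ => ∫ y in (0 : ℝ)..c, Φ (((-R : ℝ) : ℂ) + y * I)) atTop (𝓝 0) := by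
    refine squeeze_zero_norm (fun R => hv (-R)) ?_
    simpa using hg2.mul_const |c|
  have hrect : ∀ R : ℝ, (∫ x in (-R)..R, Φ x) - (∫ x in (-R)..R, Φ (x + c * I)) +
      I • (∫ y in (0 : ℝ)..c, Φ (R + y * I)) -
      I • (∫ y in (0 : ℝ)..c, Φ (((-R : ℝ) : ℂ) + y * I)) = 0 := by
    intro R
    have h := integral_boundary_rect_eq_zero_of_differentiableOn Φ ((-R : ℝ) : ℂ) (R + c * I) (by
      intro z hz
      rw [mem_reProdIm] at hz
      have h2 := hz.2
      simp at h2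
      exact (hd z (mem _ h2)).differentiableWithinAt)
    simpa using h
  have t5 : Tendsto (fun R : ℝ => (∫ x in (-R)..R, Φ x) - (∫ x in (-R)..R, Φ (x + c * I)) +
      I • (∫ y in (0 : ℝ)..c, Φ (R + y * I)) -
      I • (∫ y in (0 : ℝ)..c, Φ (((-R : ℝ) : ℂ) + y * I))) atTop
      (𝓝 ((∫ x : ℝ, Φ x) - (∫ x : ℝ, Φ (x + c * I)) + I • (0 : ℂ) - I • (0 : ℂ))) :=
    ((t1.sub t2).add (t3.const_smul I)).sub (t4.const_smul I)
  rw [funext hrect] at t5
  have := tendsto_nhds_unique t5 tendsto_const_nhds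
  rw [smul_zero, add_zero, sub_zero] at this
  exact sub_eq_zero.1 this

theorem F2_fourier : ∃ C : ℝ, 0 < C ∧ ∀ N : ℝ, 1 ≤ N →
    (MeasureTheory.Integrable fun x : ℝ => Complex.exp (-((x : ℂ) / N) ^ 2) * G x) ∧
    ∀ ξ : ℝ, ‖∫ x : ℝ, Complex.exp (-(2 * Real.pi * ξ * x * Complex.I)) *
      (Complex.exp (-((x : ℂ) / N) ^ 2) * G x)‖ ≤ C * N ^ 7 * Real.exp (-(Real.pi / 2 * |ξ|)) := by
  obtain ⟨C, hC, h⟩ := GW_le
  refine ⟨C * Real.pi, by positivity, fun N hN => ?_⟩
  have hN0 : 0 < N := by linarith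
  have base : ∀ ξ c : ℝ, |c| ≤ 1 / 4 → Integrable (fun x : ℝ => Complex.exp (-(2 * Real.pi * ξ * x * I)) * GW N x) ∧
      ‖∫ x : ℝ, Complex.exp (-(2 * Real.pi * ξ * x * I)) * GW N x‖ ≤
        C * Real.pi * N ^ 7 * Real.exp (2 * Real.pi * ξ * c) := by
    intro ξ c hc
    have hnorm : ∀ z : ℂ, ‖Complex.exp (-(2 * Real.pi * ξ * z * I))‖ = Real.exp (2 * Real.pi * ξ * z.im) := by
      intro z
      rw [Complex.norm_exp]
      congr 1
      have : -(2 * Real.pi * ξ * z * I : ℂ) = ((2 * Real.pi * ξ : ℝ) : ℂ) * (-(z * I)) := by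
        push_cast; ring
      rw [this, re_ofReal_mul]
      simp
    set K := Real.exp (2 * Real.pi * |ξ| * |c|) with hK
    have hKle : ∀ y : ℝ, |y| ≤ |c| → Real.exp (2 * Real.pi * ξ * y) ≤ K := by
      intro y hy
      rw [hK]
      apply Real.exp_le_exp.2
      have h1 : ξ * y ≤ |ξ| * |c| := by
        calc ξ * y ≤ |ξ * y| := le_abs_self _
          _ = |ξ| * |y| := abs_mul _ _
          _ ≤ _ := by gcongr
      have hp := Real.pi_pos
      nlinarith
    have hs := shift (fun z : ℂ => Complex.exp (-(2 * Real.pi * ξ * z * I)) * GW N z) c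
      (fun x => K * (C * N ^ 6) * maj N x)
      ((maj_integrable hN0).const_mul _)
      (by simpa using (maj_top hN0).const_mul (K * (C * N ^ 6)))
      (by simpa using (maj_bot hN0).const_mul (K * (C * N ^ 6)))
      (fun z hz => by
        refine DifferentiableAt.mul ?_ (GW_diff N z (by linarith))
        fun_prop)
      (fun z hz => by
        rw [norm_mul, hnorm]
        calc Real.exp (2 * Real.pi * ξ * z.im) * ‖GW N z‖ ≤ K * (C * N ^ 6 * maj N z.re) := by
              gcongr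
              · exact hKle _ hz
              · exact h N hN z (hz.trans hc)
          _ = _ := by ring)
    obtain ⟨i1, i2, e⟩ := hs
    refine ⟨i1, ?_⟩
    rw [e]
    refine (norm_integral_le_integral_norm _).trans ?_
    calc ∫ x : ℝ, ‖Complex.exp (-(2 * Real.pi * ξ * (x + c * I) * I)) * GW N (x + c * I)‖ ≤
        ∫ x : ℝ, Real.exp (2 * Real.pi * ξ * c) * (C * N ^ 6) * maj N x := by
          refine integral_mono i2.norm ((maj_integrable hN0).const_mul _) (fun x => ?_)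
          simp only
          rw [norm_mul, hnorm]
          have h1 := h N hN (x + c * I) (by simpa using hc)
          have e1 : ((x : ℂ) + c * I).im = c := by simp
          have e2 : ((x : ℂ) + c * I).re = x := by simp
          rw [e1]
          rw [e2] at h1
          calc Real.exp (2 * Real.pi * ξ * c) * ‖GW N (x + c * I)‖ ≤
              Real.exp (2 * Real.pi * ξ * c) * (C * N ^ 6 * maj N x) := by gcongr
            _ = _ := by ring
      _ = Real.exp (2 * Real.pi * ξ * c) * (C * N ^ 6) * (N * Real.pi) := by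
          rw [integral_const_mul, maj_integral hN0]
      _ = C * Real.pi * N ^ 7 * Real.exp (2 * Real.pi * ξ * c) := by ring
  constructor
  · have h1 := (base 0 0 (by norm_num)).1
    refine h1.congr (Eventually.of_forall fun x => ?_)
    simp [GW]
  · intro ξ
    rcases le_total 0 ξ with hξ | hξ
    · have h1 := (base ξ (-(1 / 4)) (by norm_num [abs_of_pos])).2
      refine h1.trans (le_of_eq ?_)
      rw [abs_of_nonneg hξ]
      congr 2
      ring
    · have h1 := (base ξ (1 / 4) (by norm_num [abs_of_pos])).2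
      refine h1.trans (le_of_eq ?_)
      rw [abs_of_nonpos hξ]
      congr 2
      ring

end

end Pool.Agent.K4H49.DM
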