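import Mathlib
import Pool.Agent.K4H49.DM.Sch
import Pool.Agent.K4H49.DM.Strip

set_option autoImplicit false

/-! The decay of the Fourier transform of `φ(x/N) G(x)` (author: helper3). -/

namespace Pool.Agent.K4H49.DM

open Complex MeasureTheory Filter
open scoped SchwartzMap ContDiff FourierTransform

noncomputable section

/-- `φ(u) exp(u²)` -/
def P2 (φ : ℝ → ℝ) (u : ℝ) : ℂ := ((φ u * Real.exp (u ^ 2) : ℝ) : ℂ)

lemma P2_contDiff {φ : ℝ → ℝ} {a b : ℝ} (hφ : Wgt φ a b) : ContDiff ℝ ∞ (P2 φ) := by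
  unfold P2
  have h2 : ContDiff ℝ ∞ (fun u : ℝ => φ u * Real.exp (u ^ 2)) := by
    apply hφ.smooth.mul
    fun_prop
  exact Complex.ofRealCLM.contDiff.comp h2

lemma P2_hcs {φ : ℝ → ℝ} {a b : ℝ} (hφ : Wgt φ a b) : HasCompactSupport (P2 φ) := by
  apply HasCompactSupport.intro (isCompact_Icc (a := a) (b := b))
  intro x hx
  by_contra h
  apply hx
  apply hφ.supp
  intro h0
  apply h
  unfold P2
  rw [h0]
  simp

/-- `φ(u) exp(u²)` as a Schwartz function -/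
def P2S {φ : ℝ → ℝ} {a b : ℝ} (hφ : Wgt φ a b) : 𝓢(ℝ, ℂ) :=
  (P2_hcs hφ).toSchwartzMap (P2_contDiff hφ)

lemma P2_inv {φ : ℝ → ℝ} {a b : ℝ} (hφ : Wgt φ a b) (u : ℝ) :
    P2 φ u = ∫ η : ℝ, Complex.exp (2 * Real.pi * η * u * I) * (𝓕 (P2S hφ)) η := by
  have h1 : 𝓕⁻ (𝓕 (P2S hφ)) = P2S hφ := FourierTransform.fourierInv_fourier_eq _
  have h2 : (𝓕⁻ (𝓕 (P2S hφ))) u = P2 φ u := by
    rw [h1]
    rfl
  rw [← h2, SchwartzMap.fourierInv_coe, Real.fourierInv_eq']
  apply integral_congr_ae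
  refine ae_of_all _ fun η => ?_
  simp only [smul_eq_mul]
  congr 2
  simp only [RCLike.inner_apply, conj_trivial]
  push_cast
  ring

lemma GW_cont (N : ℝ) : Continuous (fun x : ℝ => GW N x) := by
  unfold GW
  have h : Continuous (fun x : ℝ => G (x : ℂ)) := G_contDiff.continuous
  refine Continuous.mul ?_ h
  fun_prop

lemma FN_eq_P2 (φ : ℝ → ℝ) {N : ℝ} (hN : 0 < N) (x : ℝ) : FN φ N x = P2 φ (x / N) * GW N x := by
  unfold FN P2 GW
  rw [← mul_assoc]
  congr 1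
  push_cast
  rw [mul_assoc, ← Complex.exp_add]
  have : ((x : ℂ) / N) ^ 2 + -(x / N) ^ 2 = 0 := by ring
  rw [this, Complex.exp_zero, mul_one]

/-- the Fourier transform of `GW` -/
lemma fourier_FN {φ : ℝ → ℝ} {a b : ℝ} (hφ : Wgt φ a b) {N : ℝ} (hN : 1 ≤ N)
    (hint : Integrable (fun x : ℝ => GW N x)) (ξ : ℝ) :
    𝓕 (FN φ N) ξ = ∫ η : ℝ, (𝓕 (P2S hφ)) η *
      ∫ x : ℝ, Complex.exp (-(2 * Real.pi * ((ξ - η / N : ℝ) : ℂ) * x * I)) * GW N x := by
  have hN0 : 0 < N := by linarith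
  set h : 𝓢(ℝ, ℂ) := 𝓕 (P2S hφ) with hh
  have hhint : Integrable (fun η => h η) := h.integrable
  have hhc : Continuous (fun η => h η) := h.continuous
  set K : ℝ → ℝ → ℂ := fun x η => Complex.exp (-(2 * Real.pi * ((ξ - η / N : ℝ) : ℂ) * x * I)) *
    (GW N x * h η) with hK
  have hKint : Integrable (Function.uncurry K) (volume.prod volume) := by
    have h1 : Integrable (fun z : ℝ × ℝ => GW N z.1 * h z.2) (volume.prod volume) :=
      hint.mul_prod hhint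
    refine h1.mono ?_ ?_
    · apply Continuous.aestronglyMeasurable
      have c1 : Continuous (fun z : ℝ × ℝ => GW N z.1) := (GW_cont N).comp continuous_fst
      have c2 : Continuous (fun z : ℝ × ℝ => h z.2) := hhc.comp continuous_snd
      have c3 : Continuous (fun z : ℝ × ℝ =>
        Complex.exp (-(2 * Real.pi * ((ξ - z.2 / N : ℝ) : ℂ) * z.1 * I))) := by fun_prop
      exact c3.mul (c1.mul c2)
    · refine ae_of_all _ fun z => ?_
      change ‖Complex.exp (-(2 * Real.pi * ((ξ - z.2 / N : ℝ) : ℂ) * z.1 * I)) *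
        (GW N z.1 * h z.2)‖ ≤ _
      rw [norm_mul]
      have : ‖Complex.exp (-(2 * Real.pi * ((ξ - z.2 / N : ℝ) : ℂ) * z.1 * I))‖ = 1 := by
        have e : (-(2 * Real.pi * ((ξ - z.2 / N : ℝ) : ℂ) * z.1 * I)) =
          ((-(2 * Real.pi * (ξ - z.2 / N) * z.1) : ℝ) : ℂ) * I := by
          push_cast
          ring
        rw [e, Complex.norm_exp_ofReal_mul_I]
      rw [this, one_mul]
  have hswap := MeasureTheory.integral_integral_swap hKint
  have hl : 𝓕 (FN φ N) ξ = ∫ x, ∫ η, K x η := by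
    rw [Real.fourier_eq']
    apply integral_congr_ae
    refine ae_of_all _ fun x => ?_
    simp only [smul_eq_mul, RCLike.inner_apply, conj_trivial]
    rw [FN_eq_P2 φ hN0, P2_inv hφ, ← hh, ← integral_mul_const, ← integral_const_mul]
    apply integral_congr_ae
    refine ae_of_all _ fun η => ?_
    simp only [hK]
    have e : Complex.exp (-(2 * Real.pi * ((ξ - η / N : ℝ) : ℂ) * x * I)) =
        Complex.exp (((-2 * Real.pi * (ξ * x) : ℝ) : ℂ) * I) *
          Complex.exp (2 * Real.pi * η * ((x / N : ℝ) : ℂ) * I) := by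
      rw [← Complex.exp_add]
      congr 1
      push_cast
      ring
    rw [e]
    ring
  rw [hl, hswap]
  apply integral_congr_ae
  refine ae_of_all _ fun η => ?_
  simp only [hK]
  rw [← integral_const_mul]
  apply integral_congr_ae
  refine ae_of_all _ fun x => ?_
  simp only
  ring

lemma final_ineq {C A B P E R K : ℝ} (hC : 0 < C) (hA : 0 ≤ A) (hB : 0 ≤ B) (hE : 0 ≤ E)
    (hR : 0 ≤ R) (hK : 0 ≤ K) (h2 : P ≤ K * R) :
    C * E * A + C * P * B ≤ (C * (A + K * B) + 1) * (E + R) := by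
  have h3 : C * P * B ≤ C * (K * R) * B :=
    mul_le_mul_of_nonneg_right (mul_le_mul_of_nonneg_left h2 hC.le) hB
  have h4 : 0 ≤ C * A * R := mul_nonneg (mul_nonneg hC.le hA) hR
  have h5 : 0 ≤ C * (K * B) * E := mul_nonneg (mul_nonneg hC.le (mul_nonneg hK hB)) hE
  calc C * E * A + C * P * B ≤ C * E * A + C * (K * R) * B := by linarith
    _ ≤ C * E * A + C * (K * R) * B + (C * A * R + C * (K * B) * E + E + R) := by linarith
    _ = _ := by ring

/-- the decay of the Fourier transform of `φ(x/N) G(x)` -/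
theorem FN_decay {φ : ℝ → ℝ} {a b : ℝ} (hφ : Wgt φ a b) : ∃ C : ℝ, 0 < C ∧ ∀ N : ℝ, 1 ≤ N →
    ∀ ξ : ℝ, 1 ≤ |ξ| →
      ‖𝓕 (FN φ N) ξ‖ ≤ C * (N ^ 7 * Real.exp (-(Real.pi / 4 * |ξ|)) + (ξ ^ 2)⁻¹) := by
  obtain ⟨C, hC, hF⟩ := F2_fourier
  set h : 𝓢(ℝ, ℂ) := 𝓕 (P2S hφ) with hh
  have hhint : Integrable (fun η => ‖h η‖) := h.integrable.norm
  have hm : Integrable (fun η => ‖η‖ ^ 10 * ‖h η‖) := h.integrable_pow_mul volume 10
  set A := ∫ η, ‖h η‖ with hA
  set B := ∫ η, ‖η‖ ^ 10 * ‖h η‖ with hB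
  have hA0 : 0 ≤ A := integral_nonneg fun η => norm_nonneg _
  have hB0 : 0 ≤ B := integral_nonneg fun η => by positivity
  refine ⟨C * (A + 2 ^ 10 * B) + 1, by positivity, fun N hN ξ hξ => ?_⟩
  have hN0 : 0 < N := by linarith
  obtain ⟨hint, hb⟩ := hF N hN
  have hint' : Integrable (fun x : ℝ => GW N x) := hint
  rw [fourier_FN hφ hN hint' ξ, ← hh]
  have hpt : ∀ η : ℝ, ‖h η * ∫ x : ℝ, Complex.exp (-(2 * Real.pi * ((ξ - η / N : ℝ) : ℂ) * x * I)) *
      GW N x‖ ≤ C * N ^ 7 * Real.exp (-(Real.pi / 4 * |ξ|)) * ‖h η‖ +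
        C * N ^ 7 * (2 / (N * |ξ|)) ^ 10 * (‖η‖ ^ 10 * ‖h η‖) := by
    intro η
    rw [norm_mul]
    have h1 := hb (ξ - η / N)
    have h2 : ‖∫ x : ℝ, Complex.exp (-(2 * Real.pi * ((ξ - η / N : ℝ) : ℂ) * x * I)) * GW N x‖ ≤
        C * N ^ 7 * Real.exp (-(Real.pi / 2 * |ξ - η / N|)) := h1
    have h3 : Real.exp (-(Real.pi / 2 * |ξ - η / N|)) ≤ Real.exp (-(Real.pi / 4 * |ξ|)) +
        (2 / (N * |ξ|)) ^ 10 * ‖η‖ ^ 10 := by
      by_cases hη : |η| ≤ N * |ξ| / 2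
      · have h4 : |ξ| / 2 ≤ |ξ - η / N| := by
          have h5 : |η / N| ≤ |ξ| / 2 := by
            rw [abs_div, abs_of_pos hN0, div_le_iff₀ hN0]
            linarith
          have h6 := abs_sub_abs_le_abs_sub ξ (η / N)
          linarith
        have h5 : Real.exp (-(Real.pi / 2 * |ξ - η / N|)) ≤ Real.exp (-(Real.pi / 4 * |ξ|)) := by
          apply Real.exp_le_exp.mpr
          have := Real.pi_pos
          nlinarith
        have h6 : 0 ≤ (2 / (N * |ξ|)) ^ 10 * ‖η‖ ^ 10 := by positivity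
        linarith
      · push Not at hη
        have h4 : Real.exp (-(Real.pi / 2 * |ξ - η / N|)) ≤ 1 := by
          apply Real.exp_le_one_iff.mpr
          have := Real.pi_pos
          have := abs_nonneg (ξ - η / N)
          nlinarith
        have h5 : 1 ≤ (2 / (N * |ξ|)) ^ 10 * ‖η‖ ^ 10 := by
          rw [← mul_pow]
          apply one_le_pow₀
          rw [Real.norm_eq_abs, div_mul_eq_mul_div, le_div_iff₀ (by positivity)]
          linarith
        have h6 : 0 ≤ Real.exp (-(Real.pi / 4 * |ξ|)) := (Real.exp_pos _).le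
        linarith
    calc ‖h η‖ * ‖∫ x : ℝ, Complex.exp (-(2 * Real.pi * ((ξ - η / N : ℝ) : ℂ) * x * I)) * GW N x‖
        ≤ ‖h η‖ * (C * N ^ 7 * (Real.exp (-(Real.pi / 4 * |ξ|)) +
          (2 / (N * |ξ|)) ^ 10 * ‖η‖ ^ 10)) := by
          apply mul_le_mul_of_nonneg_left _ (norm_nonneg _)
          exact h2.trans (mul_le_mul_of_nonneg_left h3 (by positivity))
      _ = _ := by ring
  have hI1 : Integrable (fun η => C * N ^ 7 * Real.exp (-(Real.pi / 4 * |ξ|)) * ‖h η‖ +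
        C * N ^ 7 * (2 / (N * |ξ|)) ^ 10 * (‖η‖ ^ 10 * ‖h η‖)) :=
    (hhint.const_mul _).add (hm.const_mul _)
  have h1 := norm_integral_le_of_norm_le hI1 (ae_of_all _ hpt)
  rw [integral_add (hhint.const_mul _) (hm.const_mul _), integral_const_mul, integral_const_mul,
    ← hA, ← hB] at h1
  refine h1.trans ?_
  have hξ0 : 0 < |ξ| := by linarith
  have h2 : N ^ 7 * (2 / (N * |ξ|)) ^ 10 ≤ 2 ^ 10 * (ξ ^ 2)⁻¹ := by
    rw [div_pow, mul_pow, mul_div_assoc', div_le_iff₀ (by positivity), ← sq_abs]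
    have e : 2 ^ 10 * (|ξ| ^ 2)⁻¹ * (N ^ 10 * |ξ| ^ 10) = N ^ 7 * 2 ^ 10 * (N ^ 3 * |ξ| ^ 8) := by
      field_simp
    rw [e]
    apply le_mul_of_one_le_right (by positivity)
    exact one_le_mul_of_one_le_of_one_le (one_le_pow₀ hN) (one_le_pow₀ hξ)
  have h5 := final_ineq hC hA0 hB0 (E := N ^ 7 * Real.exp (-(Real.pi / 4 * |ξ|))) (by positivity)
    (R := (ξ ^ 2)⁻¹) (by positivity) (K := 2 ^ 10) (by positivity) h2
  calc _ = C * (N ^ 7 * Real.exp (-(Real.pi / 4 * |ξ|))) * A +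
        C * (N ^ 7 * (2 / (N * |ξ|)) ^ 10) * B := by rw [mul_assoc C, mul_assoc C (N ^ 7)]
    _ ≤ _ := h5

end

end Pool.Agent.K4H49.DM
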