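import Mathlib
import Pool.Agent.K4H49.DM.Bad

set_option autoImplicit false

/-! The partition into multiplicative scales. -/

namespace Pool.Agent.K4H49.DM

open MeasureTheory Real Set Filter Topology
open scoped SchwartzMap FourierTransform ContDiff

noncomputable section

/-- smooth cut-off: one on `x ≤ 1`, zero on `x ≥ r` -/
def psi (r x : ℝ) : ℝ := 1 - Real.smoothTransition ((x - 1) / (r - 1))

/-- the weight at one scale -/
def phi (r x : ℝ) : ℝ := psi r x - psi r (r * x)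

lemma psi_one {r x : ℝ} (hr : 1 < r) (hx : x ≤ 1) : psi r x = 1 := by
  unfold psi
  rw [Real.smoothTransition.zero_of_nonpos, sub_zero]
  exact div_nonpos_of_nonpos_of_nonneg (by linarith) (by linarith)

lemma psi_zero {r x : ℝ} (hr : 1 < r) (hx : r ≤ x) : psi r x = 0 := by
  unfold psi
  rw [Real.smoothTransition.one_of_one_le, sub_self]
  rw [le_div_iff₀ (by linarith)]
  linarith

lemma psi_nonneg (r x : ℝ) : 0 ≤ psi r x := by
  unfold psi
  have := Real.smoothTransition.le_one ((x - 1) / (r - 1))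
  linarith

lemma psi_le_one (r x : ℝ) : psi r x ≤ 1 := by
  unfold psi
  have := Real.smoothTransition.nonneg ((x - 1) / (r - 1))
  linarith

lemma psi_anti {r x y : ℝ} (hr : 1 < r) (hxy : x ≤ y) : psi r y ≤ psi r x := by
  unfold psi
  have h : (x - 1) / (r - 1) ≤ (y - 1) / (r - 1) := by
    apply div_le_div_of_nonneg_right _ (by linarith)
    linarith
  have := Real.smoothTransition.monotone h
  linarith

lemma psi_smooth (r : ℝ) : ContDiff ℝ ∞ (psi r) := by
  unfold psi
  refine contDiff_const.sub ?_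
  exact (Real.smoothTransition.contDiff (n := ⊤)).comp (by fun_prop)

lemma phi_wgt {r : ℝ} (hr : 1 < r) : Wgt (phi r) (1 / r) r where
  a_pos := by positivity
  smooth := by
    unfold phi
    exact (psi_smooth r).sub ((psi_smooth r).comp (by fun_prop))
  supp := by
    intro x hx
    have hr0 : 0 < r := by linarith
    by_contra h
    apply hx
    unfold phi
    rw [not_and_or, not_le, not_le] at h
    rcases h with h | h
    · rw [lt_div_iff₀ hr0] at h
      have h1 : r * x < 1 := by linarith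
      have h2 : x ≤ 1 := by
        by_contra h3
        push Not at h3
        nlinarith
      rw [psi_one hr h2, psi_one hr h1.le, sub_self]
    · have h1 : r ≤ r * x := by nlinarith
      rw [psi_zero hr h.le, psi_zero hr h1, sub_self]
  nonneg := by
    intro x
    unfold phi
    rcases le_total x 0 with h | h
    · rw [psi_one hr (by linarith : x ≤ 1), psi_one hr (by nlinarith : r * x ≤ 1), sub_self]
    · have := psi_anti hr (show x ≤ r * x by nlinarith)
      linarith
  le_one := by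
    intro x
    unfold phi
    have h1 := psi_le_one r x
    have h2 := psi_nonneg r (r * x)
    linarith

lemma phi_at_one {r : ℝ} (hr : 1 < r) : phi r 1 = 1 := by
  unfold phi
  rw [psi_one hr le_rfl, mul_one, psi_zero hr le_rfl, sub_zero]

/-- the total weight -/
def WW (r : ℝ) (j0 k : ℕ) (x : ℝ) : ℝ := psi r (x / r ^ k) - psi r (x / r ^ j0)

lemma tele {r : ℝ} (hr : 1 < r) {j0 k : ℕ} (h : j0 ≤ k) (x : ℝ) :
    ∑ j ∈ Finset.Ico j0 k, phi r (x / r ^ (j + 1)) = WW r j0 k x := by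
  have hr0 : r ≠ 0 := by positivity
  have e : ∀ j : ℕ, phi r (x / r ^ (j + 1)) = psi r (x / r ^ (j + 1)) - psi r (x / r ^ j) := by
    intro j
    unfold phi
    congr 2
    rw [pow_succ]
    field_simp
  simp only [e]
  unfold WW
  exact Finset.sum_Ico_sub (fun j => psi r (x / r ^ j)) h

lemma WW_nonneg {r : ℝ} (hr : 1 < r) {j0 k : ℕ} (h : j0 ≤ k) (x : ℝ) : 0 ≤ WW r j0 k x := by
  rw [← tele hr h]
  exact Finset.sum_nonneg fun j _ => (phi_wgt hr).nonneg _

lemma WW_le_one {r : ℝ} {j0 k : ℕ} (x : ℝ) : WW r j0 k x ≤ 1 := by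
  unfold WW
  have h1 := psi_le_one r (x / r ^ k)
  have h2 := psi_nonneg r (x / r ^ j0)
  linarith

lemma WW_zero_left {r : ℝ} (hr : 1 < r) {j0 k : ℕ} (h : j0 ≤ k) {x : ℝ} (hx : x ≤ r ^ j0) :
    WW r j0 k x = 0 := by
  have h0 : 0 < r ^ j0 := by positivity
  have h1 : 0 < r ^ k := by positivity
  have h2 : r ^ j0 ≤ r ^ k := pow_le_pow_right₀ hr.le h
  unfold WW
  rw [psi_one hr (by rw [div_le_one h1]; linarith), psi_one hr (by rw [div_le_one h0]; exact hx),
    sub_self]

lemma WW_zero_right {r : ℝ} (hr : 1 < r) {j0 k : ℕ} (h : j0 ≤ k) {x : ℝ} (hx : r ^ (k + 1) ≤ x) :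
    WW r j0 k x = 0 := by
  have h0 : 0 < r ^ j0 := by positivity
  have h1 : 0 < r ^ k := by positivity
  have h2 : r ^ j0 ≤ r ^ k := pow_le_pow_right₀ hr.le h
  have h3 : r * r ^ j0 ≤ x := by
    rw [pow_succ] at hx
    nlinarith
  unfold WW
  rw [psi_zero hr (by rw [le_div_iff₀ h1]; rw [pow_succ] at hx; linarith),
    psi_zero hr (by rw [le_div_iff₀ h0]; exact h3), sub_self]

lemma WW_one {r : ℝ} (hr : 1 < r) {j0 k : ℕ} {x : ℝ} (hx1 : r ^ (j0 + 1) ≤ x)
    (hx2 : x ≤ r ^ k) : WW r j0 k x = 1 := by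
  have h0 : 0 < r ^ j0 := by positivity
  have h1 : 0 < r ^ k := by positivity
  unfold WW
  rw [psi_one hr (by rw [div_le_one h1]; exact hx2),
    psi_zero hr (by rw [le_div_iff₀ h0]; rw [pow_succ] at hx1; linarith), sub_zero]

lemma WW_cont (r : ℝ) (j0 k : ℕ) : Continuous (WW r j0 k) := by
  unfold WW
  have h := (psi_smooth r).continuous
  exact (h.comp (by fun_prop)).sub (h.comp (by fun_prop))

/-- the sum along the progression at one scale -/
def SS (r : ℝ) (i : ℕ) (α β : ℝ) : ℝ := ∑' n : ℤ, phi r ((α * n + β) / r ^ i) * f (α * n + β)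

lemma summable_SS {r : ℝ} (hr : 1 < r) (i : ℕ) {α : ℝ} (hα : 0 < α) (β : ℝ) :
    Summable (fun n : ℤ => phi r ((α * n + β) / r ^ i) * f (α * n + β)) := by
  have hN : 0 < r ^ i := by positivity
  have h := summable_prog (FS (phi_wgt hr) hN) hα β
  rw [FS_coe] at h
  simp only [FN_eq] at h
  exact Complex.summable_ofReal.1 h

lemma SS_close {r : ℝ} (hr : 1 < r) (i : ℕ) {α : ℝ} (hα : 0 < α) (β : ℝ) :
    |α * SS r i α β - J (phi r) (r ^ i)| ≤ DD (FN (phi r) (r ^ i)) α := by
  have hN : 0 < r ^ i := by positivity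
  have h := poisson_bd (FS (phi_wgt hr) hN) hα β
  rw [J_eq (phi_wgt hr) hN, FS_coe] at h
  simp only [FN_eq] at h
  rw [← Complex.ofReal_tsum, ← Complex.ofReal_mul, ← Complex.ofReal_sub, Complex.norm_real,
    Real.norm_eq_abs] at h
  exact h

lemma sum_SS {r : ℝ} (hr : 1 < r) {j0 k : ℕ} (h : j0 ≤ k) {α : ℝ} (hα : 0 < α) (β : ℝ) :
    Summable (fun n : ℤ => WW r j0 k (α * n + β) * f (α * n + β)) ∧
    ∑ j ∈ Finset.Ico j0 k, SS r (j + 1) α β =
      ∑' n : ℤ, WW r j0 k (α * n + β) * f (α * n + β) := by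
  have e : ∀ n : ℤ, WW r j0 k (α * n + β) * f (α * n + β) =
      ∑ j ∈ Finset.Ico j0 k, phi r ((α * n + β) / r ^ (j + 1)) * f (α * n + β) := by
    intro n
    rw [← tele hr h, Finset.sum_mul]
  simp only [e]
  refine ⟨summable_sum fun j _ => summable_SS hr (j + 1) hα β, ?_⟩
  unfold SS
  exact (Summable.tsum_finsetSum fun j _ => summable_SS hr (j + 1) hα β).symm

lemma sum_J {r : ℝ} (hr : 1 < r) {j0 k : ℕ} (h : j0 ≤ k) :
    Integrable (fun x : ℝ => WW r j0 k x * f x) ∧
    ∑ j ∈ Finset.Ico j0 k, J (phi r) (r ^ (j + 1)) = ∫ x : ℝ, WW r j0 k x * f x := by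
  have e : (fun x : ℝ => WW r j0 k x * f x) =
      fun x => ∑ j ∈ Finset.Ico j0 k, phi r (x / r ^ (j + 1)) * f x := by
    funext x
    rw [← tele hr h, Finset.sum_mul]
  rw [e]
  have hi : ∀ j ∈ Finset.Ico j0 k, Integrable (fun x : ℝ => phi r (x / r ^ (j + 1)) * f x) :=
    fun j _ => int_w (phi_wgt hr) (by positivity)
  refine ⟨integrable_finsetSum _ hi, ?_⟩
  unfold J
  exact (integral_finsetSum _ hi).symm

/-- the comparison of the weighted sum and the weighted integral -/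
lemma compare {r : ℝ} (hr : 1 < r) {j0 k : ℕ} (h : j0 ≤ k) {α η : ℝ} (hα : 0 < α)
    (hg : ∀ i : ℕ, j0 ≤ i → DD (FN (phi r) (r ^ i)) α ≤ η * J (phi r) (r ^ i)) (β : ℝ) :
    (1 - η) * ∫ x : ℝ, WW r j0 k x * f x ≤ α * ∑' n : ℤ, WW r j0 k (α * n + β) * f (α * n + β) ∧
    α * ∑' n : ℤ, WW r j0 k (α * n + β) * f (α * n + β) ≤ (1 + η) * ∫ x : ℝ, WW r j0 k x * f x := by
  rw [← (sum_SS hr h hα β).2, ← (sum_J hr h).2, Finset.mul_sum, Finset.mul_sum, Finset.mul_sum]
  have h1 : ∀ j ∈ Finset.Ico j0 k, |α * SS r (j + 1) α β - J (phi r) (r ^ (j + 1))| ≤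
      η * J (phi r) (r ^ (j + 1)) := fun j hj =>
    (SS_close hr (j + 1) hα β).trans (hg (j + 1) (by have := (Finset.mem_Ico.1 hj).1; omega))
  constructor
  · refine Finset.sum_le_sum fun j hj => ?_
    have := (abs_le.1 (h1 j hj)).1
    linarith
  · refine Finset.sum_le_sum fun j hj => ?_
    have := (abs_le.1 (h1 j hj)).2
    linarith

end

end Pool.Agent.K4H49.DM
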