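import Mathlib
import Pool.Agent.K4H49.DM.Tel
import Pool.Agent.K4H49.DM.BC

set_option autoImplicit false

/-! The sums along the progression and the integral. -/

namespace Pool.Agent.K4H49.DM

open MeasureTheory Real Set Filter Topology
open scoped SchwartzMap FourierTransform ContDiff

noncomputable section

/-- the integral -/
def Mo (T : ℝ) : ℝ := ∫ x in (0 : ℝ)..T, f x

lemma Mo_mono {S T : ℝ} (h : S ≤ T) : Mo S ≤ Mo T := by
  unfold Mo
  have h1 := intervalIntegral.integral_add_adjacent_intervals (f_cont.intervalIntegrable (μ := volume) 0 S)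
    (f_cont.intervalIntegrable S T)
  rw [← h1]
  have := intervalIntegral.integral_nonneg h (fun x _ => f_nonneg x) (μ := volume)
  linarith

lemma Mo_nonneg {T : ℝ} (h : 0 ≤ T) : 0 ≤ Mo T :=
  intervalIntegral.integral_nonneg h (fun x _ => f_nonneg x)

/-- the sum along the progression -/
def Su (α β : ℝ) (N : ℕ) : ℝ := ∑ n ∈ Finset.Icc 1 N, f (α * n + β)

lemma WW_int_le {r : ℝ} (hr : 1 < r) {j0 k : ℕ} (h : j0 ≤ k) :
    ∫ x : ℝ, WW r j0 k x * f x ≤ Mo (r ^ (k + 1)) := by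
  have h0 : (0 : ℝ) ≤ r ^ (k + 1) := by positivity
  unfold Mo
  rw [intervalIntegral.integral_of_le h0]
  have h1 : ∫ x : ℝ, WW r j0 k x * f x = ∫ x in Ioc 0 (r ^ (k + 1)), WW r j0 k x * f x := by
    symm
    apply setIntegral_eq_integral_of_forall_compl_eq_zero
    intro x hx
    rw [mem_Ioc, not_and_or, not_lt, not_le] at hx
    rcases hx with hx | hx
    · rw [WW_zero_left hr h (hx.trans (by positivity)), zero_mul]
    · rw [WW_zero_right hr h hx.le, zero_mul]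
  rw [h1]
  refine setIntegral_mono ((sum_J hr h).1.integrableOn)
    ((f_cont.intervalIntegrable 0 (r ^ (k + 1))).1) fun x => ?_
  have := WW_le_one (r := r) (j0 := j0) (k := k) x
  calc WW r j0 k x * f x ≤ 1 * f x := mul_le_mul_of_nonneg_right this (f_nonneg x)
    _ = f x := one_mul _

lemma WW_int_ge {r : ℝ} (hr : 1 < r) {j0 k : ℕ} (h : j0 + 1 ≤ k) :
    Mo (r ^ k) - Mo (r ^ (j0 + 1)) ≤ ∫ x : ℝ, WW r j0 k x * f x := by
  have h0 : r ^ (j0 + 1) ≤ r ^ k := pow_le_pow_right₀ hr.le h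
  have h1 := intervalIntegral.integral_add_adjacent_intervals
    (f_cont.intervalIntegrable (μ := volume) 0 (r ^ (j0 + 1)))
    (f_cont.intervalIntegrable (r ^ (j0 + 1)) (r ^ k))
  have h2 : ∫ x in (r ^ (j0 + 1))..(r ^ k), f x ≤ ∫ x : ℝ, WW r j0 k x * f x := by
    rw [intervalIntegral.integral_of_le h0]
    have h3 : ∫ x in Ioc (r ^ (j0 + 1)) (r ^ k), f x =
        ∫ x in Ioc (r ^ (j0 + 1)) (r ^ k), WW r j0 k x * f x := by
      refine setIntegral_congr_fun measurableSet_Ioc fun x hx => ?_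
      show f x = WW r j0 k x * f x
      rw [WW_one hr hx.1.le hx.2, one_mul]
    rw [h3]
    exact setIntegral_le_integral (sum_J hr (by omega : j0 ≤ k)).1
      (Eventually.of_forall fun x => mul_nonneg (WW_nonneg hr (by omega) x) (f_nonneg x))
  unfold Mo
  linarith

lemma upper {r : ℝ} (hr : 1 < r) {j0 k : ℕ} (h : j0 + 1 ≤ k) {α B : ℝ} (hα : 0 < α) (hB : 0 ≤ B)
    {S : ℝ} (hS0 : 0 ≤ S) (hS : ∀ x : ℝ, |x| ≤ r ^ (j0 + 1) + B → f x ≤ S) (N : ℕ)
    (hN : α * N + B ≤ r ^ k) (β : ℝ) (hβ : |β| ≤ B) :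
    Su α β N ≤ ∑' n : ℤ, WW r j0 k (α * n + β) * f (α * n + β) +
      ⌈(r ^ (j0 + 1) + B) / α⌉₊ * S := by
  obtain ⟨hs, -⟩ := sum_SS hr (by omega : j0 ≤ k) hα β
  have hβ' := abs_le.1 hβ
  set Q := r ^ (j0 + 1) with hQ
  have hQ0 : 0 < Q := by positivity
  have h1 : ∀ n ∈ Finset.Icc 1 N, f (α * n + β) ≤ WW r j0 k (α * (n : ℤ) + β) * f (α * (n : ℤ) + β) +
      (if n < ⌈(Q + B) / α⌉₊ then S else 0) := by
    intro n hn
    rw [Finset.mem_Icc] at hn
    have hn1 : (1 : ℝ) ≤ n := by exact_mod_cast hn.1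
    have hn2 : (n : ℝ) ≤ N := by exact_mod_cast hn.2
    rw [Int.cast_natCast]
    have hx2 : α * n + β ≤ r ^ k := by nlinarith
    by_cases hc : Q ≤ α * n + β
    · rw [WW_one hr hc hx2, one_mul]
      have : (0 : ℝ) ≤ if n < ⌈(Q + B) / α⌉₊ then S else 0 := by split_ifs <;> simp [hS0]
      linarith
    · push Not at hc
      have h2 : n < ⌈(Q + B) / α⌉₊ := by
        rw [Nat.lt_ceil, lt_div_iff₀ hα]
        linarith [hβ'.1]
      rw [if_pos h2]
      have h3 : f (α * n + β) ≤ S := by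
        apply hS
        rw [abs_le]
        constructor
        · nlinarith [hβ'.1]
        · linarith
      have h4 : 0 ≤ WW r j0 k (α * n + β) * f (α * n + β) :=
        mul_nonneg (WW_nonneg hr (by omega) _) (f_nonneg _)
      linarith
  unfold Su
  refine (Finset.sum_le_sum h1).trans ?_
  rw [Finset.sum_add_distrib]
  refine add_le_add ?_ ?_
  · have h5 : ∑ n ∈ Finset.Icc 1 N, WW r j0 k (α * (n : ℤ) + β) * f (α * (n : ℤ) + β) =
        ∑ m ∈ (Finset.Icc 1 N).map ⟨fun n : ℕ => (n : ℤ), Nat.cast_injective⟩,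
          WW r j0 k (α * m + β) * f (α * m + β) := by
      rw [Finset.sum_map]
      rfl
    rw [h5]
    exact hs.sum_le_tsum _ fun m _ => mul_nonneg (WW_nonneg hr (by omega) _) (f_nonneg _)
  · rw [← Finset.sum_filter, Finset.sum_const, nsmul_eq_mul]
    refine mul_le_mul_of_nonneg_right ?_ hS0
    have h6 : (Finset.Icc 1 N).filter (fun n => n < ⌈(Q + B) / α⌉₊) ⊆
        Finset.range ⌈(Q + B) / α⌉₊ := by
      intro n hn
      rw [Finset.mem_filter] at hn
      exact Finset.mem_range.2 hn.2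
    have h7 := Finset.card_le_card h6
    rw [Finset.card_range] at h7
    exact_mod_cast h7

lemma lower {r : ℝ} (hr : 1 < r) {j0 k : ℕ} (h : j0 ≤ k) {α B : ℝ} (hα : 0 < α)
    (hB : B ≤ r ^ j0) (N : ℕ) (hN : r ^ (k + 1) ≤ α * N - B) (β : ℝ) (hβ : |β| ≤ B) :
    ∑' n : ℤ, WW r j0 k (α * n + β) * f (α * n + β) ≤ Su α β N := by
  have hβ' := abs_le.1 hβ
  have h1 : ∑' n : ℤ, WW r j0 k (α * n + β) * f (α * n + β) =
      ∑ m ∈ (Finset.Icc 1 N).map ⟨fun n : ℕ => (n : ℤ), Nat.cast_injective⟩,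
          WW r j0 k (α * m + β) * f (α * m + β) := by
    apply tsum_eq_sum
    intro m hm
    by_contra hne
    apply hm
    have hW : WW r j0 k (α * m + β) ≠ 0 := left_ne_zero_of_mul hne
    have h2 : r ^ j0 < α * m + β := by
      by_contra h3
      push Not at h3
      exact hW (WW_zero_left hr h h3)
    have h4 : α * m + β < r ^ (k + 1) := by
      by_contra h3
      push Not at h3
      exact hW (WW_zero_right hr h h3)
    have h5 : (0 : ℝ) < m := by
      by_contra h3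
      push Not at h3
      nlinarith [hβ'.2]
    have h6 : (m : ℝ) < N := by
      by_contra h3
      push Not at h3
      nlinarith [hβ'.1]
    have h7 : 0 < m := by exact_mod_cast h5
    have h8 : m < N := by exact_mod_cast h6
    rw [Finset.mem_map]
    refine ⟨m.toNat, Finset.mem_Icc.2 ⟨by omega, by omega⟩, ?_⟩
    show ((m.toNat : ℕ) : ℤ) = m
    omega
  rw [h1, Finset.sum_map]
  unfold Su
  refine Finset.sum_le_sum fun n _ => ?_
  show WW r j0 k (α * ((n : ℤ) : ℝ) + β) * f (α * ((n : ℤ) : ℝ) + β) ≤ f (α * n + β)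
  rw [Int.cast_natCast]
  calc WW r j0 k (α * n + β) * f (α * n + β) ≤ 1 * f (α * n + β) :=
        mul_le_mul_of_nonneg_right (WW_le_one _) (f_nonneg _)
    _ = _ := one_mul _

theorem core {r : ℝ} (hr : 1 < r) {α η : ℝ} (hα : 0 < α) (hη : 0 < η) (hη1 : η < 1)
    (hg : ∀ᶠ i : ℕ in atTop, DD (FN (phi r) (r ^ i)) α ≤ η * J (phi r) (r ^ i)) {B : ℝ}
    (hB : 0 ≤ B) :
    ∃ K : ℝ, 0 ≤ K ∧ ∀ᶠ N : ℕ in atTop, ∀ β : ℝ, |β| ≤ B →
      α * Su α β N ≤ (1 + η) * Mo (r ^ 2 * (α * N + B)) + K ∧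
      (1 - η) * (Mo ((α * N - B) / r ^ 2) - K) ≤ α * Su α β N := by
  have hr0 : 0 < r := by linarith
  obtain ⟨i1, hi1⟩ := eventually_atTop.1 hg
  have hpow : Tendsto (fun i : ℕ => r ^ i) atTop atTop := tendsto_pow_atTop_atTop_of_one_lt hr
  obtain ⟨i2, hi2⟩ := eventually_atTop.1 (hpow.eventually_ge_atTop B)
  set j0 := max i1 i2 with hj0
  have hgj : ∀ i : ℕ, j0 ≤ i → DD (FN (phi r) (r ^ i)) α ≤ η * J (phi r) (r ^ i) :=
    fun i hi => hi1 i (by omega)
  have hBj : B ≤ r ^ j0 := hi2 j0 (by omega)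
  obtain ⟨S, hS⟩ := (isCompact_Icc (a := -(r ^ (j0 + 1) + B)) (b := r ^ (j0 + 1) + B)).exists_bound_of_continuousOn
    f_cont.continuousOn
  have hS0 : 0 ≤ S := by
    have := hS 0 ⟨by
      have : 0 < r ^ (j0 + 1) := by positivity
      linarith, by positivity⟩
    exact (norm_nonneg _).trans this
  have hS' : ∀ x : ℝ, |x| ≤ r ^ (j0 + 1) + B → f x ≤ S := fun x hx =>
    (le_abs_self _).trans (hS x (abs_le.1 hx))
  set K : ℝ := α * (⌈(r ^ (j0 + 1) + B) / α⌉₊ * S) + Mo (r ^ (j0 + 1)) with hK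
  have hMo0 : 0 ≤ Mo (r ^ (j0 + 1)) := Mo_nonneg (by positivity)
  have hK1 : 0 ≤ α * (⌈(r ^ (j0 + 1) + B) / α⌉₊ * S) := by positivity
  refine ⟨K, by linarith, ?_⟩
  have hlin : Tendsto (fun N : ℕ => α * (N : ℝ)) atTop atTop :=
    Tendsto.const_mul_atTop hα tendsto_natCast_atTop_atTop
  filter_upwards [hlin.eventually_ge_atTop (B + r ^ (j0 + 4)), hlin.eventually_ge_atTop 1]
    with N hN1 hN2 β hβ
  have hbig : (1 : ℝ) ≤ r ^ (j0 + 4) := one_le_pow₀ hr.le
  constructor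
  · -- the upper bound
    obtain ⟨n, hn1, hn2⟩ := exists_nat_pow_near (x := α * N + B) (y := r) (by linarith) hr
    have hk : j0 + 4 < n + 1 := by
      rw [← pow_lt_pow_iff_right₀ hr]
      linarith
    have h1 := upper hr (show j0 + 1 ≤ n + 1 by omega) hα hB hS0 hS' N hn2.le β hβ
    have h2 := (compare hr (show j0 ≤ n + 1 by omega) hα hgj β).2
    have h3 := WW_int_le hr (show j0 ≤ n + 1 by omega)
    have h4 : Mo (r ^ (n + 1 + 1)) ≤ Mo (r ^ 2 * (α * N + B)) := by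
      apply Mo_mono
      calc r ^ (n + 1 + 1) = r ^ 2 * r ^ n := by ring
        _ ≤ _ := by gcongr
    have h5 : (1 + η) * ∫ x : ℝ, WW r j0 (n + 1) x * f x ≤ (1 + η) * Mo (r ^ 2 * (α * N + B)) :=
      mul_le_mul_of_nonneg_left (h3.trans h4) (by linarith)
    have h6 : α * Su α β N ≤ α * (∑' m : ℤ, WW r j0 (n + 1) (α * m + β) * f (α * m + β) +
        ⌈(r ^ (j0 + 1) + B) / α⌉₊ * S) := mul_le_mul_of_nonneg_left h1 hα.le
    rw [mul_add] at h6
    linarith
  · -- the lower bound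
    obtain ⟨n, hn1, hn2⟩ := exists_nat_pow_near (x := α * N - B) (y := r) (by linarith) hr
    have hk : j0 + 4 < n + 1 := by
      rw [← pow_lt_pow_iff_right₀ hr]
      linarith
    obtain ⟨k, rfl⟩ : ∃ k, n = k + 1 := ⟨n - 1, by omega⟩
    have h1 := lower hr (show j0 ≤ k by omega) hα hBj N hn1 β hβ
    have h2 := (compare hr (show j0 ≤ k by omega) hα hgj β).1
    have h3 := WW_int_ge hr (show j0 + 1 ≤ k by omega)
    have h4 : Mo ((α * N - B) / r ^ 2) ≤ Mo (r ^ k) := by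
      apply Mo_mono
      rw [div_le_iff₀ (by positivity)]
      calc α * N - B ≤ r ^ (k + 1 + 1) := hn2.le
        _ = _ := by ring
    have h5 : (1 - η) * (Mo ((α * N - B) / r ^ 2) - K) ≤
        (1 - η) * ∫ x : ℝ, WW r j0 k x * f x :=
      mul_le_mul_of_nonneg_left (by linarith) (by linarith)
    have h6 : α * ∑' m : ℤ, WW r j0 k (α * m + β) * f (α * m + β) ≤ α * Su α β N :=
      mul_le_mul_of_nonneg_left h1 hα.le
    linarith

lemma Mo_top (hL : LowB) : Tendsto Mo atTop atTop := by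
  obtain ⟨c, hc, h⟩ := hL 1 one_pos
  have h2 : Tendsto (fun T : ℝ => c * (T * Real.log T ^ 9)) atTop atTop :=
    Tendsto.const_mul_atTop hc (tendsto_id.atTop_mul_atTop₀ ((tendsto_pow_atTop (by norm_num)).comp
      Real.tendsto_log_atTop))
  have h3 : Tendsto (fun T : ℝ => Mo ((1 + 1) * T)) atTop atTop := by
    refine tendsto_atTop_mono' atTop ?_ h2
    filter_upwards [h, eventually_ge_atTop 0] with T hT hT0
    refine hT.trans ?_
    have h4 := intervalIntegral.integral_add_adjacent_intervals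
      (f_cont.intervalIntegrable (μ := volume) 0 T) (f_cont.intervalIntegrable T ((1 + 1) * T))
    have h5 := Mo_nonneg hT0
    unfold Mo at h5 ⊢
    linarith
  have h4 : Tendsto (fun T : ℝ => T / 2) atTop atTop := tendsto_id.atTop_div_const (by norm_num)
  refine (h3.comp h4).congr fun T => ?_
  show Mo ((1 + 1) * (T / 2)) = Mo T
  congr 1
  ring

/-- the exceptional set for the ratio `r` -/
def Ex (r : ℝ) : Set ℝ := {α : ℝ | 0 < α ∧ ∃ k : ℕ,
      ∃ᶠ i : ℕ in atTop, 1 / ((k : ℝ) + 1) * J (phi r) (r ^ i) < DD (FN (phi r) (r ^ i)) α}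

/-- the exceptional set -/
def E0 : Set ℝ := ⋃ q : {q : ℚ // 1 < q}, Ex ((q : ℚ) : ℝ)

lemma E0_null (hW : WeylB) (hL : LowB) (hD : ∀ (φ : ℝ → ℝ) (a b : ℝ), Wgt φ a b → DecB φ) :
    volume E0 = 0 := by
  unfold E0
  rw [measure_iUnion_null_iff]
  rintro ⟨q, hq⟩
  have hq' : (1 : ℝ) < (q : ℝ) := by exact_mod_cast hq
  exact bc_all hW hL (phi_wgt hq') (hD _ _ _ (phi_wgt hq')) (by rw [phi_at_one hq']; norm_num) hq'

theorem sandwich (hL : LowB) {α : ℝ} (hα : 0 < α) (hE : α ∉ E0) {ε B : ℝ} (hε : 0 < ε)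
    (hε1 : ε < 1) (hB : 0 ≤ B) :
    ∀ᶠ N : ℕ in atTop, ∀ β : ℝ, |β| ≤ B →
      (1 - ε) * Mo ((1 - ε) * (α * N)) ≤ α * Su α β N ∧
      α * Su α β N ≤ (1 + ε) * Mo ((1 + ε) * (α * N)) := by
  -- the ratio
  obtain ⟨r, hr1, hr2⟩ : ∃ q : ℚ, (1 : ℝ) < q ∧ (q : ℝ) < 1 + ε / 8 :=
    exists_rat_btwn (by linarith)
  have hr0 : (0 : ℝ) < r := by linarith
  have hrq : (1 : ℚ) < r := by exact_mod_cast hr1
  have hrsq : (r : ℝ) ^ 2 < 1 + ε / 2 := by nlinarith
  obtain ⟨k, hk⟩ := exists_nat_one_div_lt (show 0 < ε / 2 by positivity)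
  set η : ℝ := 1 / ((k : ℝ) + 1) with hη
  have hη0 : 0 < η := by positivity
  have hg : ∀ᶠ i : ℕ in atTop, DD (FN (phi r) ((r : ℝ) ^ i)) α ≤ η * J (phi r) ((r : ℝ) ^ i) := by
    have h1 : α ∉ Ex ((r : ℚ) : ℝ) := fun h => hE (mem_iUnion.2 ⟨⟨r, hrq⟩, h⟩)
    have h2 : ¬ ∃ᶠ i : ℕ in atTop, η * J (phi r) ((r : ℝ) ^ i) < DD (FN (phi r) ((r : ℝ) ^ i)) α :=
      fun h => h1 ⟨hα, k, h⟩
    rw [not_frequently] at h2
    filter_upwards [h2] with i hi
    exact not_lt.1 hi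
  obtain ⟨K, hK, hcore⟩ := core hr1 hα hη0 (by linarith) hg hB
  have hlin : Tendsto (fun N : ℕ => α * (N : ℝ)) atTop atTop :=
    Tendsto.const_mul_atTop hα tendsto_natCast_atTop_atTop
  have hMo : Tendsto (fun N : ℕ => Mo ((1 - ε) * (α * (N : ℝ)))) atTop atTop :=
    (Mo_top hL).comp (Tendsto.const_mul_atTop (by linarith) hlin)
  filter_upwards [hcore, hMo.eventually_ge_atTop (K / (ε / 2 - η)), hMo.eventually_ge_atTop (2 * K / ε),
    hlin.eventually_ge_atTop (4 * (r : ℝ) ^ 2 * B / ε), hlin.eventually_ge_atTop (4 * B / ε),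
    hlin.eventually_ge_atTop 1] with N hN h1 h2 h3 h4 h5 β hβ
  obtain ⟨hup, hlo⟩ := hN β hβ
  have h3' : (r : ℝ) ^ 2 * B ≤ ε / 4 * (α * N) := by
    rw [div_le_iff₀ hε] at h3
    linarith
  have h4' : B ≤ ε / 4 * (α * N) := by
    rw [div_le_iff₀ hε] at h4
    linarith
  have h2' : K ≤ ε / 2 * Mo ((1 - ε) * (α * N)) := by
    rw [div_le_iff₀ hε] at h2
    linarith
  have hmono : Mo ((1 - ε) * (α * N)) ≤ Mo ((1 + ε) * (α * N)) := Mo_mono (by nlinarith)
  have hMpos : 0 ≤ Mo ((1 - ε) * (α * N)) := Mo_nonneg (by nlinarith)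
  constructor
  · have h6 : Mo ((1 - ε) * (α * N)) ≤ Mo ((α * N - B) / (r : ℝ) ^ 2) := by
      apply Mo_mono
      rw [le_div_iff₀ (by positivity)]
      have h7 : (1 - ε) * (r : ℝ) ^ 2 ≤ (1 - ε) * (1 + ε / 2) :=
        mul_le_mul_of_nonneg_left hrsq.le (by linarith)
      nlinarith
    have h8 : (1 - ε) * Mo ((1 - ε) * (α * N)) ≤
        (1 - η) * (Mo ((α * N - B) / (r : ℝ) ^ 2) - K) := by
      have h9 : (1 - ε / 2) * Mo ((1 - ε) * (α * N)) ≤ Mo ((α * N - B) / (r : ℝ) ^ 2) - K := by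
        linarith
      have h10 : (1 - ε) ≤ (1 - η) * (1 - ε / 2) := by nlinarith
      calc (1 - ε) * Mo ((1 - ε) * (α * N)) ≤
            ((1 - η) * (1 - ε / 2)) * Mo ((1 - ε) * (α * N)) :=
            mul_le_mul_of_nonneg_right h10 hMpos
        _ = (1 - η) * ((1 - ε / 2) * Mo ((1 - ε) * (α * N))) := by ring
        _ ≤ _ := mul_le_mul_of_nonneg_left h9 (by linarith)
    exact h8.trans hlo
  · have h6 : Mo ((r : ℝ) ^ 2 * (α * N + B)) ≤ Mo ((1 + ε) * (α * N)) := by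
      apply Mo_mono
      nlinarith
    have h7 : K ≤ (ε / 2) * Mo ((1 + ε) * (α * N)) := h2'.trans
      (mul_le_mul_of_nonneg_left hmono (by positivity))
    have h8 : (1 + η) * Mo ((r : ℝ) ^ 2 * (α * N + B)) ≤ (1 + η) * Mo ((1 + ε) * (α * N)) :=
      mul_le_mul_of_nonneg_left h6 (by linarith)
    have h9 : 0 ≤ Mo ((1 + ε) * (α * N)) := hMpos.trans hmono
    nlinarith

end

end Pool.Agent.K4H49.DM
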