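import Pool.Agent.K4H49.DM.Weyl
import Pool.Agent.K4H49.DM.Decay
import Pool.Agent.K4H49.DM.Main
import Pool.Agent.K4H49.DM.Cor
import Pool.Agent.H601R2.SixthLocal

set_option autoImplicit false

/-! The final statements on almost all vertical arithmetic progressions. -/

namespace Pool.Agent.K4H49.DM

open MeasureTheory Real Set Filter Topology
open scoped FourierTransform

noncomputable section

lemma f_eq (x : ℝ) : f x = ‖riemannZeta (1 / 2 + x * Complex.I)‖ ^ 6 := by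
  unfold f
  rw [mul_comm]

theorem weylB : WeylB := by
  obtain ⟨C, hC, h⟩ := weyl
  refine ⟨C ^ 6, by positivity, fun x hx => ?_⟩
  have h1 := h x hx
  have hx0 : 0 < x := by linarith
  rw [f_eq]
  calc ‖riemannZeta (1 / 2 + x * Complex.I)‖ ^ 6 ≤ (C * (x ^ (1 / 6 : ℝ) * Real.log x)) ^ 6 := by
        gcongr
    _ = C ^ 6 * ((x ^ (1 / 6 : ℝ)) ^ 6 * Real.log x ^ 6) := by ring
    _ = C ^ 6 * (x * Real.log x ^ 6) := by
        congr 2
        rw [← Real.rpow_natCast, ← Real.rpow_mul hx0.le]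
        norm_num

/-- the constant of the arithmetic factor -/
def a3 : ℝ := ∏' p : Nat.Primes, ((1 - 1 / (p : ℝ)) ^ 9 *
          ∑' m : ℕ, ((m + 2).choose 2 : ℝ) ^ 2 * (1 / (p : ℝ)) ^ m)

lemma a3_pos : 0 < a3 := by
  have h := Pool.Agent.H306R2.aF_pos (κ := 3) (by norm_num)
  rw [Pool.Agent.H601R2.SixthLocal.aF3] at h
  exact h

lemma local_low (δ : ℝ) (hδ : 0 < δ) : ∀ᶠ T : ℝ in atTop,
    34.4 * a3 / (Nat.factorial 9 : ℝ) * (δ * T) * Real.log T ^ 9 ≤
      ∫ t in T..((1 + δ) * T), f t := by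
  filter_upwards [Pool.Agent.H601R2.SixthLocal.sixth_local_aux δ hδ] with T hT
  rw [Pool.Agent.H601R2.SixthLocal.aF3] at hT
  have e : ∀ t : ℝ, f t = ‖riemannZeta (1 / 2 + t * Complex.I)‖ ^ 6 := f_eq
  simp only [e]
  exact hT

theorem lowB : LowB := by
  intro δ hδ
  have ha := a3_pos
  refine ⟨34.4 * a3 / (Nat.factorial 9 : ℝ) * δ, by positivity, ?_⟩
  filter_upwards [local_low δ hδ] with T hT
  calc 34.4 * a3 / (Nat.factorial 9 : ℝ) * δ * (T * Real.log T ^ 9) =
        34.4 * a3 / (Nat.factorial 9 : ℝ) * (δ * T) * Real.log T ^ 9 := by ring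
    _ ≤ _ := hT

theorem decB (φ : ℝ → ℝ) (a b : ℝ) (hφ : Wgt φ a b) : DecB φ := FN_decay hφ

theorem null : volume E0 = 0 := E0_null weylB lowB decB

lemma Mo_low {c : ℝ} (hc : c < 34.4 * a3 / (Nat.factorial 9 : ℝ)) :
    ∀ᶠ T : ℝ in atTop, c * V T ≤ Mo T := by
  set κ : ℝ := 34.4 * a3 / (Nat.factorial 9 : ℝ) with hκ
  have hκ0 : 0 < κ := by
    have := a3_pos
    rw [hκ]; positivity
  -- choose `δ`
  have h1 : Tendsto (fun δ : ℝ => κ * (δ / (1 + δ))) atTop (𝓝 (κ * 1)) := by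
    refine Tendsto.const_mul _ ?_
    have h2 : Tendsto (fun δ : ℝ => 1 - 1 / (1 + δ)) atTop (𝓝 (1 - 0)) := by
      refine tendsto_const_nhds.sub ?_
      exact tendsto_const_nhds.div_atTop (tendsto_atTop_add_const_left _ _ tendsto_id)
    rw [sub_zero] at h2
    refine h2.congr' ?_
    filter_upwards [eventually_gt_atTop 0] with δ hδ
    field_simp
    ring
  rw [mul_one] at h1
  obtain ⟨δ, hδ1, hδ2⟩ := ((h1.eventually (lt_mem_nhds hc)).and (eventually_gt_atTop 0)).exists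
  have hδ3 : 0 < 1 + δ := by linarith
  have hT : Tendsto (fun T : ℝ => T / (1 + δ)) atTop atTop := tendsto_id.atTop_div_const hδ3
  have hr : Tendsto (fun T : ℝ => V (T / (1 + δ)) / V T) atTop (𝓝 (1 / (1 + δ))) := by
    refine V_ratio (by positivity) tendsto_id ?_
    refine tendsto_const_nhds.congr' ?_
    filter_upwards [eventually_gt_atTop 0] with T hT0
    field_simp
  have h3 : Tendsto (fun T : ℝ => κ * δ * (V (T / (1 + δ)) / V T)) atTop
      (𝓝 (κ * (δ / (1 + δ)))) := by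
    have := hr.const_mul (κ * δ)
    have e : κ * δ * (1 / (1 + δ)) = κ * (δ / (1 + δ)) := by ring
    rwa [e] at this
  filter_upwards [h3.eventually (lt_mem_nhds hδ1), hT.eventually (local_low δ hδ2),
    eventually_gt_atTop 1] with T h4 h5 h6
  have hV : 0 < V T := by
    have := Real.log_pos h6
    unfold V
    positivity
  have h7 : c * V T < κ * δ * V (T / (1 + δ)) := by
    have e : κ * δ * (V (T / (1 + δ)) / V T) = κ * δ * V (T / (1 + δ)) / V T := by ring
    rw [e, lt_div_iff₀ hV] at h4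
    exact h4
  have h8 : κ * δ * V (T / (1 + δ)) ≤ Mo T := by
    have e1 : (1 + δ) * (T / (1 + δ)) = T := by field_simp
    rw [e1] at h5
    have h9 := intervalIntegral.integral_add_adjacent_intervals
      (f_cont.intervalIntegrable (μ := volume) 0 (T / (1 + δ)))
      (f_cont.intervalIntegrable (T / (1 + δ)) T)
    have h10 := Mo_nonneg (T := T / (1 + δ)) (by positivity)
    unfold Mo at h10 ⊢
    unfold V
    have e2 : 34.4 * a3 / (Nat.factorial 9 : ℝ) * (δ * (T / (1 + δ))) * Real.log (T / (1 + δ)) ^ 9 =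
        κ * δ * (T / (1 + δ) * Real.log (T / (1 + δ)) ^ 9) := by rw [hκ]; ring
    rw [e2] at h5
    linarith
  linarith

/-- the discrete lower bound -/
lemma Su_low {α : ℝ} (hα : 0 < α) (hE : α ∉ E0) {B : ℝ} (hB : 0 ≤ B) {c : ℝ}
    (hc : c < 34.4 * a3 / (Nat.factorial 9 : ℝ)) :
    ∀ᶠ N : ℕ in atTop, ∀ β : ℝ, |β| ≤ B → c * V N ≤ Su α β N := by
  rcases le_or_gt c 0 with h0 | h0
  · filter_upwards [eventually_ge_atTop 1] with N hN β _
    have h1 : (0 : ℝ) ≤ V N := by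
      have : 0 ≤ Real.log (N : ℝ) := Real.log_natCast_nonneg N
      unfold V
      positivity
    have h2 : 0 ≤ Su α β N := Finset.sum_nonneg fun n _ => f_nonneg _
    nlinarith
  obtain ⟨c1, hc1, hc2⟩ := exists_between hc
  -- choose `ε`
  have h1 : Tendsto (fun ε : ℝ => (1 - ε) * (c1 * (1 - ε))) (𝓝[>] 0) (𝓝 c1) := by
    have : Tendsto (fun ε : ℝ => (1 - ε) * (c1 * (1 - ε))) (𝓝 0) (𝓝 ((1 - 0) * (c1 * (1 - 0)))) :=
      Continuous.tendsto (by fun_prop) 0
    rw [sub_zero, mul_one, one_mul] at this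
    exact this.mono_left nhdsWithin_le_nhds
  have h01 : ∀ᶠ ε : ℝ in 𝓝[>] 0, 0 < ε ∧ ε < 1 := by
    filter_upwards [self_mem_nhdsWithin, mem_nhdsWithin_of_mem_nhds (Iio_mem_nhds one_pos)] with ε h1 h2
    exact ⟨h1, h2⟩
  obtain ⟨ε, hε1, hε2, hε3⟩ := ((h1.eventually (lt_mem_nhds hc1)).and h01).exists
  have hκα : 0 < (1 - ε) * α := by
    have : 0 < 1 - ε := by linarith
    positivity
  have hnat : Tendsto (fun N : ℕ => (N : ℝ)) atTop atTop := tendsto_natCast_atTop_atTop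
  have hlin : Tendsto (fun N : ℕ => (1 - ε) * (α * (N : ℝ))) atTop atTop :=
    Tendsto.const_mul_atTop (by linarith) (Tendsto.const_mul_atTop hα hnat)
  have hr : Tendsto (fun N : ℕ => V ((1 - ε) * (α * (N : ℝ))) / V N) atTop (𝓝 ((1 - ε) * α)) := by
    refine V_ratio hκα hnat ?_
    refine tendsto_const_nhds.congr' ?_
    filter_upwards [eventually_gt_atTop 0] with N hN
    have : (N : ℝ) ≠ 0 := by exact_mod_cast hN.ne'
    field_simp
  have h2 : Tendsto (fun N : ℕ => (1 - ε) * c1 / α * (V ((1 - ε) * (α * (N : ℝ))) / V N)) atTop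
      (𝓝 ((1 - ε) * (c1 * (1 - ε)))) := by
    have := hr.const_mul ((1 - ε) * c1 / α)
    have e : (1 - ε) * c1 / α * ((1 - ε) * α) = (1 - ε) * (c1 * (1 - ε)) := by field_simp
    rwa [e] at this
  filter_upwards [h2.eventually (lt_mem_nhds hε1), sandwich lowB hα hE hε2 hε3 hB,
    hlin.eventually (Mo_low hc2), eventually_gt_atTop 1] with N h3 h4 h5 h6 β hβ
  have hV : 0 < V N := by
    have : 0 < Real.log (N : ℝ) := Real.log_pos (by exact_mod_cast h6)
    unfold V
    positivity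
  have h7 : c * V N < (1 - ε) * c1 / α * V ((1 - ε) * (α * (N : ℝ))) := by
    have e : (1 - ε) * c1 / α * (V ((1 - ε) * (α * (N : ℝ))) / V N) =
        (1 - ε) * c1 / α * V ((1 - ε) * (α * (N : ℝ))) / V N := by ring
    rw [e, lt_div_iff₀ hV] at h3
    exact h3
  have h8 : (1 - ε) * (c1 * V ((1 - ε) * (α * (N : ℝ)))) ≤ α * Su α β N :=
    (mul_le_mul_of_nonneg_left h5 (by linarith)).trans (h4 β hβ).1
  have h9 : (1 - ε) * c1 / α * V ((1 - ε) * (α * (N : ℝ))) ≤ Su α β N := by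
    have e : (1 - ε) * c1 / α * V ((1 - ε) * (α * (N : ℝ))) =
        (1 - ε) * (c1 * V ((1 - ε) * (α * (N : ℝ)))) / α := by ring
    rw [e, div_le_iff₀ hα]
    linarith
  linarith

end

end Pool.Agent.K4H49.DM
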