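import Pool.Agent.W347.EH.KT

set_option autoImplicit false

/-! The second and third derivative tests with explicit logarithms. -/

namespace Pool.Agent.K4H49.DM

open Finset Pool.Agent.W347.EH
open Pool.Agent.Helper153.Vdc (ee dd Cond vdc_ineq' cond_diff sum_inv_le triv_bound)

theorem k2 (A : ℝ) (hA : 1 ≤ A) : ∃ C : ℝ, 1 ≤ C ∧
    ∀ (N M : ℕ) (g : ℕ → ℝ) (lam : ℝ), 1 ≤ N → M ≤ N → 0 < lam → Cond 2 g M lam A →
      ‖∑ n ∈ Finset.range M, ee (g n)‖ ≤ C * (N * √lam + (1 + Real.log N) * (√lam)⁻¹) := by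
  refine ⟨10 + 40 * A, by linarith, ?_⟩
  intro N M g lam hN hMN hlam hc
  have hN1 : (1 : ℝ) ≤ N := by exact_mod_cast hN
  have hN0 : (0 : ℝ) < N := by linarith
  set w := √lam with hw
  have hw0 : 0 < w := Real.sqrt_pos.2 hlam
  have hww : w ^ 2 = lam := Real.sq_sqrt hlam.le
  set L := 1 + Real.log N with hL
  have hL1 : 1 ≤ L := by
    rw [hL]; have := Real.log_nonneg hN1; linarith
  by_cases hAl : 2 * A * lam ≤ 1
  · have h1 := base_sq A hA N M g lam hN hMN hlam hc hAl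
    set x := (N : ℝ) * w with hx
    set y := L * w⁻¹ with hy
    have hxx : 0 < x := by positivity
    have hyy : 0 < y := by positivity
    have h2 : ‖∑ n ∈ range M, ee (g n)‖ ^ 2 ≤ (10 + 40 * A) * (x + y) ^ 2 := by
      refine h1.trans ?_
      have e2 : lam * (N : ℝ) ^ 2 = x ^ 2 := by rw [hx, ← hww]; ring
      have e3 : L / lam ≤ y ^ 2 := by
        rw [hy, ← hww, mul_pow, inv_pow, ← div_eq_mul_inv]
        apply div_le_div_of_nonneg_right _ (by positivity)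
        nlinarith
      have e1 : N * L = x * y := by rw [hx, hy]; field_simp
      have e0 : (N : ℝ) ≤ x * y := by
        rw [← e1]; nlinarith
      rw [e2, e1]
      have q0 : x * y ≤ (x + y) ^ 2 := by nlinarith [sq_nonneg x, sq_nonneg y, mul_pos hxx hyy]
      have q1 : x ^ 2 ≤ (x + y) ^ 2 := by nlinarith [sq_nonneg x, sq_nonneg y, mul_pos hxx hyy]
      have q2 : y ^ 2 ≤ (x + y) ^ 2 := by nlinarith [sq_nonneg x, sq_nonneg y, mul_pos hxx hyy]
      have q6 : 8 * A * x ^ 2 ≤ 8 * A * (x + y) ^ 2 :=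
        mul_le_mul_of_nonneg_left q1 (by linarith)
      have q7 : 32 * A * (x * y) ≤ 32 * A * (x + y) ^ 2 :=
        mul_le_mul_of_nonneg_left q0 (by linarith)
      have q9 : (10 + 40 * A) * (x + y) ^ 2 = 10 * (x + y) ^ 2 + 8 * A * (x + y) ^ 2 +
        32 * A * (x + y) ^ 2 := by ring
      rw [q9]
      linarith
    exact sq_lin (norm_nonneg _) (by linarith) (by positivity) h2
  · push Not at hAl
    have h1 : (M : ℝ) ≤ N := by exact_mod_cast hMN
    have h2 := triv_bound M g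
    have h3 : 1 ≤ 2 * A * w := by
      by_contra h
      push Not at h
      have hw1 : w < 1 := by nlinarith
      rw [← hww] at hAl
      nlinarith
    have h7 : (N : ℝ) ≤ 2 * A * (N * w) := by nlinarith
    have h9 : 0 ≤ (N : ℝ) * w := by positivity
    have h10 : 0 ≤ L * w⁻¹ := by positivity
    calc ‖∑ n ∈ range M, ee (g n)‖ ≤ N := h2.trans h1
      _ ≤ 2 * A * (N * w) := h7
      _ ≤ (10 + 40 * A) * (N * w) := mul_le_mul_of_nonneg_right (by linarith) h9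
      _ ≤ (10 + 40 * A) * (N * w + L * w⁻¹) :=
          mul_le_mul_of_nonneg_left (by linarith) (by linarith)

/-- the third derivative test, `lam = w ^ 6` -/
theorem k3 (A : ℝ) (hA : 1 ≤ A) : ∃ C : ℝ, 1 ≤ C ∧
    ∀ (N M : ℕ) (g : ℕ → ℝ) (w : ℝ), 1 ≤ N → M ≤ N → 0 < w → Cond 3 g M (w ^ 6) A →
      ‖∑ n ∈ Finset.range M, ee (g n)‖ ≤ C * (N * w + √(N * (1 + Real.log N)) * w⁻¹) := by
  obtain ⟨C1, hC1, hIH⟩ := k2 A hA
  refine ⟨40 * C1, by linarith, ?_⟩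
  intro N M g w hN hMN hw hc
  have hN1 : (1 : ℝ) ≤ N := by exact_mod_cast hN
  have hN0 : (0 : ℝ) < N := by linarith
  set L := 1 + Real.log N with hL
  have hL1 : 1 ≤ L := by
    rw [hL]; have := Real.log_nonneg hN1; linarith
  have hL0 : 0 < L := by linarith
  set x := (N : ℝ) * w with hx
  set y := √(N * L) * w⁻¹ with hy
  have hx0 : 0 < x := by positivity
  have hy0 : 0 < y := by positivity
  have hS := (triv_bound M g).trans (by exact_mod_cast hMN : (M : ℝ) ≤ N)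
  have hC40 : 1 ≤ 40 * C1 := by linarith
  rcases le_or_gt 1 w with hl1 | hl1
  · have h2 : (N : ℝ) ≤ x := by rw [hx]; nlinarith
    have h3 : x + y ≤ 40 * C1 * (x + y) := le_mul_of_one_le_left (by linarith) hC40
    linarith
  set q := (w ^ 2)⁻¹ with hq
  have hq1 : 1 ≤ q := by
    rw [hq]
    exact (one_le_inv₀ (by positivity)).2 (by nlinarith)
  have hq0 : 0 < q := by linarith
  rcases lt_or_ge (N : ℝ) q with hqN | hqN
  · have h2 : (N : ℝ) ≤ y := by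
      have h3 : N * w ^ 2 ≤ 1 := by
        have h4 : (N : ℝ) * w ^ 2 < q * w ^ 2 := by
          have : 0 < w ^ 2 := by positivity
          nlinarith
        rw [hq, inv_mul_cancel₀ (by positivity)] at h4
        exact h4.le
      rw [hy, ← div_eq_mul_inv, le_div_iff₀ hw]
      apply Real.le_sqrt_of_sq_le
      have h5 : (N : ℝ) * (N * w ^ 2) ≤ N * 1 := mul_le_mul_of_nonneg_left h3 hN0.le
      have h6 : (N : ℝ) * 1 ≤ N * L := mul_le_mul_of_nonneg_left hL1 hN0.le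
      have h7 : ((N : ℝ) * w) ^ 2 = N * (N * w ^ 2) := by ring
      rw [h7]
      exact h5.trans h6
    have h3 : x + y ≤ 40 * C1 * (x + y) := le_mul_of_one_le_left (by linarith) hC40
    linarith
  set H := ⌊q⌋₊ with hH
  have hH1 : 1 ≤ H := Nat.floor_pos.2 hq1
  have hHq : (H : ℝ) ≤ q := Nat.floor_le (by linarith)
  have hHN : H ≤ N := by
    have : (H : ℝ) ≤ N := hHq.trans hqN
    exact_mod_cast this
  have hH1' : (1 : ℝ) ≤ H := by exact_mod_cast hH1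
  have hH0 : (0 : ℝ) < H := by linarith
  have hHq2 : q ≤ 2 * H := by
    have h1 : q < (H : ℝ) + 1 := Nat.lt_floor_add_one q
    linarith
  have hHw : (H : ℝ) * w ^ 2 ≤ 1 := by
    have : (H : ℝ) * w ^ 2 ≤ q * w ^ 2 := mul_le_mul_of_nonneg_right hHq (by positivity)
    rwa [hq, inv_mul_cancel₀ (by positivity)] at this
  have hHw2 : 1 ≤ 2 * (H * w ^ 2) := by
    have : q * w ^ 2 ≤ (2 * H) * w ^ 2 := mul_le_mul_of_nonneg_right hHq2 (by positivity)
    rw [hq, inv_mul_cancel₀ (by positivity)] at this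
    linarith
  have hsw : √(w ^ 6) = w ^ 3 := by
    rw [show w ^ 6 = (w ^ 3) ^ 2 by ring, Real.sqrt_sq (by positivity)]
  -- the sums S_h
  have hSh : ∀ h ∈ Ico 1 H, ‖∑ n ∈ range (M - h), ee ((fun n => g (n + h) - g n) n)‖ ≤
      C1 * (N * w ^ 2 + L * (w ^ 3)⁻¹ * (h : ℝ) ^ (-(1 / 2 : ℝ))) := by
    intro h hh
    rw [mem_Ico] at hh
    have hh1 : (1 : ℝ) ≤ h := by exact_mod_cast hh.1
    have hh0 : (0 : ℝ) < h := by linarith
    have hhH : (h : ℝ) ≤ H := by exact_mod_cast hh.2.le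
    have h1 := hIH N (M - h) (fun n => g (n + h) - g n) (h * w ^ 6) hN (by omega) (by positivity)
      (cond_diff (k := 2) hc hh.1)
    refine h1.trans (mul_le_mul_of_nonneg_left ?_ (by linarith))
    have e1 : √((h : ℝ) * w ^ 6) = √h * w ^ 3 := by
      rw [Real.sqrt_mul hh0.le, hsw]
    have h2 : √((h : ℝ) * w ^ 6) ≤ w ^ 2 := by
      rw [Real.sqrt_le_iff]
      refine ⟨by positivity, ?_⟩
      have h3 : (h : ℝ) * w ^ 2 ≤ 1 :=
        (mul_le_mul_of_nonneg_right hhH (by positivity)).trans hHw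
      calc (h : ℝ) * w ^ 6 = (h * w ^ 2) * w ^ 4 := by ring
        _ ≤ 1 * w ^ 4 := by gcongr
        _ = (w ^ 2) ^ 2 := by ring
    have e2 : (h : ℝ) ^ (-(1 / 2 : ℝ)) = (√h)⁻¹ := by
      rw [Real.rpow_neg hh0.le, Real.sqrt_eq_rpow]
    have h5 : (1 + Real.log N) * (√((h : ℝ) * w ^ 6))⁻¹ =
        L * (w ^ 3)⁻¹ * (h : ℝ) ^ (-(1 / 2 : ℝ)) := by
      rw [e1, e2, ← hL, mul_inv]; ring
    rw [h5]
    have h6 : (N : ℝ) * √((h : ℝ) * w ^ 6) ≤ N * w ^ 2 := mul_le_mul_of_nonneg_left h2 hN0.le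
    linarith
  have hT : ∑ h ∈ Ico 1 H, ‖∑ n ∈ range (M - h), ee ((fun n => g (n + h) - g n) n)‖ ≤
      C1 * (H * (N * w ^ 2 + 4 * (L * (w ^ 2)⁻¹))) := by
    refine (Finset.sum_le_sum hSh).trans ?_
    rw [← Finset.mul_sum, Finset.sum_add_distrib,
      ← Finset.mul_sum (Ico 1 H) (fun h : ℕ => (h : ℝ) ^ (-(1 / 2 : ℝ)))]
    refine mul_le_mul_of_nonneg_left ?_ (by linarith)
    have h1 : ∑ _h ∈ Ico 1 H, (N : ℝ) * w ^ 2 ≤ H * (N * w ^ 2) := by
      rw [Finset.sum_const, Nat.card_Ico, nsmul_eq_mul]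
      have : ((H - 1 : ℕ) : ℝ) ≤ (H : ℕ) := by exact_mod_cast Nat.sub_le _ _
      exact mul_le_mul_of_nonneg_right this (by positivity)
    have h2 := sum_rpow' (1 / 2) (by norm_num) le_rfl H hH1
    have h3 : (H : ℝ) ^ (1 - 1 / 2 : ℝ) ≤ H * (2 * w) := by
      rw [show (1 - 1 / 2 : ℝ) = 1 / 2 by norm_num, ← Real.sqrt_eq_rpow, Real.sqrt_le_iff]
      refine ⟨by positivity, ?_⟩
      nlinarith
    have h4 : 0 < L * (w ^ 3)⁻¹ := by positivity
    have h5 : L * (w ^ 3)⁻¹ * ∑ h ∈ Ico 1 H, (h : ℝ) ^ (-(1 / 2 : ℝ)) ≤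
        L * (w ^ 3)⁻¹ * (2 * (H * (2 * w))) :=
      mul_le_mul_of_nonneg_left (h2.trans (by linarith)) h4.le
    have h6 : L * (w ^ 3)⁻¹ * (2 * (H * (2 * w))) = H * (4 * (L * (w ^ 2)⁻¹)) := by
      field_simp
      norm_num
    rw [h6] at h5
    rw [mul_add]
    linarith
  have hv := vdc_ineq' M N H hMN hH1 hHN g
  set T := ∑ h ∈ Ico 1 H, ‖∑ n ∈ range (M - h), ee ((fun n => g (n + h) - g n) n)‖ with hTdef
  have hHinv : 1 / (H : ℝ) ≤ 2 * w ^ 2 := by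
    rw [div_le_iff₀ hH0]
    linarith
  have ex : x ^ 2 = (N : ℝ) ^ 2 * w ^ 2 := by rw [hx]; ring
  have ey : y ^ 2 = N * (L * (w ^ 2)⁻¹) := by
    rw [hy, mul_pow, Real.sq_sqrt (by positivity), inv_pow]; ring
  have hmain : ‖∑ n ∈ range M, ee (g n)‖ ^ 2 ≤ 40 * C1 * (x + y) ^ 2 := by
    have h1 : 2 * (N : ℝ) / H * ((N : ℝ) + 2 * T) ≤ 2 * (N : ℝ) / H * ((N : ℝ) + 2 *
        (C1 * (H * (N * w ^ 2 + 4 * (L * (w ^ 2)⁻¹))))) :=
      mul_le_mul_of_nonneg_left (by linarith) (by positivity)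
    have h2 : 2 * (N : ℝ) / H * ((N : ℝ) + 2 * (C1 * (H * (N * w ^ 2 + 4 * (L * (w ^ 2)⁻¹))))) =
        2 * (N : ℝ) ^ 2 * (1 / H) + 4 * C1 * (x ^ 2 + 4 * y ^ 2) := by
      rw [ex, ey]
      field_simp
      ring
    rw [h2] at h1
    have h3 : 2 * (N : ℝ) ^ 2 * (1 / H) ≤ 4 * x ^ 2 := by
      rw [ex]
      calc 2 * (N : ℝ) ^ 2 * (1 / H) ≤ 2 * (N : ℝ) ^ 2 * (2 * w ^ 2) :=
            mul_le_mul_of_nonneg_left hHinv (by positivity)
        _ = 4 * ((N : ℝ) ^ 2 * w ^ 2) := by ring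
    have h5 : x ^ 2 + y ^ 2 ≤ (x + y) ^ 2 := by
      have h11 := mul_pos hx0 hy0
      nlinarith
    have h6 : C1 * (x ^ 2 + y ^ 2) ≤ C1 * (x + y) ^ 2 := mul_le_mul_of_nonneg_left h5 (by linarith)
    have h7 : x ^ 2 ≤ C1 * x ^ 2 := le_mul_of_one_le_left (sq_nonneg x) hC1
    have h8 : 0 ≤ C1 * x ^ 2 := by positivity
    have h9 : 0 ≤ C1 * y ^ 2 := by positivity
    have h10 := hv.trans h1
    have h13 : 4 * C1 * (x ^ 2 + 4 * y ^ 2) = 4 * (C1 * x ^ 2) + 16 * (C1 * y ^ 2) := by ring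
    have h14 : C1 * (x ^ 2 + y ^ 2) = C1 * x ^ 2 + C1 * y ^ 2 := by ring
    have h15 : 40 * C1 * (x + y) ^ 2 = 40 * (C1 * (x + y) ^ 2) := by ring
    rw [h13] at h10
    rw [h14] at h6
    rw [h15]
    linarith
  exact sq_lin (norm_nonneg _) hC40 (by positivity) hmain

end Pool.Agent.K4H49.DM
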