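import Pool.Agent.K4H49.DM.WK
import Pool.Agent.W903.EH.BK
import Pool.Agent.W22.EH.EX

set_option autoImplicit false

/-! The bound of Weyl, Hardy and Littlewood for `ζ(1/2 + it)`. -/

namespace Pool.Agent.K4H49.DM

open Complex Finset
open Pool.Agent.Helper153.Vdc (ee dd Cond)
open Pool.Agent.W903.EH (cond_log sum_rev block b1)
open Pool.Agent.W186.EH (PS)
open Pool.Agent.W22.EH (tail_le)

/-- blocks by the second derivative -/
theorem blk2 : ∃ C : ℝ, 0 < C ∧ ∀ (t : ℝ) (J : ℕ), 2 ≤ t → 1 ≤ J →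
    ‖PS (((1 / 2 : ℝ) : ℂ) + t * I) (J + J) - PS (((1 / 2 : ℝ) : ℂ) + t * I) J‖ ≤
      C * (√t / √J + (1 + Real.log J) * (√J / √t)) := by
  obtain ⟨C, hC, hk⟩ := k2 (3 ^ 2) (by norm_num)
  refine ⟨C * 9, by positivity, ?_⟩
  intro t J ht hJ
  have ht0 : 0 < t := by linarith
  have hpi := Real.pi_pos
  have hJ' : (1 : ℝ) ≤ J := by exact_mod_cast hJ
  have hJ0 : (0 : ℝ) < J := by linarith
  set Z : ℝ := t / (2 * Real.pi) with hZ
  have hZ0 : 0 < Z := by rw [hZ]; positivity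
  set L : ℝ := 1 + Real.log J with hL
  have hL0 : 0 < L := by
    have := Real.log_nonneg hJ'
    rw [hL]; linarith
  have hlam : Z * (((2 - 1).factorial : ℝ) / (3 * (J : ℝ)) ^ 2) = (t / (18 * Real.pi)) / (J : ℝ) ^ 2 := by
    rw [hZ]
    simp only [Nat.add_one_sub_one, Nat.factorial_one, Nat.cast_one]
    field_simp
    ring
  have hsq : √(Z * (((2 - 1).factorial : ℝ) / (3 * (J : ℝ)) ^ 2)) = √(t / (18 * Real.pi)) / J := by
    rw [hlam, Real.sqrt_div (by positivity), Real.sqrt_sq hJ0.le]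
  have hup : √(t / (18 * Real.pi)) ≤ √t := by
    apply Real.sqrt_le_sqrt
    rw [div_le_iff₀ (by positivity)]
    nlinarith [Real.pi_gt_three]
  have hlo : √t / 9 ≤ √(t / (18 * Real.pi)) := by
    apply Real.le_sqrt_of_sq_le
    rw [div_pow, Real.sq_sqrt ht0.le, div_le_div_iff₀ (by norm_num) (by positivity)]
    have := Real.pi_lt_four
    nlinarith
  have hst : 0 < √t := Real.sqrt_pos.2 ht0
  have hsJ : 0 < √(J : ℝ) := Real.sqrt_pos.2 hJ0
  have hsJ2 : √(J : ℝ) ^ 2 = J := Real.sq_sqrt hJ0.le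
  have hpart : ∀ m ≤ J, ‖∑ n ∈ range m, ee (-(t / (2 * Real.pi)) *
      Real.log ((J : ℝ) + 1 + n))‖ ≤ C * (√t + L * (9 * J / √t)) := by
    intro m hm
    rw [← hZ, sum_rev Z J m]
    have h1 := hk J m (fun n : ℕ => -Z * Real.log ((J : ℝ) + m - n))
      (Z * (((2 - 1).factorial : ℝ) / (3 * (J : ℝ)) ^ 2)) hJ hm (by positivity)
      (cond_log (by norm_num) hZ0 hJ hm)
    refine h1.trans (mul_le_mul_of_nonneg_left ?_ (by linarith))
    rw [hsq]
    refine add_le_add ?_ ?_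
    · calc (J : ℝ) * (√(t / (18 * Real.pi)) / J) = √(t / (18 * Real.pi)) := by field_simp
        _ ≤ √t := hup
    · refine mul_le_mul_of_nonneg_left ?_ hL0.le
      rw [inv_div]
      rw [div_le_div_iff₀ (by positivity) hst]
      nlinarith
  refine (block (by norm_num) ht0 hJ hpart).trans ?_
  have e1 : (J : ℝ) ^ (-(1 / 2 : ℝ)) = (√J)⁻¹ := by
    rw [Real.rpow_neg hJ0.le, Real.sqrt_eq_rpow]
  rw [e1]
  have e2 : (√(J : ℝ))⁻¹ * (C * (√t + L * (9 * J / √t))) =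
      C * (√t / √J + 9 * (L * (√J / √t))) := by
    have : (J : ℝ) = √J * √J := by rw [← sq, hsJ2]
    field_simp
    nlinarith
  rw [e2]
  have h3 : 0 < √t / √J := by positivity
  have h4 : 0 < L * (√J / √t) := by positivity
  nlinarith

/-- blocks by the third derivative -/
theorem blk3 : ∃ C : ℝ, 0 < C ∧ ∀ (t : ℝ) (J : ℕ), 2 ≤ t → 1 ≤ J →
    ‖PS (((1 / 2 : ℝ) : ℂ) + t * I) (J + J) - PS (((1 / 2 : ℝ) : ℂ) + t * I) J‖ ≤
      C * (t ^ (1 / 6 : ℝ) + √(1 + Real.log J) * √J * (t ^ (1 / 6 : ℝ))⁻¹) := by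
  obtain ⟨C, hC, hk⟩ := k3 (3 ^ 3) (by norm_num)
  refine ⟨C * 3, by positivity, ?_⟩
  intro t J ht hJ
  have ht0 : 0 < t := by linarith
  have hpi := Real.pi_pos
  have hJ' : (1 : ℝ) ≤ J := by exact_mod_cast hJ
  have hJ0 : (0 : ℝ) < J := by linarith
  set Z : ℝ := t / (2 * Real.pi) with hZ
  have hZ0 : 0 < Z := by rw [hZ]; positivity
  set L : ℝ := 1 + Real.log J with hL
  have hL0 : 0 < L := by
    have := Real.log_nonneg hJ'
    rw [hL]; linarith
  set τ : ℝ := t ^ (1 / 6 : ℝ) with hτ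
  have hτ0 : 0 < τ := by positivity
  have hτ6 : τ ^ 6 = t := by
    rw [hτ, ← Real.rpow_natCast, ← Real.rpow_mul ht0.le]
    norm_num
  set κ : ℝ := (1 / (27 * Real.pi)) ^ (1 / 6 : ℝ) with hκ
  have hκ0 : 0 < κ := by positivity
  have hκ6 : κ ^ 6 = 1 / (27 * Real.pi) := by
    rw [hκ, ← Real.rpow_natCast, ← Real.rpow_mul (by positivity)]
    norm_num
  have hκ1 : κ ≤ 1 := by
    rw [hκ]
    apply Real.rpow_le_one (by positivity) _ (by norm_num)
    rw [div_le_one (by positivity)]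
    nlinarith [Real.pi_gt_three]
  have hκ3 : 1 / 3 ≤ κ := by
    have h1 : (1 / 3 : ℝ) ^ 6 ≤ κ ^ 6 := by
      rw [hκ6, div_pow, one_pow, div_le_div_iff₀ (by norm_num) (by positivity)]
      have := Real.pi_lt_four
      norm_num
      linarith
    exact (pow_le_pow_iff_left₀ (by norm_num) hκ0.le (by norm_num)).1 h1
  set w : ℝ := κ * τ / √J with hw
  have hsJ : 0 < √(J : ℝ) := Real.sqrt_pos.2 hJ0
  have hsJ2 : √(J : ℝ) ^ 2 = J := Real.sq_sqrt hJ0.le
  have hw0 : 0 < w := by rw [hw]; positivity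
  have hlam : Z * (((3 - 1).factorial : ℝ) / (3 * (J : ℝ)) ^ 3) = w ^ 6 := by
    have e : w ^ 6 = κ ^ 6 * τ ^ 6 / (√(J : ℝ) ^ 2) ^ 3 := by
      rw [hw]
      field_simp
    rw [e, hκ6, hτ6, hsJ2, hZ]
    have e3 : (((3 - 1 : ℕ).factorial : ℕ) : ℝ) = 2 := by norm_num [Nat.factorial]
    rw [e3]
    field_simp
    norm_num
  have hpart : ∀ m ≤ J, ‖∑ n ∈ range m, ee (-(t / (2 * Real.pi)) *
      Real.log ((J : ℝ) + 1 + n))‖ ≤ C * (√J * τ + 3 * (√L * J * τ⁻¹)) := by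
    intro m hm
    rw [← hZ, sum_rev Z J m]
    have hcl := cond_log (k := 3) (by norm_num) hZ0 hJ hm
    rw [hlam] at hcl
    have h1 := hk J m (fun n : ℕ => -Z * Real.log ((J : ℝ) + m - n)) w hJ hm hw0 hcl
    refine h1.trans (mul_le_mul_of_nonneg_left ?_ (by linarith))
    refine add_le_add ?_ ?_
    · have e : (J : ℝ) * w = κ * (√J * τ) := by
        rw [hw]
        have : (J : ℝ) = √J * √J := by rw [← sq, hsJ2]
        field_simp
        nlinarith
      rw [e]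
      have : 0 < √(J : ℝ) * τ := by positivity
      nlinarith
    · rw [← hL, Real.sqrt_mul hJ0.le]
      have e : √(J : ℝ) * √L * w⁻¹ = √L * J * τ⁻¹ * κ⁻¹ := by
        rw [hw]
        have : (J : ℝ) = √J * √J := by rw [← sq, hsJ2]
        field_simp
        nlinarith
      rw [e]
      have h2 : κ⁻¹ ≤ 3 := by
        rw [inv_le_comm₀ hκ0 (by norm_num)]
        linarith
      have h3 : 0 < √L * J * τ⁻¹ := by positivity
      nlinarith
  refine (block (by norm_num) ht0 hJ hpart).trans ?_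
  have e1 : (J : ℝ) ^ (-(1 / 2 : ℝ)) = (√J)⁻¹ := by
    rw [Real.rpow_neg hJ0.le, Real.sqrt_eq_rpow]
  rw [e1]
  have e2 : (√(J : ℝ))⁻¹ * (C * (√J * τ + 3 * (√L * J * τ⁻¹))) =
      C * (τ + 3 * (√L * √J * τ⁻¹)) := by
    have e3 : (√(J : ℝ))⁻¹ * √J = 1 := inv_mul_cancel₀ hsJ.ne'
    have e4 : (√(J : ℝ))⁻¹ * J = √J := by rw [inv_mul_eq_div, Real.div_sqrt]
    linear_combination (C * τ) * e3 + (3 * C * √L * τ⁻¹) * e4
  rw [e2]
  have h3 : 0 < √L * √J * τ⁻¹ := by positivity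
  nlinarith

lemma geo (X : ℝ) (hX : 0 < X) (K : ℕ) :
    ∑ i ∈ range K, (if (2 : ℝ) ^ i ≤ X ^ 2 then √((2 : ℝ) ^ i) else 0) ≤ 5 / 2 * √((2 : ℝ) ^ K) ∧
    ∑ i ∈ range K, (if (2 : ℝ) ^ i ≤ X ^ 2 then √((2 : ℝ) ^ i) else 0) ≤ 4 * X := by
  induction K with
  | zero =>
    refine ⟨?_, ?_⟩
    · simp
      norm_num
    · simp [hX.le]
  | succ K ih =>
    rw [Finset.sum_range_succ]
    have hs2 : (1.4 : ℝ) ≤ √2 := by
      apply Real.le_sqrt_of_sq_le
      norm_num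
    have e : √((2 : ℝ) ^ (K + 1)) = √2 * √((2 : ℝ) ^ K) := by
      rw [pow_succ, mul_comm, Real.sqrt_mul (by norm_num)]
    have hp : 0 < √((2 : ℝ) ^ K) := Real.sqrt_pos.2 (by positivity)
    rw [e]
    split_ifs with h
    · have h1 : √((2 : ℝ) ^ K) ≤ X := by
        rw [Real.sqrt_le_iff]
        exact ⟨hX.le, h⟩
      constructor
      · nlinarith [ih.1]
      · nlinarith [ih.1]
    · rw [add_zero]
      constructor
      · nlinarith [ih.1]
      · exact ih.2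

/-- **Weyl, Hardy, Littlewood** -/
theorem weyl : ∃ C : ℝ, 0 < C ∧ ∀ t : ℝ, 2 ≤ t →
    ‖riemannZeta (1 / 2 + t * I)‖ ≤ C * (t ^ (1 / 6 : ℝ) * Real.log t) := by
  obtain ⟨C3, hC3, H3⟩ := blk3
  obtain ⟨C2, hC2, H2⟩ := blk2
  obtain ⟨C1, hC1, H1⟩ := b1 (1 / 2) (by norm_num) (by norm_num)
  set D : ℝ := C3 + 7 * C2 + C1 with hD
  have hD0 : 0 < D := by positivity
  refine ⟨27 + 16 * D, by positivity, fun t ht => ?_⟩
  have ht0 : 0 < t := by linarith
  have ht1 : 1 ≤ t := by linarith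
  set τ : ℝ := t ^ (1 / 6 : ℝ) with hτ
  have hτ0 : 0 < τ := by positivity
  have hτ1 : 1 ≤ τ := Real.one_le_rpow ht1 (by norm_num)
  have hτ6 : τ ^ 6 = t := by
    rw [hτ, ← Real.rpow_natCast, ← Real.rpow_mul ht0.le]
    norm_num
  have hst : √t = τ ^ 3 := by
    rw [← hτ6, show τ ^ 6 = (τ ^ 3) ^ 2 by ring, Real.sqrt_sq (by positivity)]
  have hτt : τ ^ 4 ≤ t := by
    rw [← hτ6]
    exact pow_le_pow_right₀ hτ1 (by norm_num)
  set L : ℝ := 1 + Real.log t with hL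
  have hlt : 0.69 < Real.log t := by
    have := Real.log_two_gt_d9
    have h2 : Real.log 2 ≤ Real.log t := Real.log_le_log (by norm_num) ht
    linarith
  have hL1 : 1 ≤ L := by rw [hL]; linarith
  have hLτ : L ≤ 6 * τ := by
    have h1 : Real.log t = 6 * Real.log τ := by
      rw [← hτ6, Real.log_pow]
      norm_num
    have h2 := Real.log_le_sub_one_of_pos hτ0
    rw [hL, h1]
    linarith
  set s : ℂ := ((1 / 2 : ℝ) : ℂ) + t * I with hs
  have hx : 1 ≤ t ^ 2 / 2 := by nlinarith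
  obtain ⟨K, hK1, hK2⟩ := exists_nat_pow_near hx (show (1 : ℝ) < 2 by norm_num)
  have hKt : (2 : ℝ) ^ K ≤ t ^ 2 := by
    have : 0 < t ^ 2 := by positivity
    linarith
  have hKt' : t ^ 2 / 4 ≤ (2 : ℝ) ^ K := by
    have h4 : (2 : ℝ) ^ (K + 1) = 2 ^ K * 2 := pow_succ _ _
    linarith
  have htail : ‖riemannZeta s - PS s (2 ^ K)‖ ≤ 17 := by
    apply tail_le le_rfl (by norm_num) ht
    · push_cast
      exact hKt'
    · push_cast
      exact hKt
  have htel : PS s (2 ^ K) - PS s 1 = ∑ i ∈ Finset.range K, (PS s (2 ^ (i + 1)) - PS s (2 ^ i)) := by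
    rw [Finset.sum_range_sub (fun i => PS s (2 ^ i))]
    simp
  have hblk : ∀ i ∈ Finset.range K, ‖PS s (2 ^ (i + 1)) - PS s (2 ^ i)‖ ≤
      D * (τ + √L * τ⁻¹ * (if (2 : ℝ) ^ i ≤ (τ ^ 2) ^ 2 then √((2 : ℝ) ^ i) else 0)) := by
    intro i hi
    rw [Finset.mem_range] at hi
    have e1 : 2 ^ (i + 1) = 2 ^ i + 2 ^ i := by rw [pow_succ]; ring
    rw [e1]
    have hJ1 : 1 ≤ 2 ^ i := Nat.one_le_two_pow
    have hJt2 : (2 : ℝ) ^ i ≤ t ^ 2 := by
      refine le_trans ?_ hKt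
      exact pow_le_pow_right₀ (by norm_num) hi.le
    have hJr : (((2 ^ i : ℕ)) : ℝ) = (2 : ℝ) ^ i := by push_cast; rfl
    have hJ1r : (1 : ℝ) ≤ (2 : ℝ) ^ i := one_le_pow₀ (by norm_num)
    have hJ0r : (0 : ℝ) < (2 : ℝ) ^ i := by positivity
    have hsJ : 0 < √((2 : ℝ) ^ i) := Real.sqrt_pos.2 hJ0r
    rcases le_or_gt ((2 : ℝ) ^ i) ((τ ^ 2) ^ 2) with h1 | h1
    · rw [if_pos h1]
      have h2 := H3 t (2 ^ i) ht hJ1
      rw [hJr] at h2
      refine h2.trans ?_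
      have h3 : Real.log ((2 : ℝ) ^ i) ≤ Real.log t := by
        apply Real.log_le_log hJ0r
        calc (2 : ℝ) ^ i ≤ (τ ^ 2) ^ 2 := h1
          _ = τ ^ 4 := by ring
          _ ≤ t := hτt
      have h4 : √(1 + Real.log ((2 : ℝ) ^ i)) ≤ √L := Real.sqrt_le_sqrt (by rw [hL]; linarith)
      have h5 : √(1 + Real.log ((2 : ℝ) ^ i)) * √((2 : ℝ) ^ i) * τ⁻¹ ≤
          √L * τ⁻¹ * √((2 : ℝ) ^ i) := by
        calc √(1 + Real.log ((2 : ℝ) ^ i)) * √((2 : ℝ) ^ i) * τ⁻¹ ≤ √L * √((2 : ℝ) ^ i) * τ⁻¹ := by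
              gcongr
          _ = _ := by ring
      have h6 : 0 ≤ √L * τ⁻¹ * √((2 : ℝ) ^ i) := by positivity
      calc C3 * (τ + √(1 + Real.log ((2 : ℝ) ^ i)) * √((2 : ℝ) ^ i) * τ⁻¹) ≤
            C3 * (τ + √L * τ⁻¹ * √((2 : ℝ) ^ i)) := by gcongr
        _ ≤ D * (τ + √L * τ⁻¹ * √((2 : ℝ) ^ i)) := by
            apply mul_le_mul_of_nonneg_right _ (by linarith)
            rw [hD]; linarith
    · rw [if_neg (not_le.2 h1), mul_zero, add_zero]
      rcases le_or_gt ((2 : ℝ) ^ i) t with h2 | h2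
      · have h3 := H2 t (2 ^ i) ht hJ1
        rw [hJr] at h3
        refine h3.trans ?_
        have h4 : τ ^ 2 ≤ √((2 : ℝ) ^ i) := Real.le_sqrt_of_sq_le h1.le
        have h5 : √t / √((2 : ℝ) ^ i) ≤ τ := by
          rw [div_le_iff₀ hsJ, hst]
          calc τ ^ 3 = τ * τ ^ 2 := by ring
            _ ≤ _ := by gcongr
        have h6 : √((2 : ℝ) ^ i) / √t ≤ 1 := by
          rw [div_le_one (Real.sqrt_pos.2 ht0)]
          exact Real.sqrt_le_sqrt h2
        have h7 : 1 + Real.log ((2 : ℝ) ^ i) ≤ L := by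
          have := Real.log_le_log hJ0r h2
          rw [hL]; linarith
        have h8 : 0 ≤ 1 + Real.log ((2 : ℝ) ^ i) := by
          have := Real.log_nonneg hJ1r
          linarith
        have h9 : (1 + Real.log ((2 : ℝ) ^ i)) * (√((2 : ℝ) ^ i) / √t) ≤ 6 * τ := by
          calc (1 + Real.log ((2 : ℝ) ^ i)) * (√((2 : ℝ) ^ i) / √t) ≤ L * 1 := by gcongr
            _ = L := mul_one _
            _ ≤ _ := hLτ
        calc C2 * (√t / √((2 : ℝ) ^ i) + (1 + Real.log ((2 : ℝ) ^ i)) * (√((2 : ℝ) ^ i) / √t)) ≤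
              C2 * (τ + 6 * τ) := by gcongr
          _ = 7 * C2 * τ := by ring
          _ ≤ D * τ := by
              apply mul_le_mul_of_nonneg_right _ hτ0.le
              rw [hD]; linarith
      · have h3 := H1 t (2 ^ i) ht hJ1 (by rw [hJr]; exact h2.le)
        rw [hJr] at h3
        refine h3.trans ?_
        have h4 : ((2 : ℝ) ^ i) ^ (1 - 1 / 2 : ℝ) ≤ t := by
          calc ((2 : ℝ) ^ i) ^ (1 - 1 / 2 : ℝ) ≤ (t ^ 2) ^ (1 - 1 / 2 : ℝ) :=
                Real.rpow_le_rpow hJ0r.le hJt2 (by norm_num)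
            _ = t := by
                rw [← Real.rpow_natCast, ← Real.rpow_mul ht0.le]
                norm_num
        have h5 : ((2 : ℝ) ^ i) ^ (1 - 1 / 2 : ℝ) / t ≤ 1 := by
          rw [div_le_one ht0]; exact h4
        calc C1 * (((2 : ℝ) ^ i) ^ (1 - 1 / 2 : ℝ) / t) ≤ C1 * τ := by
              gcongr
              linarith
          _ ≤ D * τ := by
              apply mul_le_mul_of_nonneg_right _ hτ0.le
              rw [hD]; linarith
  have hsum : ‖PS s (2 ^ K) - PS s 1‖ ≤ D * (K * τ + 4 * (√L * τ)) := by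
    rw [htel]
    refine (norm_sum_le _ _).trans ((Finset.sum_le_sum hblk).trans ?_)
    rw [← Finset.mul_sum, Finset.sum_add_distrib, Finset.sum_const, Finset.card_range, nsmul_eq_mul,
      ← Finset.mul_sum]
    refine mul_le_mul_of_nonneg_left ?_ hD0.le
    have h1 := (geo (τ ^ 2) (by positivity) K).2
    have h2 : √L * τ⁻¹ * ∑ i ∈ range K, (if (2 : ℝ) ^ i ≤ (τ ^ 2) ^ 2 then √((2 : ℝ) ^ i) else 0) ≤
        √L * τ⁻¹ * (4 * τ ^ 2) := mul_le_mul_of_nonneg_left h1 (by positivity)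
    have h3 : √L * τ⁻¹ * (4 * τ ^ 2) = 4 * (√L * τ) := by field_simp
    linarith
  have hP1 : ‖PS s 1‖ = 1 := by
    unfold PS
    simp
  have hlog : (K : ℝ) ≤ 4 * Real.log t := by
    have h1 := Real.log_le_log (by positivity) hKt
    rw [Real.log_pow, Real.log_pow] at h1
    have h2 : (1 : ℝ) / 2 < Real.log 2 := by
      have := Real.log_two_gt_d9
      linarith
    have h3 : 0 ≤ (K : ℝ) := Nat.cast_nonneg K
    push_cast at h1
    nlinarith
  have hz : ‖riemannZeta s‖ ≤ 18 + D * (K * τ + 4 * (√L * τ)) := by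
    have e1 : riemannZeta s = (riemannZeta s - PS s (2 ^ K)) + (PS s (2 ^ K) - PS s 1) + PS s 1 := by
      ring
    rw [e1]
    refine (norm_add₃_le).trans ?_
    linarith
  have hsL : √L ≤ 3 * Real.log t := by
    have h1 : √L ≤ L := by
      rw [Real.sqrt_le_iff]
      exact ⟨by linarith, by nlinarith⟩
    rw [hL] at h1 ⊢
    linarith
  have e2 : (1 / 2 + t * I : ℂ) = s := by rw [hs]; push_cast; ring
  rw [e2]
  have hτl : 0 < τ * Real.log t := by positivity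
  have h18 : (18 : ℝ) ≤ 27 * (τ * Real.log t) := by nlinarith
  have hKτ : (K : ℝ) * τ ≤ 4 * (τ * Real.log t) := by nlinarith
  have hLτ2 : √L * τ ≤ 3 * (τ * Real.log t) := by nlinarith
  have hfin : D * (K * τ + 4 * (√L * τ)) ≤ D * (16 * (τ * Real.log t)) :=
    mul_le_mul_of_nonneg_left (by linarith) hD0.le
  calc ‖riemannZeta s‖ ≤ 18 + D * (K * τ + 4 * (√L * τ)) := hz
    _ ≤ 27 * (τ * Real.log t) + D * (16 * (τ * Real.log t)) := by linarith
    _ = _ := by ring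

end Pool.Agent.K4H49.DM
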